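import Pool.Agent.Run7.h787.ST.Iface2

/-!
# Stark's conjecture, removal of primes: basic lemmas
-/

set_option autoImplicit false
set_option linter.unusedSectionVars false
set_option linter.style.haveILetI false

open NumberField IsDedekindDomain

open scoped Classical

noncomputable section

namespace Pool.Agent.Run7.h787.ST.B

open Pool.Agent.Run7.h787.ST

variable {K : Type} [Field K] [NumberField K] [Algebra K ℝ]

abbrev inc {H L : IntermediateField K ℝ} (h : H ≤ L) : H →ₐ[K] L := IntermediateField.inclusion h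

theorem coe_inc {H L : IntermediateField K ℝ} (h : H ≤ L) (x : H) :
    ((inc h x : L) : ℝ) = (x : ℝ) := rfl

theorem inc_eq {H L : IntermediateField K ℝ} (h : H ≤ L) {r : Gal L →* Gal H} (hr : IsRes r)
    (g : Gal L) (x : H) : inc h (r g x) = g (inc h x) := Subtype.ext (hr g x (inc h x) rfl)

theorem le_ext (H : IntermediateField K ℝ) (a : ℝ) : H ≤ ext H a := le_sup_left

theorem mem_ext (H : IntermediateField K ℝ) (a : ℝ) : a ∈ ext H a :=
  (le_sup_right : IntermediateField.adjoin K {a} ≤ _) (IntermediateField.mem_adjoin_simple_self K a)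

theorem ext_le {H L : IntermediateField K ℝ} {a : ℝ} (h : H ≤ L) (ha : a ∈ L) : ext H a ≤ L :=
  sup_le h (by rw [IntermediateField.adjoin_simple_le_iff]; exact ha)

/-- an automorphism is determined by `H` and `a` -/
theorem fix_of_ext {H L : IntermediateField K ℝ} {a : ℝ} (f : Gal L)
    (hHL : H ≤ L) (haL : a ∈ L)
    (hH : ∀ y : L, (y : ℝ) ∈ H → f y = y) (ha : ∀ y : L, (y : ℝ) = a → f y = y) :
    ∀ y : L, (y : ℝ) ∈ ext H a → f y = y := by
  intro y hy
  set F : IntermediateField K ℝ :=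
    IntermediateField.lift (IntermediateField.fixedField (Subgroup.zpowers f)) with hF
  have key : ∀ z : L, ((z : ℝ) ∈ F ↔ f z = z) := by
    intro z
    rw [hF, IntermediateField.mem_lift, IntermediateField.mem_fixedField_iff]
    constructor
    · intro h
      exact h f (Subgroup.mem_zpowers f)
    · intro h g hg
      obtain ⟨n, rfl⟩ := hg
      have hz : f ∈ MulAction.stabilizer (Gal L) z := h
      exact (MulAction.stabilizer (Gal L) z).zpow_mem hz n
  have hle : ext H a ≤ F := by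
    refine ext_le ?_ ?_
    · intro x hx
      exact (key ⟨x, hHL hx⟩).2 (hH _ hx)
    · exact (key ⟨a, haL⟩).2 (ha _ rfl)
  exact (key y).1 (hle hy)

theorem gal_comm {L : IntermediateField K ℝ} (h : IsAb L) (f g : Gal L) (x : L) :
    f (g x) = g (f x) := by
  haveI := h.2
  have : f * g = g * f := IsMulCommutative.is_comm.comm f g
  exact congrArg (fun k : Gal L => k x) this


theorem sum_shift {H : IntermediateField K ℝ} (hH : IsAb H) (χ : Gal H →* ℂˣ) (F : Gal H) (ε : H) :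
    ∑ᶠ g : Gal H, (χ g : ℂ) * (Real.log |((g (F⁻¹ ε) : H) : ℝ)| : ℝ) =
      (χ F : ℂ) * ∑ᶠ g : Gal H, (χ g : ℂ) * (Real.log |((g ε : H) : ℝ)| : ℝ) := by
  haveI := hH.1
  haveI : Fintype (Gal H) := Fintype.ofFinite _
  rw [finsum_eq_sum_of_fintype, finsum_eq_sum_of_fintype, Finset.mul_sum]
  rw [← Equiv.sum_comp (Equiv.mulRight F)]
  refine Finset.sum_congr rfl fun g _ => ?_
  have h1 : (Equiv.mulRight F g : Gal H) (F⁻¹ ε) = g ε := by
    change (g * F) (F⁻¹ ε) = g ε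
    rw [← AlgEquiv.mul_apply, mul_assoc, mul_inv_cancel, mul_one]
  rw [h1]
  change ((χ (g * F) : ℂˣ) : ℂ) * _ = _
  rw [map_mul, Units.val_mul]
  ring

theorem isAb_of_root {H : IntermediateField K ℝ} (hH : IsAb H) {x : ℝ} (hx : x ^ 2 ∈ H)
    (h : IsAbelianGalois K (ext H x)) : IsAb (ext H x) := by
  refine ⟨?_, h⟩
  haveI := hH.1
  have h1 : IsIntegral K (x ^ 2) := by
    have h2 : IsIntegral K (⟨x ^ 2, hx⟩ : H) := IsIntegral.of_finite K _
    exact h2.map H.val
  have h3 : IsIntegral K x := IsIntegral.of_pow (n := 2) (by norm_num) h1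
  haveI : FiniteDimensional K (IntermediateField.adjoin K {x}) :=
    IntermediateField.adjoin.finiteDimensional h3
  exact IntermediateField.finiteDimensional_sup H (IntermediateField.adjoin K {x})

theorem isIntegral_gal {H : IntermediateField K ℝ} (g : Gal H) (x : H)
    (h : IsIntegral ℤ (x : ℝ)) : IsIntegral ℤ ((g x : H) : ℝ) := by
  have h1 : IsIntegral ℤ x := (isIntegral_algebraMap_iff (A := H) (B := ℝ)
    (algebraMap H ℝ).injective).1 h
  have h2 : IsIntegral ℤ (g x) := h1.map ((g : H →ₐ[K] H).restrictScalars ℤ)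
  exact h2.map ((H.val).restrictScalars ℤ)

theorem isU_gal {H : IntermediateField K ℝ} (g : Gal H) (x : H) (h : IsU (x : ℝ)) :
    IsU ((g x : H) : ℝ) := by
  refine ⟨?_, isIntegral_gal g x h.2.1, ?_⟩
  · intro h0
    have h1 : g x = 0 := Subtype.ext h0
    have h2 : x = 0 := by simpa using h1
    exact h.1 (by rw [h2]; rfl)
  · have h1 : (((g x : H) : ℝ))⁻¹ = ((g x⁻¹ : H) : ℝ) := by rw [map_inv₀]; rfl
    rw [h1]
    exact isIntegral_gal g _ h.2.2

theorem isU_mul {x y : ℝ} (hx : IsU x) (hy : IsU y) : IsU (x * y) :=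
  ⟨mul_ne_zero hx.1 hy.1, hx.2.1.mul hy.2.1, by rw [mul_inv]; exact hx.2.2.mul hy.2.2⟩

theorem isU_of_sq {x : ℝ} (h : IsU (x ^ 2)) : IsU x := by
  refine ⟨fun h0 => h.1 (by rw [h0]; norm_num), IsIntegral.of_pow (n := 2) (by norm_num) h.2.1, ?_⟩
  refine IsIntegral.of_pow (n := 2) (by norm_num) ?_
  rw [inv_pow]
  exact h.2.2

theorem isU_one : IsU 1 := ⟨one_ne_zero, isIntegral_one, by rw [inv_one]; exact isIntegral_one⟩

theorem isU_neg {x : ℝ} (h : IsU x) : IsU (-x) :=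
  ⟨neg_ne_zero.2 h.1, h.2.1.neg, by rw [inv_neg]; exact h.2.2.neg⟩

theorem conj_sq {w : K →+* ℝ} {H : IntermediateField K ℝ} {c : Gal H} (hc : IsConjAt w H c) :
    c * c = 1 := by
  obtain ⟨τ, _, h2⟩ := hc
  refine AlgEquiv.ext fun x => ?_
  apply τ.injective
  change τ (c (c x)) = τ x
  rw [h2, h2, Complex.conj_conj]

/-- From the formula for the norm to `L'`. -/
theorem logUnit_of_norm {κ : ℝ} {w : K →+* ℝ} {H : IntermediateField K ℝ} (abH : IsAb H)
    {S : Finset (HeightOneSpectrum (𝓞 K))} {D : LData H S} {c : Gal H} (hc : IsConjAt w H c)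
    (hvan : Van w D) (N : H) (h0 : 0 < (N : ℝ)) (hU : IsU (N : ℝ)) (hA : ArchOne H N)
    (hinv : N * c N = 1)
    (hsum : ∀ χ : Gal H →* ℂˣ, (1 - (χ c : ℂ)) * deriv (D.L χ) 0 =
      -(κ : ℂ) * ∑ᶠ g : Gal H, (χ g : ℂ) * (Real.log |((g N : H) : ℝ)| : ℝ)) :
    LogUnit (κ / 2) D N := by
  refine ⟨h0, hU, hA, fun χ => ?_⟩
  have hc2 : (χ c : ℂ) ^ 2 = 1 := by
    have h1 : (χ c) * (χ c) = 1 := by rw [← map_mul, conj_sq hc, map_one]
    have h2 := congrArg (fun z : ℂˣ => (z : ℂ)) h1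
    simp only [Units.val_mul, Units.val_one] at h2
    rw [pow_two]; exact h2
  have hc3 : ((χ c : ℂ) - 1) * ((χ c : ℂ) + 1) = 0 := by linear_combination hc2
  have hκ2 : ((κ / 2 : ℝ) : ℂ) = (κ : ℂ) / 2 := by push_cast; ring
  rw [hκ2]
  rcases mul_eq_zero.1 hc3 with h | h
  · -- trivial on `c`
    have h1 : χ c = 1 := Units.ext (by simpa using sub_eq_zero.1 h)
    rw [hvan.2 χ c hc h1]
    have h2 := sum_shift abH χ c N
    have hcinv : c⁻¹ = c := inv_eq_of_mul_eq_one_left (conj_sq hc)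
    have hN0 : N ≠ 0 := by
      intro h
      rw [h] at h0
      simp at h0
    have hcN : c N = N⁻¹ := (inv_eq_of_mul_eq_one_right hinv).symm
    rw [hcinv, hcN, h1, Units.val_one, one_mul] at h2
    have h3 : ∀ g : Gal H, (χ g : ℂ) * (Real.log |((g N⁻¹ : H) : ℝ)| : ℝ) =
        - ((χ g : ℂ) * (Real.log |((g N : H) : ℝ)| : ℝ)) := by
      intro g
      have h4 : ((g N⁻¹ : H) : ℝ) = (((g N : H) : ℝ))⁻¹ := by rw [map_inv₀]; rfl
      rw [h4, abs_inv, Real.log_inv]
      push_cast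
      ring
    simp only [h3] at h2
    rw [finsum_neg_distrib] at h2
    have h5 : ∑ᶠ g : Gal H, (χ g : ℂ) * (Real.log |((g N : H) : ℝ)| : ℝ) = 0 := by
      linear_combination (-1 / 2 : ℂ) * h2
    rw [h5, mul_zero]
  · have h1 : (χ c : ℂ) = -1 := by linear_combination h
    have h2 := hsum χ
    rw [h1] at h2
    linear_combination (1 / 2 : ℂ) * h2

/-- Replace a square `ρ²` by `|ρ|`. -/
theorem logUnit_abs {κ : ℝ} {H : IntermediateField K ℝ}
    {S : Finset (HeightOneSpectrum (𝓞 K))} {D : LData H S} (ρ : H)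
    (h : LogUnit (κ / 2) D (ρ ^ 2)) : ∃ u : H, (u = ρ ∨ u = - ρ) ∧ LogUnit κ D u := by
  obtain ⟨h0, hU, hA, hs⟩ := h
  have hsq : ((ρ ^ 2 : H) : ℝ) = (ρ : ℝ) ^ 2 := rfl
  rw [hsq] at h0 hU
  have hρ0 : (ρ : ℝ) ≠ 0 := by
    intro h
    rw [h] at h0
    simp at h0
  have hA' : ArchOne H ρ := by
    intro τ hτ
    have h1 := hA τ hτ
    rw [map_pow, norm_pow] at h1
    have h2 : (0 : ℝ) ≤ ‖τ ρ‖ := norm_nonneg _
    nlinarith [h1, h2]
  have hs' : ∀ χ : Gal H →* ℂˣ,
      deriv (D.L χ) 0 = -(κ : ℂ) * ∑ᶠ g : Gal H, (χ g : ℂ) * (Real.log |((g ρ : H) : ℝ)| : ℝ) := by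
    intro χ
    rw [hs χ]
    have h1 : ∀ g : Gal H, (χ g : ℂ) * (Real.log |((g (ρ ^ 2) : H) : ℝ)| : ℝ) =
        (2 : ℂ) * ((χ g : ℂ) * (Real.log |((g ρ : H) : ℝ)| : ℝ)) := by
      intro g
      have h4 : ((g (ρ ^ 2) : H) : ℝ) = (((g ρ : H) : ℝ)) ^ 2 := by rw [map_pow]; rfl
      rw [h4, abs_pow, Real.log_pow]
      push_cast
      ring
    simp only [h1]
    rw [← mul_finsum]
    push_cast
    ring
  rcases lt_or_gt_of_ne hρ0 with h | h
  · refine ⟨-ρ, Or.inr rfl, ?_, isU_neg (isU_of_sq hU), ?_, ?_⟩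
    · change 0 < -(ρ : ℝ)
      linarith
    · intro τ hτ
      rw [map_neg, norm_neg]
      exact hA' τ hτ
    · intro χ
      rw [hs' χ]
      have h1 : ∀ g : Gal H, |((g (-ρ) : H) : ℝ)| = |((g ρ : H) : ℝ)| := by
        intro g
        have h4 : ((g (-ρ) : H) : ℝ) = - (((g ρ : H) : ℝ)) := by rw [map_neg]; rfl
        rw [h4, abs_neg]
      simp only [h1]
  · exact ⟨ρ, Or.inl rfl, h, isU_of_sq hU, hA', hs'⟩


end Pool.Agent.Run7.h787.ST.B
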