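import Pool.Agent.Run7.h787.ST.Iface

/-!
# Stark's conjecture, removal of primes: the commutation relation
-/

set_option autoImplicit false
set_option linter.unusedSectionVars false
set_option linter.style.haveILetI false

open NumberField IsDedekindDomain

open scoped Classical

noncomputable section

namespace Pool.Agent.Run7.h787.ST

variable {K : Type} [Field K] [NumberField K] [Algebra K ℝ]

abbrev inc {H L : IntermediateField K ℝ} (h : H ≤ L) : H →ₐ[K] L := IntermediateField.inclusion h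

theorem coe_inc {H L : IntermediateField K ℝ} (h : H ≤ L) (x : H) :
    ((inc h x : L) : ℝ) = (x : ℝ) := rfl

theorem IsRes.inc_eq {H L : IntermediateField K ℝ} (h : H ≤ L) {r : Gal L →* Gal H} (hr : IsRes r)
    (g : Gal L) (x : H) : inc h (r g x) = g (inc h x) := Subtype.ext (hr g x (inc h x) rfl)

theorem le_ext (H : IntermediateField K ℝ) (a : ℝ) : H ≤ ext H a := le_sup_left

theorem mem_ext (H : IntermediateField K ℝ) (a : ℝ) : a ∈ ext H a :=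
  (le_sup_right : IntermediateField.adjoin K {a} ≤ _) (IntermediateField.mem_adjoin_simple_self K a)

theorem ext_le {H L : IntermediateField K ℝ} {a : ℝ} (h : H ≤ L) (ha : a ∈ L) : ext H a ≤ L :=
  sup_le h (by rw [IntermediateField.adjoin_simple_le_iff]; exact ha)

/-- an automorphism is determined by `H` and `a` -/
theorem fix_of_ext {H L : IntermediateField K ℝ} {a : ℝ} (f : Gal L)
    (hHL : H ≤ L) (haL : a ∈ L)
    (hH : ∀ y : L, (y : ℝ) ∈ H → f y = y) (ha : ∀ y : L, (y : ℝ) = a → f y = y) :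
    ∀ y : L, (y : ℝ) ∈ ext H a → f y = y := by
  intro y hy
  set F : IntermediateField K ℝ :=
    IntermediateField.lift (IntermediateField.fixedField (Subgroup.zpowers f)) with hF
  have key : ∀ z : L, ((z : ℝ) ∈ F ↔ f z = z) := by
    intro z
    rw [hF, IntermediateField.mem_lift, IntermediateField.mem_fixedField_iff]
    constructor
    · intro h
      exact h f (Subgroup.mem_zpowers f)
    · intro h g hg
      obtain ⟨n, rfl⟩ := hg
      have hz : f ∈ MulAction.stabilizer (Gal L) z := h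
      exact (MulAction.stabilizer (Gal L) z).zpow_mem hz n
  have hle : ext H a ≤ F := by
    refine ext_le ?_ ?_
    · intro x hx
      exact (key ⟨x, hHL hx⟩).2 (hH _ hx)
    · exact (key ⟨a, haL⟩).2 (ha _ rfl)
  exact (key y).1 (hle hy)

theorem IsRes.mul {H L : IntermediateField K ℝ} {r : Gal L →* Gal H} (hr : IsRes r)
    (g : Gal L) (x : H) (y : L) (h : (x : ℝ) = (y : ℝ)) : ((r g x : H) : ℝ) = ((g y : L) : ℝ) :=
  hr g x y h

theorem gal_comm {L : IntermediateField K ℝ} (h : IsAb L) (f g : Gal L) (x : L) :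
    f (g x) = g (f x) := by
  haveI := h.2
  have : f * g = g * f := IsMulCommutative.is_comm.comm f g
  exact congrArg (fun k : Gal L => k x) this


theorem sum_shift {H : IntermediateField K ℝ} (hH : IsAb H) (χ : Gal H →* ℂˣ) (F : Gal H) (ε : H) :
    ∑ᶠ g : Gal H, (χ g : ℂ) * (Real.log |((g (F⁻¹ ε) : H) : ℝ)| : ℝ) =
      (χ F : ℂ) * ∑ᶠ g : Gal H, (χ g : ℂ) * (Real.log |((g ε : H) : ℝ)| : ℝ) := by
  haveI := hH.1
  haveI : Fintype (Gal H) := Fintype.ofFinite _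
  rw [finsum_eq_sum_of_fintype, finsum_eq_sum_of_fintype, Finset.mul_sum]
  rw [← Equiv.sum_comp (Equiv.mulRight F)]
  refine Finset.sum_congr rfl fun g _ => ?_
  have h1 : (Equiv.mulRight F g : Gal H) (F⁻¹ ε) = g ε := by
    change (g * F) (F⁻¹ ε) = g ε
    rw [← AlgEquiv.mul_apply, mul_assoc, mul_inv_cancel, mul_one]
  rw [h1]
  change ((χ (g * F) : ℂˣ) : ℂ) * _ = _
  rw [map_mul, Units.val_mul]
  ring

theorem pow_eq_abs {x y : ℝ} (h : x ^ 2 = y ^ 2) : x = y ∨ x = - y := sq_eq_sq_iff_eq_or_eq_neg.1 h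

theorem comm1 (iRHO : S_RHO) (iLREL : S_LREL) (iNSUM : S_NSUM) (iFINV : S_FINV) (iRES : S_RES)
    (iUNIQ : S_UNIQ) {κ : ℝ} (hκ : κ ≠ 0) {H Hq Hqp L : IntermediateField K ℝ} {aq ap : ℝ}
    (eHq : Hq = ext H aq) (eHqp : Hqp = ext Hq ap) (hL : Hqp ≤ L)
    (abH : IsAb H) (abHq : IsAb Hq) (abHqp : IsAb Hqp) (abL : IsAb L)
    {S Sq Sqp : Finset (HeightOneSpectrum (𝓞 K))} {q p : HeightOneSpectrum (𝓞 K)}
    (eSq : Sq = insert q S) (eSqp : Sqp = insert p Sq) (hp : p ∉ Sq)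
    (unH : ∀ p, p ∉ S → Unram H p) (unHq : ∀ p, p ∉ Sq → Unram Hq p)
    (D : LData H S) (Dq : LData Hq Sq) (Dqp : LData Hqp Sqp) (hvan : ∀ χ, Dq.L χ 0 = 0)
    {εq : Hq} (hεq : LogUnit κ Dq εq) {ε : Hqp} (hε : LogUnit κ Dqp ε)
    (rq r : L) (hrq : ((rq ^ 2 : L) : ℝ) = (εq : ℝ)) (hr : ((r ^ 2 : L) : ℝ) = (ε : ℝ))
    (hap : ap ∉ Hq) (hap2 : ap ^ 2 ∈ Hq)
    (hval : ∀ y : Hq, ¬ IsU (ap ^ 2 * (y : ℝ) ^ 2))
    (Tq Tp : Gal L) (hTp : ∀ y : L, (y : ℝ) ∈ Hq → Tp y = y)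
    (hTpa : ∀ y : L, (y : ℝ) = ap → Tp y = - y)
    (hTq : ∀ y : L, (y : ℝ) ∈ H → Tq y = y) (hTqa : ∀ y : L, (y : ℝ) = aq → Tq y = - y)
    (T0 : Gal Hq) (hT0 : ∀ y : Hq, (y : ℝ) ∈ H → T0 y = y) (hT0a : ∀ y : Hq, (y : ℝ) = aq → T0 y = - y)
    (ρ : H) (hρ : (ρ : ℝ) ^ 2 = ((εq * T0 εq : Hq) : ℝ)) :
    (((r * Tp r) * Tq (r * Tp r) : L) : ℝ) * (((D.frob p)⁻¹ ρ : H) : ℝ) = (ρ : ℝ) := by
  have hHq : H ≤ Hq := eHq ▸ le_ext H aq
  have hHqp : Hq ≤ Hqp := eHqp ▸ le_ext Hq ap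
  have hHqL : Hq ≤ L := hHqp.trans hL
  have hHL : H ≤ L := hHq.trans hHqL
  have hapL : ap ∈ L := hL (eHqp ▸ mem_ext Hq ap)
  have haqHq : aq ∈ Hq := eHq ▸ mem_ext H aq
  have hr0 : (r : ℝ) ≠ 0 := by
    intro h
    have := hε.1
    rw [← hr] at this
    simp [h] at this
  -- `r` is a unit
  have hrU : IsU (r : ℝ) := by
    obtain ⟨_, ⟨_, h1, h2⟩, _⟩ := hε
    refine ⟨hr0, ?_, ?_⟩
    · have : IsIntegral ℤ ((r : ℝ) ^ 2) := by
        have h3 : ((r : ℝ) ^ 2) = (ε : ℝ) := by rw [← hr]; rfl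
        rw [h3]; exact h1
      exact IsIntegral.of_pow (n := 2) (by norm_num) this
    · have : IsIntegral ℤ (((r : ℝ)⁻¹) ^ 2) := by
        have h3 : (((r : ℝ)⁻¹) ^ 2) = (ε : ℝ)⁻¹ := by rw [← hr]; simp
        rw [h3]; exact h2
      exact IsIntegral.of_pow (n := 2) (by norm_num) this
  -- `P = r * Tp r` lies in `Hq`
  have hPmem : ((r * Tp r : L) : ℝ) ∈ Hq := by
    refine iRHO K Hq L hHqL abL ⟨ap, hapL⟩ r Tp ?_ hTp (hTpa _ rfl) ?_ hrU ?_
    · exact hap2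
    · rw [hr]
      exact eHqp ▸ ε.2
    · exact hval
  obtain ⟨R, hR, hRs⟩ := iRES K Hq Hqp hHqp abHq abHqp
  obtain ⟨RL, hRL, hRLs⟩ := iRES K Hqp L hL abHqp abL
  obtain ⟨RH, hRH, hRHs⟩ := iRES K H Hq hHq abH abHq
  set P : Hq := ⟨_, hPmem⟩ with hP
  have hPL : inc hHqL P = r * Tp r := Subtype.ext rfl
  set Tp0 : Gal Hqp := RL Tp with hTp0
  have hRTp0 : R Tp0 = 1 := by
    refine AlgEquiv.ext fun x => Subtype.ext ?_
    have h1 := hR Tp0 x (inc hHqp x) rfl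
    have h2 := hRL Tp (inc hHqp x) (inc hL (inc hHqp x)) rfl
    rw [h1, hTp0, h2, hTp _ x.2]
    rfl
  have hN : (((P ^ 2 : Hq)) : ℝ) = ((ε * Tp0 ε : Hqp) : ℝ) := by
    have h2 := hRL Tp ε (r ^ 2) hr.symm
    have h3 : (((P ^ 2 : Hq)) : ℝ) = (r : ℝ) ^ 2 * ((Tp r : L) : ℝ) ^ 2 := by
      change ((r * Tp r : L) : ℝ) ^ 2 = _
      push_cast
      ring
    have h4 : ((ε * Tp0 ε : Hqp) : ℝ) = (ε : ℝ) * ((Tp0 ε : Hqp) : ℝ) := rfl
    rw [h3, h4, hTp0, h2, ← hr, map_pow]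
    push_cast
    ring
  have hε0 : ε ≠ 0 := by
    intro h
    have := hε.1
    rw [h] at this
    simp at this
  have hTp0a : ∀ y : Hqp, (y : ℝ) = ap → Tp0 y = - y := by
    intro y hy
    refine Subtype.ext ?_
    have h2 := hRL Tp y (inc hL y) rfl
    rw [hTp0, h2, hTpa _ hy]
    rfl
  set F : Gal Hq := Dq.frob p with hF
  -- the sums
  have hsum : ∀ χ : Gal Hq →* ℂˣ,
      ∑ᶠ g : Gal Hq, (χ g : ℂ) * (Real.log |((g (P ^ 2) : Hq) : ℝ)| : ℝ) =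
        (1 - (χ F : ℂ)) * ∑ᶠ g : Gal Hq, (χ g : ℂ) * (Real.log |((g εq : Hq) : ℝ)| : ℝ) := by
    intro χ
    subst eSqp
    have h1 := iLREL K Hq Hqp hHqp Sq p hp Dq Dqp R hR abHq unHq χ (hvan χ)
    have h2 := hε.2.2.2 (χ.comp R)
    have h3 := hεq.2.2.2 χ
    subst eHqp
    have h4 := iNSUM K Hq ap abHq abHqp hap hap2 R hR hRs Tp0 hTp0a hRTp0 ε (P ^ 2) hε0 hN χ
    have h5 : ∀ g, ((χ.comp R) g : ℂ) = (χ (R g) : ℂ) := fun g => rfl
    simp only [h5] at h2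
    rw [h4] at h2
    rw [h2, h3] at h1
    have hκ' : (-(κ : ℂ)) ≠ 0 := by
      simpa using hκ
    apply mul_left_cancel₀ hκ'
    rw [h1]
    ring
  have hfin : ∀ g : Gal Hq, Real.log |((g (P ^ 2) : Hq) : ℝ)| - Real.log |((g εq : Hq) : ℝ)| +
      Real.log |((g (F⁻¹ εq) : Hq) : ℝ)| = 0 := by
    refine iFINV K Hq abHq _ fun χ => ?_
    haveI := abHq.1
    haveI : Fintype (Gal Hq) := Fintype.ofFinite _
    have h1 := hsum χ
    have h2 := sum_shift abHq χ F εq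
    rw [sub_mul, ← h2] at h1
    simp only [finsum_eq_sum_of_fintype, one_mul] at h1 ⊢
    have h3 : ∀ g : Gal Hq, (χ g : ℂ) * ((Real.log |((g (P ^ 2) : Hq) : ℝ)| -
        Real.log |((g εq : Hq) : ℝ)| + Real.log |((g (F⁻¹ εq) : Hq) : ℝ)| : ℝ) : ℂ) =
        (χ g : ℂ) * (Real.log |((g (P ^ 2) : Hq) : ℝ)| : ℝ) -
        (χ g : ℂ) * (Real.log |((g εq : Hq) : ℝ)| : ℝ) +
        (χ g : ℂ) * (Real.log |((g (F⁻¹ εq) : Hq) : ℝ)| : ℝ) := by
      intro g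
      push_cast
      ring
    simp only [h3]
    rw [Finset.sum_add_distrib, Finset.sum_sub_distrib, h1]
    ring
  -- a lift of the Frobenius automorphism
  obtain ⟨RLq, hRLq, hRLqs⟩ := iRES K Hq L hHqL abHq abL
  obtain ⟨Φ, hΦ⟩ := hRLqs F⁻¹
  have hεq0 : 0 < (εq : ℝ) := hεq.1
  have hrq0 : (rq : ℝ) ≠ 0 := by
    intro h
    rw [← hrq] at hεq0
    simp [h] at hεq0
  have hP0 : (P : ℝ) ≠ 0 := by
    change ((r * Tp r : L) : ℝ) ≠ 0
    have : (r * Tp r : L) ≠ 0 := by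
      have h1 : r ≠ 0 := fun h => hr0 (by rw [h]; rfl)
      exact mul_ne_zero h1 (by simpa using h1)
    intro h
    exact this (Subtype.ext h)
  have hFε : ((F⁻¹ εq : Hq) : ℝ) = ((Φ rq : L) : ℝ) ^ 2 := by
    have h1 := hRLq Φ εq (rq ^ 2) hrq.symm
    rw [← hΦ, h1, map_pow]
    push_cast
    ring
  have hΦrq : ((Φ rq : L) : ℝ) ≠ 0 := by
    intro h
    have : Φ rq = 0 := Subtype.ext h
    have h2 : rq = 0 := by simpa using this
    exact hrq0 (by rw [h2]; rfl)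
  have key : (P : ℝ) ^ 2 * ((Φ rq : L) : ℝ) ^ 2 = (rq : ℝ) ^ 2 := by
    have h1 := hfin 1
    simp only [AlgEquiv.one_apply] at h1
    rw [hFε] at h1
    have h2 : ((P ^ 2 : Hq) : ℝ) = (P : ℝ) ^ 2 := rfl
    have h3 : (εq : ℝ) = (rq : ℝ) ^ 2 := by rw [← hrq]; rfl
    rw [h2, h3] at h1
    have a1 : (0 : ℝ) < (P : ℝ) ^ 2 := by positivity
    have a2 : (0 : ℝ) < ((Φ rq : L) : ℝ) ^ 2 := by positivity
    have a3 : (0 : ℝ) < (rq : ℝ) ^ 2 := by positivity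
    rw [abs_of_pos a1, abs_of_pos a2, abs_of_pos a3] at h1
    have h4 : Real.log ((P : ℝ) ^ 2 * ((Φ rq : L) : ℝ) ^ 2) = Real.log ((rq : ℝ) ^ 2) := by
      rw [Real.log_mul a1.ne' a2.ne']
      linarith
    exact Real.log_injOn_pos (Set.mem_Ioi.2 (by positivity)) (Set.mem_Ioi.2 a3) h4
  -- in `L`
  set PL : L := r * Tp r with hPLdef
  have keyL : (PL * Φ rq) ^ 2 = rq ^ 2 := by
    refine Subtype.ext ?_
    change ((PL : ℝ) * ((Φ rq : L) : ℝ)) ^ 2 = (rq : ℝ) ^ 2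
    rw [mul_pow]
    exact key
  have h6 : Φ (rq * Tq rq) = Φ rq * Tq (Φ rq) := by rw [map_mul, gal_comm abL Φ Tq rq]
  have hsq : (PL * Tq PL) * Φ (rq * Tq rq) = rq * Tq rq := by
    rw [h6]
    rcases sq_eq_sq_iff_eq_or_eq_neg.1 keyL with h | h
    · have h2 : Tq (PL * Φ rq) = Tq rq := by rw [h]
      rw [map_mul] at h2
      calc (PL * Tq PL) * (Φ rq * Tq (Φ rq)) = (PL * Φ rq) * (Tq PL * Tq (Φ rq)) := by ring
        _ = _ := by rw [h, h2]
    · have h2 : Tq (PL * Φ rq) = - Tq rq := by rw [h, map_neg]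
      rw [map_mul] at h2
      calc (PL * Tq PL) * (Φ rq * Tq (Φ rq)) = (PL * Φ rq) * (Tq PL * Tq (Φ rq)) := by ring
        _ = _ := by rw [h, h2]; ring
  -- `rq * Tq rq = ± ρ`
  have hTq0 : ∀ x : Hq, inc hHqL (T0 x) = Tq (inc hHqL x) := by
    have h1 : ∀ y : Hq, (y : ℝ) ∈ ext H aq → ((T0⁻¹ * RLq Tq : Gal Hq)) y = y := by
      refine fix_of_ext _ hHq haqHq ?_ ?_
      · intro y hy
        have h2 : RLq Tq y = y := by
          refine Subtype.ext ?_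
          rw [hRLq Tq y (inc hHqL y) rfl, hTq _ hy]
          rfl
        have h3 : T0 y = y := hT0 y hy
        rw [AlgEquiv.mul_apply, h2]
        calc T0⁻¹ y = T0⁻¹ (T0 y) := by rw [h3]
          _ = (T0⁻¹ * T0 : Gal Hq) y := rfl
          _ = y := by rw [inv_mul_cancel]; rfl
      · intro y hy
        have h2 : RLq Tq y = - y := by
          refine Subtype.ext ?_
          rw [hRLq Tq y (inc hHqL y) rfl, hTqa _ hy]
          rfl
        have h3 : T0 y = - y := hT0a y hy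
        rw [AlgEquiv.mul_apply, h2, ← h3]
        calc T0⁻¹ (T0 y) = (T0⁻¹ * T0 : Gal Hq) y := rfl
          _ = y := by rw [inv_mul_cancel]; rfl
    intro x
    have h4 : RLq Tq x = T0 x := by
      have h5 := h1 x (eHq ▸ x.2)
      rw [AlgEquiv.mul_apply] at h5
      calc RLq Tq x = (T0 * T0⁻¹ : Gal Hq) (RLq Tq x) := by rw [mul_inv_cancel]; rfl
        _ = T0 (T0⁻¹ (RLq Tq x)) := rfl
        _ = _ := by rw [h5]
    rw [← h4]
    exact hRLq.inc_eq hHqL Tq x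
  have hρsq : (rq * Tq rq) ^ 2 = (inc hHL ρ) ^ 2 := by
    refine Subtype.ext ?_
    have h1 : ((inc hHqL εq : L)) = rq ^ 2 := Subtype.ext hrq.symm
    have h2 : ((inc hHqL (T0 εq) : L)) = (Tq rq) ^ 2 := by rw [hTq0, h1, map_pow]
    have h3 : (((inc hHL ρ) ^ 2 : L) : ℝ) = (ρ : ℝ) ^ 2 := rfl
    have h4 : ((εq * T0 εq : Hq) : ℝ) = ((inc hHqL (εq * T0 εq) : L) : ℝ) := rfl
    rw [h3, hρ, h4, map_mul, h1, h2]
    push_cast
    ring
  -- `Φ` restricts to the inverse of the Frobenius automorphism of `H`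
  have hΦH : ∀ x : H, Φ (inc hHL x) = inc hHL ((D.frob p)⁻¹ x) := by
    have hpS : p ∉ S := fun h => hp (eSq ▸ Finset.mem_insert_of_mem h)
    have h1 : RH F = D.frob p := by
      refine iUNIQ K H p _ _ (unH p hpS) ?_ (D.isFrob p hpS)
      intro Q hQ x hx
      have h2 := Dq.isFrob p hp Q hQ (inc hHq x) hx
      have h3 := hRH F x (inc hHq x) rfl
      rw [h3]
      exact h2
    intro x
    refine Subtype.ext ?_
    have h4 : ((inc hHL ((D.frob p)⁻¹ x) : L) : ℝ) = (((RH F⁻¹ x : H)) : ℝ) := by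
      rw [map_inv, h1]
      rfl
    rw [h4, hRH F⁻¹ x (inc hHq x) rfl, ← hΦ]
    rw [hRLq Φ (inc hHq x) (inc hHL x) rfl]
  have hfinal : (PL * Tq PL) * inc hHL ((D.frob p)⁻¹ ρ) = inc hHL ρ := by
    rw [← hΦH]
    rcases sq_eq_sq_iff_eq_or_eq_neg.1 hρsq with h | h
    · rw [← h]; exact hsq
    · have h5 : inc hHL ρ = - (rq * Tq rq) := by rw [h, neg_neg]
      rw [h5, map_neg, mul_neg, hsq]
  exact congrArg (fun x : L => (x : ℝ)) hfinal

end Pool.Agent.Run7.h787.ST
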