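import Pool.Agent.Run7.h67.ST.DESC

/-! # Piece DESC of the project ST with an exceptional set (the proof of helper67, adapted) -/

set_option autoImplicit false

open NumberField IsDedekindDomain

noncomputable section

namespace Pool.Agent.Run7.h787.ST

open Pool.Agent.Run7.h67.ST.DESC

open Classical in
/-- Existence of the `L`-functions at the level `S` from the levels `S ∪ {q}`, `q ∉ S ∪ B`. -/
def S_DESCB : Prop :=
  ∀ (K : Type) [Field K] [NumberField K] [Algebra K ℝ] (w : K →+* ℝ) (H : IntermediateField K ℝ)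
    (S B : Finset (HeightOneSpectrum (𝓞 K))), IsAb H → S.Nonempty → (∀ p, p ∉ S → Unram H p) →
    (∀ q, q ∉ S → q ∉ B → ∃ D' : LData H (insert q S), VanP w D') → ∃ D : LData H S, VanP w D

open Classical in
theorem t_DESCB : S_GLUE → S_NORM → S_PREL → S_UNIQ → S_CHEB → S_DESCB := by
  intro hGLUE hNORM hPREL hUNIQ hCHEB K _ _ _ w H S B hab hS hun hD0
  have hSB : ∀ {q : HeightOneSpectrum (𝓞 K)}, q ∉ S ∪ B → q ∉ S := fun h h' =>
    h (Finset.mem_union_left _ h')
  have hD : ∀ q, q ∉ S ∪ B → ∃ D' : LData H (insert q S), VanP w D' := fun q hq =>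
    hD0 q (hSB hq) fun h => hq (Finset.mem_union_right _ h)
  have hfd : FiniteDimensional K H := hab.1
  have hfin : Finite (Gal H) := inferInstance
  choose D' hV using hD
  obtain ⟨a, ha, -⟩ := hNORM K (S ∪ B) 1 one_ne_zero
  have haS : a ∉ S := hSB ha
  obtain ⟨b, hb', -⟩ := hNORM K (insert a (S ∪ B)) 1 one_ne_zero
  have hba : b ≠ a := fun h => hb' (by rw [h]; exact Finset.mem_insert_self _ _)
  have hb : b ∉ S ∪ B := fun h => hb' (Finset.mem_insert_of_mem h)
  -- the Frobenius automorphisms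
  let frob : HeightOneSpectrum (𝓞 K) → Gal H := fun p =>
    if p = a then (D' b hb).frob p else (D' a ha).frob p
  have hfr : ∀ p, p ∉ S → IsFrob H p (frob p) := by
    intro p hp
    by_cases h : p = a
    · have e : frob p = (D' b hb).frob p := if_pos h
      rw [e]
      refine (D' b hb).isFrob p ?_
      rw [Finset.mem_insert, not_or]
      exact ⟨fun h' => hba (by rw [← h', h]), hp⟩
    · have e : frob p = (D' a ha).frob p := if_neg h
      rw [e]
      refine (D' a ha).isFrob p ?_
      rw [Finset.mem_insert, not_or]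
      exact ⟨h, hp⟩
  have hU : ∀ p, p ∉ S → ∀ q (hq : q ∉ S ∪ B), q ≠ p → (D' q hq).frob p = frob p := by
    intro p hp q hq hqp
    refine hUNIQ K H p _ _ (hun p hp) ((D' q hq).isFrob p ?_) (hfr p hp)
    rw [Finset.mem_insert, not_or]
    exact ⟨fun h => hqp h.symm, hp⟩
  -- the functions
  let ι : Type := {q : HeightOneSpectrum (𝓞 K) // q ∉ S ∪ B}
  let Fn : (Gal H →* ℂˣ) → ι → ℂ → ℂ := fun χ q => (D' q.1 q.2).L χ
  let En : (Gal H →* ℂˣ) → ι → ℂ → ℂ := fun χ q => ef q.1 (χ (frob q.1) : ℂ)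
  have ho : IsOpen ({1}ᶜ : Set ℂ) := isOpen_compl_singleton
  have hFa : ∀ χ (i : ι) (s : ℂ), s ≠ 1 → AnalyticAt ℂ (Fn χ i) s := fun χ i s hs =>
    ((D' i.1 i.2).analytic χ).analyticAt (ho.mem_nhds hs)
  have hEa : ∀ χ (i : ι) (s : ℂ), AnalyticAt ℂ (En χ i) s := fun χ i s =>
    (ef_diff i.1 _).analyticAt s
  have h10 : (0 : ℂ) ≠ 1 := zero_ne_one
  -- nonvanishing at zero
  have hne0 : ∀ χ : Gal H →* ℂˣ, χ ≠ 1 → ∃ i : ι, En χ i 0 ≠ 0 := by
    intro χ hχ
    obtain ⟨g, hg⟩ : ∃ g, χ g ≠ 1 := by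
      by_contra h
      push Not at h
      exact hχ (MonoidHom.ext h)
    obtain ⟨q, hq, hqB, hqg⟩ := hCHEB K H (insert a S) B (D' a ha) g hab
      (fun p hp => hun p fun h => hp (Finset.mem_insert_of_mem h))
    rw [Finset.mem_insert, not_or] at hq
    refine ⟨⟨q, fun h => (Finset.mem_union.1 h).elim hq.2 hqB⟩, ?_⟩
    have e : frob q = g := by rw [← hU q hq.2 a ha (Ne.symm hq.1), hqg]
    show ef q (χ (frob q) : ℂ) 0 ≠ 0
    rw [e]
    unfold ef
    rw [neg_zero, Complex.cpow_zero, mul_one, sub_ne_zero]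
    intro h
    exact hg (Units.ext h.symm)
  have hmain : ∀ χ : Gal H →* ℂˣ, ∃ G : ℂ → ℂ, DifferentiableOn ℂ G {1}ᶜ ∧
      ∀ (i : ι) s, s ≠ 1 → Fn χ i s = En χ i s * G s := by
    intro χ
    refine hGLUE ι (Fn χ) (En χ) (fun i => (D' i.1 i.2).analytic χ) (fun i => ef_diff i.1 _) ?_ ?_
    · intro i j s hs
      by_cases hij : i = j
      · rw [hij]
      · have hij' : i.1 ≠ j.1 := fun h => hij (Subtype.ext h)
        have h := hPREL K H S i.1 j.1 (hSB i.2) (hSB j.2) hij' (D' i.1 i.2) (D' j.1 j.2) hab hun χ s hs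
        rw [hU j.1 (hSB j.2) i.1 i.2 hij', hU i.1 (hSB i.2) j.1 j.2 (Ne.symm hij')] at h
        exact h
    · intro s₀ hs₀
      by_cases hre : s₀.re = 0
      · by_cases h0 : s₀ = 0
        · subst h0
          by_cases hχ : χ = 1
          · refine ⟨⟨a, ha⟩, ?_⟩
            have e : En χ ⟨a, ha⟩ = ef a 1 := by
              show ef a (χ (frob a) : ℂ) = ef a 1
              rw [hχ]; simp
            rw [e, ef_order]
            refine ⟨ENat.one_ne_top, ?_⟩
            have h1 := (hV a ha).2.2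
            have e2 : Fn χ ⟨a, ha⟩ = (D' a ha).L 1 := by rw [hχ]
            rw [e2]
            exact le_trans le_add_self h1
          · obtain ⟨i, hi⟩ := hne0 χ hχ
            refine ⟨i, ?_⟩
            rw [order_zero_of_ne (hEa χ i 0) hi]
            exact ⟨ENat.zero_ne_top, zero_le⟩
        · -- purely imaginary
          have ht : s₀.im ≠ 0 := fun h => h0 (Complex.ext hre h)
          have hn : (Nat.card (Gal H) : ℝ) ≠ 0 := by exact_mod_cast Nat.card_pos.ne'
          obtain ⟨q, hq, hq1⟩ := hNORM K (S ∪ B) (-s₀.im * Nat.card (Gal H))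
            (mul_ne_zero (neg_ne_zero.2 ht) hn)
          refine ⟨⟨q, hq⟩, ?_⟩
          have hne : En χ ⟨q, hq⟩ s₀ ≠ 0 := by
            intro h
            have e : (χ (frob q) : ℂ) * (Ideal.absNorm q.asIdeal : ℂ) ^ (-s₀) = 1 :=
              (sub_eq_zero.1 h).symm
            have e2 := congrArg (fun z => z ^ Nat.card (Gal H)) e
            simp only [mul_pow, one_pow] at e2
            rw [pow_char, one_mul, ← Complex.cpow_mul_nat] at e2
            apply hq1
            rw [← e2]
            congr 1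
            have e3 : s₀ = (s₀.im : ℂ) * Complex.I := by
              apply Complex.ext <;> simp [hre]
            conv_rhs => rw [e3]
            push_cast
            ring
          rw [order_zero_of_ne (hEa χ _ s₀) hne]
          exact ⟨ENat.zero_ne_top, zero_le⟩
      · refine ⟨⟨a, ha⟩, ?_⟩
        rw [order_zero_of_ne (hEa χ _ s₀) (ef_ne (norm_char χ _) hre)]
        exact ⟨ENat.zero_ne_top, zero_le⟩
  choose G hG1 hG2 using hmain
  have hGa : ∀ χ (s : ℂ), s ≠ 1 → AnalyticAt ℂ (G χ) s := fun χ s hs =>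
    (hG1 χ).analyticAt (ho.mem_nhds hs)
  -- the order for the trivial character
  have hord : (S.card : ℕ∞) + 1 ≤ analyticOrderAt (G 1) 0 := by
    have h1 := (hV a ha).2.2
    rw [Finset.card_insert_of_notMem haS] at h1
    have h2 : analyticOrderAt ((D' a ha).L 1) 0 = 1 + analyticOrderAt (G 1) 0 := by
      have h3 : (D' a ha).L 1 =ᶠ[nhds (0 : ℂ)] (ef a 1 * G 1) := by
        filter_upwards [ho.mem_nhds h10] with s hs
        have := hG2 1 ⟨a, ha⟩ s hs
        have e : En 1 ⟨a, ha⟩ = ef a 1 := by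
          show ef a (((1 : Gal H →* ℂˣ) (frob a) : ℂˣ) : ℂ) = ef a 1
          simp
        rw [e] at this
        exact this
      rw [analyticOrderAt_congr h3, analyticOrderAt_mul ((ef_diff a 1).analyticAt 0) (hGa 1 0 h10),
        ef_order]
    rw [h2] at h1
    push_cast at h1
    rw [add_comm 1 (analyticOrderAt (G 1) 0)] at h1
    exact (ENat.add_le_add_iff_right ENat.one_ne_top).1 h1
  have hScard : 1 ≤ S.card := Finset.card_pos.2 hS
  have htriv := two_le_order (hGa 1 0 h10) (n := S.card + 1) (by push_cast; exact hord)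
  refine ⟨{ frob := frob, isFrob := hfr, L := G, analytic := hG1, euler := ?_ }, ?_, ?_, hord⟩
  · -- Euler product
    intro χ s hs
    have hs1 : s ≠ 1 := by
      intro h
      rw [h, Complex.one_re] at hs
      exact lt_irrefl _ hs
    set f : HeightOneSpectrum (𝓞 K) → ℂ := fun p =>
      (1 - (χ (frob p) : ℂ) * (Ideal.absNorm p.asIdeal : ℂ) ^ (-s))⁻¹ with hf
    have h1 : HasProd (f ∘ ((↑) : {p : HeightOneSpectrum (𝓞 K) | p ∉ insert a S} →
        HeightOneSpectrum (𝓞 K))) ((D' a ha).L χ s) := by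
      have h := (D' a ha).euler χ s hs
      have e : (fun p : {p : HeightOneSpectrum (𝓞 K) // p ∉ insert a S} =>
          (1 - (χ ((D' a ha).frob p) : ℂ) *
          (Ideal.absNorm (p : HeightOneSpectrum (𝓞 K)).asIdeal : ℂ) ^ (-s))⁻¹) = fun p => f p.1 := by
        funext x
        obtain ⟨p, hp⟩ := x
        rw [Finset.mem_insert, not_or] at hp
        simp only [hf, hU p hp.2 a ha (Ne.symm hp.1)]
      rw [e] at h
      exact h
    have h2 : HasProd (f ∘ ((↑) : ({a} : Set (HeightOneSpectrum (𝓞 K))) →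
        HeightOneSpectrum (𝓞 K))) (f a) := hasProd_unique _
    have hd : Disjoint {p : HeightOneSpectrum (𝓞 K) | p ∉ insert a S}
        ({a} : Set (HeightOneSpectrum (𝓞 K))) := by
      rw [Set.disjoint_singleton_right]
      intro h
      exact h (Finset.mem_insert_self _ _)
    have h3 := h1.mul_disjoint hd h2
    have hset : {p : HeightOneSpectrum (𝓞 K) | p ∉ insert a S} ∪
        ({a} : Set (HeightOneSpectrum (𝓞 K))) = {p | p ∉ S} := by
      ext p
      simp only [Set.mem_union, Set.mem_ofPred_eq, Finset.mem_insert, not_or,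
        Set.mem_singleton_iff]
      constructor
      · rintro (⟨-, h⟩ | rfl)
        · exact h
        · exact haS
      · intro h
        by_cases hpq : p = a
        · exact Or.inr hpq
        · exact Or.inl ⟨hpq, h⟩
    rw [hset] at h3
    have hne : ef a (χ (frob a) : ℂ) s ≠ 0 := ef_ne (norm_char χ _) (by linarith)
    have h4 : (D' a ha).L χ s * f a = G χ s := by
      have h5 : (D' a ha).L χ s = ef a (χ (frob a) : ℂ) s * G χ s := hG2 χ ⟨a, ha⟩ s hs1
      have h6 : f a = (ef a (χ (frob a) : ℂ) s)⁻¹ := rfl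
      rw [h5, h6]
      field_simp
    rw [h4] at h3
    exact h3
  · -- zero
    intro χ
    show G χ 0 = 0
    by_cases hχ : χ = 1
    · rw [hχ]
      exact htriv.1 (by omega)
    · obtain ⟨i, hi⟩ := hne0 χ hχ
      have h1 := hG2 χ i 0 h10
      have h2 : Fn χ i 0 = 0 := (hV i.1 i.2).1 χ
      rw [h2] at h1
      exact (mul_eq_zero.1 h1.symm).resolve_left hi
  · -- double zeros
    intro χ c hc hχc
    show deriv (G χ) 0 = 0
    by_cases hχ : χ = 1
    · rw [hχ]
      exact htriv.2 (by omega)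
    · obtain ⟨i, hi⟩ := hne0 χ hχ
      have h0 : G χ 0 = 0 := by
        have h1 := hG2 χ i 0 h10
        have h2 : Fn χ i 0 = 0 := (hV i.1 i.2).1 χ
        rw [h2] at h1
        exact (mul_eq_zero.1 h1.symm).resolve_left hi
      have h3 : deriv (Fn χ i) 0 = 0 := (hV i.1 i.2).2.1 χ c hc hχc
      have h4 : Fn χ i =ᶠ[nhds (0 : ℂ)] (En χ i * G χ) := by
        filter_upwards [ho.mem_nhds h10] with s hs
        exact hG2 χ i s hs
      rw [h4.deriv_eq, deriv_mul (hEa χ i 0).differentiableAt (hGa χ 0 h10).differentiableAt, h0,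
        mul_zero, zero_add] at h3
      exact (mul_eq_zero.1 h3).resolve_left hi


end Pool.Agent.Run7.h787.ST
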