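import Mathlib

/-!
# Stark's rank one abelian conjecture at a split real place: definitions

`K` is a number field with a fixed real embedding `v`, the map `algebraMap K ℝ`. All extensions of
`K` are subfields of `ℝ`, so that the place `v` splits completely in the abelian ones.
-/

set_option autoImplicit false

open NumberField IsDedekindDomain

noncomputable section

namespace Pool.Agent.Run7.h787.ST

variable {K : Type} [Field K] [NumberField K] [Algebra K ℝ]

/-- `H` is a finite abelian extension of `K` (inside the real numbers). -/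
def IsAb (H : IntermediateField K ℝ) : Prop := FiniteDimensional K H ∧ IsAbelianGalois K H

/-- The field `H(x)`. -/
def ext (H : IntermediateField K ℝ) (x : ℝ) : IntermediateField K ℝ :=
  H ⊔ IntermediateField.adjoin K {x}

/-- The Galois group of `H` over `K`. -/
abbrev Gal (H : IntermediateField K ℝ) : Type := H ≃ₐ[K] H

/-- `P` is a prime ideal of the ring of all real algebraic integers. -/
def IsRealPrime (P : Set ℝ) : Prop :=
  (∀ x ∈ P, IsIntegral ℤ x) ∧ 0 ∈ P ∧ (∀ x ∈ P, ∀ y ∈ P, x + y ∈ P) ∧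
  (∀ x y, IsIntegral ℤ x → y ∈ P → x * y ∈ P) ∧ 1 ∉ P ∧
  (∀ x y, IsIntegral ℤ x → IsIntegral ℤ y → x * y ∈ P → x ∈ P ∨ y ∈ P)

/-- `P` is a prime ideal of the ring of all real algebraic integers which lies over `p`. -/
def Over (p : HeightOneSpectrum (𝓞 K)) (P : Set ℝ) : Prop :=
  IsRealPrime P ∧ ∀ x : 𝓞 K, algebraMap K ℝ (x : K) ∈ P ↔ x ∈ p.asIdeal

/-- `g` is a Frobenius automorphism of `H` at all prime ideals over `p`. -/
def IsFrob (H : IntermediateField K ℝ) (p : HeightOneSpectrum (𝓞 K)) (g : Gal H) : Prop :=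
  ∀ P : Set ℝ, Over p P → ∀ x : H, IsIntegral ℤ (x : ℝ) →
    ((g x : H) : ℝ) - (x : ℝ) ^ Ideal.absNorm p.asIdeal ∈ P

/-- The prime ideal `p` of `K` is unramified in `H`: the inertia groups are trivial. -/
def Unram (H : IntermediateField K ℝ) (p : HeightOneSpectrum (𝓞 K)) : Prop :=
  ∀ P : Set ℝ, Over p P → ∀ g : Gal H,
    (∀ x : H, IsIntegral ℤ (x : ℝ) → ((g x : H) : ℝ) - (x : ℝ) ∈ P) → g = 1

/-- The Frobenius automorphisms and the functions `L_S(χ, s)` of `H / K`, where `S` consists of the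
infinite places and a finite set of prime ideals: `L χ` is holomorphic for `s ≠ 1` and given by the
Euler product over the prime ideals outside `S` for `Re s > 1`. -/
structure LData (H : IntermediateField K ℝ) (S : Finset (HeightOneSpectrum (𝓞 K))) where
  /-- the Frobenius automorphisms -/
  frob : HeightOneSpectrum (𝓞 K) → Gal H
  isFrob : ∀ p, p ∉ S → IsFrob H p (frob p)
  /-- the function `L_S(χ, s)` -/
  L : (Gal H →* ℂˣ) → ℂ → ℂ
  analytic : ∀ χ, DifferentiableOn ℂ (L χ) {1}ᶜ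
  euler : ∀ (χ : Gal H →* ℂˣ) (s : ℂ), 1 < s.re →
    HasProd (fun p : {p : HeightOneSpectrum (𝓞 K) // p ∉ S} =>
      (1 - (χ (frob p) : ℂ) *
        (Ideal.absNorm (p : HeightOneSpectrum (𝓞 K)).asIdeal : ℂ) ^ (-s))⁻¹) (L χ s)

/-- `c` is the complex conjugation of `H` at a place over the real embedding `w` of `K`. -/
def IsConjAt (w : K →+* ℝ) (H : IntermediateField K ℝ) (c : Gal H) : Prop :=
  ∃ τ : H →+* ℂ, (∀ x : K, τ (algebraMap K H x) = ((w x : ℝ) : ℂ)) ∧
    ∀ x : H, τ (c x) = starRingEnd ℂ (τ x)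

/-- The order of vanishing at `s = 0` is at least one, and at least two for the characters which are
trivial on the complex conjugations over `w`. -/
def Van (w : K →+* ℝ) {H : IntermediateField K ℝ} {S : Finset (HeightOneSpectrum (𝓞 K))}
    (D : LData H S) : Prop :=
  (∀ χ, D.L χ 0 = 0) ∧
  ∀ (χ : Gal H →* ℂˣ) (c : Gal H), IsConjAt w H c → χ c = 1 → deriv (D.L χ) 0 = 0

/-- Absolute value one at all infinite places which are not over `v`. -/
def ArchOne (H : IntermediateField K ℝ) (ε : H) : Prop :=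
  ∀ τ : H →+* ℂ, (∃ x : K, τ (algebraMap K H x) ≠ ((algebraMap K ℝ x : ℝ) : ℂ)) → ‖τ ε‖ = 1

/-- `x` is nonzero, and `x` and its inverse are algebraic integers. -/
def IsU (x : ℝ) : Prop := x ≠ 0 ∧ IsIntegral ℤ x ∧ IsIntegral ℤ x⁻¹

/-- `ε > 0` is a unit of `H` of absolute value one at the infinite places not over `v`, with
`L_S'(χ, 0) = - κ ∑ χ(g) log |g ε|` for all `χ`. -/
def LogUnit (κ : ℝ) {H : IntermediateField K ℝ} {S : Finset (HeightOneSpectrum (𝓞 K))}
    (D : LData H S) (ε : H) : Prop :=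
  0 < (ε : ℝ) ∧ IsU (ε : ℝ) ∧ ArchOne H ε ∧
  ∀ χ : Gal H →* ℂˣ,
    deriv (D.L χ) 0 = -(κ : ℂ) * ∑ᶠ g : Gal H, (χ g : ℂ) * (Real.log |((g ε : H) : ℝ)| : ℝ)

/-- Stark's conjecture with the abelian root condition for `H / K` and `S` (`κ = 1/2`). -/
def Stark (κ : ℝ) (H : IntermediateField K ℝ) (S : Finset (HeightOneSpectrum (𝓞 K))) : Prop :=
  ∃ (D : LData H S) (ε : H), LogUnit κ D ε ∧ IsAbelianGalois K (ext H (Real.sqrt (ε : ℝ)))

/-- The form without the root condition: all conjugates of the unit are positive. -/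
def WeakStark (κ : ℝ) (H : IntermediateField K ℝ) (S : Finset (HeightOneSpectrum (𝓞 K))) : Prop :=
  ∃ (D : LData H S) (ε : H), LogUnit κ D ε ∧ ∀ g : Gal H, 0 < ((g ε : H) : ℝ)

/-- The classical facts: the Artin `L`-functions of abelian extensions exist and have the known
orders of vanishing at `s = 0`. -/
def Classical (w : K →+* ℝ) : Prop :=
  ∀ (H : IntermediateField K ℝ) (S : Finset (HeightOneSpectrum (𝓞 K))), IsAb H → S.Nonempty →
    (∀ p, p ∉ S → Unram H p) → Nonempty (LData H S) ∧ ∀ D : LData H S, Van w D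

/-- `S₀` contains the prime ideals over `2` and generates the class group modulo squares: for every
prime ideal `q` some product `q b² s` is principal, where `s` is a product of elements of `S₀`. -/
def Large (S₀ : Finset (HeightOneSpectrum (𝓞 K))) : Prop :=
  (∀ p : HeightOneSpectrum (𝓞 K), (2 : 𝓞 K) ∈ p.asIdeal → p ∈ S₀) ∧
  ∀ q : HeightOneSpectrum (𝓞 K), ∃ (α : 𝓞 K) (b : Ideal (𝓞 K))
    (n : HeightOneSpectrum (𝓞 K) → ℕ), α ≠ 0 ∧
    Ideal.span {α} = q.asIdeal * b ^ 2 * ∏ p ∈ S₀, p.asIdeal ^ n p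

/-- The order of `α` at `p` is even. -/
def EvenAt (p : HeightOneSpectrum (𝓞 K)) (α : 𝓞 K) : Prop :=
  ∃ a t c : 𝓞 K, a ∉ p.asIdeal ∧ t ∉ p.asIdeal ∧ c ≠ 0 ∧ α * t ^ 2 = a * c ^ 2

/-- The order of `α` at `p` is odd. -/
def OddAt (p : HeightOneSpectrum (𝓞 K)) (α : 𝓞 K) : Prop :=
  ∃ π t c : 𝓞 K, π ∈ p.asIdeal ∧ π ∉ p.asIdeal ^ 2 ∧ t ∉ p.asIdeal ∧ c ≠ 0 ∧
    α * t ^ 2 = π * c ^ 2

end Pool.Agent.Run7.h787.ST
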