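import Pool.Agent.Run7.h787.ST.TR
import Pool.Agent.Run7.h216.ST.GOUP
import Pool.Agent.Run7.h803.ST.RES
import Pool.Agent.Run7.h803.ST.CHEB
import Pool.Agent.Run7.h136.ST.FIX
import Pool.Agent.Run7.h136.ST.SUP
import Pool.Agent.Run7.h547.ST.LREL
import Pool.Agent.Run7.h547.ST.ARCH
import Pool.Agent.Run7.h462.ST.LREL0
import Pool.Agent.Run7.h889.ST.FINV
import Pool.Agent.Run7.h298.ST.NSUM
import Pool.Agent.Run7.h354.ST.CONJ
import Pool.Agent.Run7.h354.ST.NORM
import Pool.Agent.Run7.h354.ST.PREL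
import Pool.Agent.Run7.h305.ST.CYN
import Pool.Agent.Run7.h305.ST.HNT
import Pool.Agent.Run7.h847.ST.CY
import Pool.Agent.Run7.h67.ST.GLUE

/-!
# Stark's conjecture, removal of primes: the final theorems (up to the Euler products)
-/

set_option autoImplicit false
set_option linter.unusedSectionVars false

open NumberField IsDedekindDomain

open scoped Classical

noncomputable section

namespace Pool.Agent.Run7.h787.ST

theorem pieces : Pieces2 := by
  have hG : S_GOUP := Run7.h216.ST.t_GOUP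
  have hU : S_UNIQ := Run7.h216.ST.t_UNIQ hG
  have hR : S_RES := Run7.h803.ST.t_RES
  have hF : S_FIX := Pool.Agent.Run7.h136.ST.t_FIX
  have hC : S_CHEB := Run7.h803.ST.t_CHEB hG hU
  exact {
    uniq := hU
    res := hR
    fix := hF
    sup := Pool.Agent.Run7.h136.ST.t_SUP
    lift := Pool.Agent.Run7.h136.ST.t_LIFT hF
    cheb := hC
    lrel := Pool.Agent.Run7.h547.ST.t_LREL hU
    lrel0 := Run7.h462.ST.t_LREL0 hU
    finv := Run7.h889.ST.t_FINV
    nsum := Run7.h298.ST.t_NSUM
    conj := Pool.Agent.Run7.h354.ST.t_CONJ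
    arch := Pool.Agent.Run7.h547.ST.t_ARCH
    cyn := Pool.Agent.Run7.h305.ST.t_CYN
    cya := Run7.h847.ST.t_CYA
    cyu := Run7.h847.ST.t_CYU hR
    hnt := Pool.Agent.Run7.h305.ST.t_HNT
    desc := t_DESCB Pool.Agent.Run7.h67.ST.t_GLUE Pool.Agent.Run7.h354.ST.t_NORM
      (Pool.Agent.Run7.h354.ST.t_PREL hU) hU hC }

/-- `S` contains the prime ideals over `2`. -/
def Over2 {K : Type} [Field K] [NumberField K] (S : Finset (HeightOneSpectrum (𝓞 K))) : Prop :=
  ∀ p : HeightOneSpectrum (𝓞 K), (2 : 𝓞 K) ∈ p.asIdeal → p ∈ S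

namespace B

variable {K : Type} [Field K] [NumberField K] [Algebra K ℝ]

omit [Algebra K ℝ] in
theorem exists_over2 : ∃ p : HeightOneSpectrum (𝓞 K), (2 : 𝓞 K) ∈ p.asIdeal := by
  have h2 : ¬ IsUnit (2 : 𝓞 K) := by
    intro h
    obtain ⟨y, hy⟩ := h.exists_right_inv
    have h1 : (2 : K) * (y : K) = 1 := by
      have := congrArg (algebraMap (𝓞 K) K) hy
      rw [map_mul, map_one, map_ofNat] at this
      exact this
    have h3 : (y : K) = algebraMap ℚ K (1 / 2) := by
      have h20 : (2 : K) ≠ 0 := two_ne_zero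
      rw [map_div₀, map_one, map_ofNat]
      field_simp
      linear_combination h1
    have h4 : IsIntegral ℤ (algebraMap ℚ K (1 / 2)) := h3 ▸ y.2
    have h5 : IsIntegral ℤ (1 / 2 : ℚ) :=
      (isIntegral_algebraMap_iff (algebraMap ℚ K).injective).1 h4
    obtain ⟨n, hn⟩ := IsIntegrallyClosed.isIntegral_iff.1 h5
    have h6 : (2 : ℚ) * n = 1 := by
      have : (n : ℚ) = 1 / 2 := by simpa using hn
      rw [this]; norm_num
    have h7 : (2 : ℤ) * n = 1 := by exact_mod_cast h6
    omega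
  have h3 : Ideal.span {(2 : 𝓞 K)} ≠ ⊤ := fun h => h2 (Ideal.span_singleton_eq_top.1 h)
  obtain ⟨M, hM, hle⟩ := Ideal.exists_le_maximal _ h3
  have h20 : (2 : 𝓞 K) ≠ 0 := two_ne_zero
  have hmem : (2 : 𝓞 K) ∈ M := hle (Ideal.mem_span_singleton_self _)
  refine ⟨⟨M, hM.isPrime, ?_⟩, hmem⟩
  intro hbot
  rw [hbot] at hmem
  exact h20 ((Submodule.mem_bot _).1 hmem)

/-- Generic induction on the number of primes. -/
theorem descend {P : Finset (HeightOneSpectrum (𝓞 K)) → Prop}
    (hstep : ∀ S, Over2 S → (∀ q, q ∉ S → P (insert q S)) → P S) (t : ℕ)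
    (h0 : ∀ S, Over2 S → t ≤ S.card → P S) : ∀ S, Over2 S → P S := by
  have key : ∀ n : ℕ, ∀ S, Over2 S → t ≤ S.card + n → P S := by
    intro n
    induction n with
    | zero => intro S hS ht; exact h0 S hS ht
    | succ n ih =>
      intro S hS ht
      refine hstep S hS fun q hq => ih (insert q S) ?_ ?_
      · intro p hp
        exact Finset.mem_insert_of_mem (hS p hp)
      · rw [Finset.card_insert_of_notMem hq]
        omega
  intro S hS
  exact key t S hS (by omega)

theorem nonempty_of_over2 {S : Finset (HeightOneSpectrum (𝓞 K))} (h : Over2 S) : S.Nonempty := by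
  obtain ⟨p, hp⟩ := exists_over2 (K := K)
  exact ⟨p, h p hp⟩

end B

end Pool.Agent.Run7.h787.ST
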