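import Pool.Agent.Run7.h787.ST.Final

/-!
# Stark's conjecture, removal of primes: the final theorems
-/

set_option autoImplicit false
set_option linter.unusedSectionVars false

open NumberField IsDedekindDomain

open scoped Classical

noncomputable section

namespace Pool.Agent.Run7.h787.ST

/-- The Stark-Tate conjecture in the form with the units `ε_A`: `WeakZ`, and the fields generated by
the square roots of the units are abelian over `K`. -/
def StarkTateZ {K : Type} [Field K] [NumberField K] [Algebra K ℝ] (w : K →+* ℝ)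
    (H : IntermediateField K ℝ) (S : Finset (HeightOneSpectrum (𝓞 K))) : Prop :=
  ∃ (D : ZData H S) (ε : Gal H → H), VanZ w D ∧
    (∀ g, (deriv (D.Z g) 0).im = 0 ∧ ((ε g : H) : ℝ) = Real.exp (-2 * (deriv (D.Z g) 0).re)) ∧
    (∀ g h : Gal H, h (ε g) = ε (h * g)) ∧ (∀ g, IsU ((ε g : H) : ℝ)) ∧ (∀ g, ArchOne H (ε g)) ∧
    ∀ g, IsAbelianGalois K (ext H (Real.sqrt ((ε g : H) : ℝ)))

/-- All finite abelian extensions `H ⊆ ℝ` of `K` which are unramified outside `S`. -/
def Allowed {K : Type} [Field K] [NumberField K] [Algebra K ℝ]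
    (H : IntermediateField K ℝ) (S : Finset (HeightOneSpectrum (𝓞 K))) : Prop :=
  IsAb H ∧ ∀ p, p ∉ S → Unram H p

namespace B

variable {K : Type} [Field K] [NumberField K] [Algebra K ℝ]

theorem ext_conj {H : IntermediateField K ℝ} (abH : IsAb H) (ε : H) (h0 : 0 < (ε : ℝ))
    (hroot : IsAbelianGalois K (ext H (Real.sqrt (ε : ℝ)))) (g : Gal H) :
    0 < ((g ε : H) : ℝ) ∧ IsAbelianGalois K (ext H (Real.sqrt ((g ε : H) : ℝ))) := by
  have i := pieces
  have hsq : Real.sqrt (ε : ℝ) ^ 2 = (ε : ℝ) := Real.sq_sqrt h0.le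
  have abL : IsAb (ext H (Real.sqrt (ε : ℝ))) := isAb_of_root abH (by rw [hsq]; exact ε.2) hroot
  obtain ⟨R, hR, hRs⟩ := i.res K H _ (le_ext H _) abH abL
  obtain ⟨g', hg'⟩ := hRs g
  set r : ext H (Real.sqrt (ε : ℝ)) := ⟨Real.sqrt (ε : ℝ), mem_ext _ _⟩ with hr
  have h1 : ((g ε : H) : ℝ) = ((g' r : ext H (Real.sqrt (ε : ℝ))) : ℝ) ^ 2 := by
    have h2 := hR g' ε (r ^ 2) hsq.symm
    rw [hg', map_pow] at h2
    rw [h2]
    rfl
  have h3 : g' r ≠ 0 := by
    intro h
    have h4 : r = 0 := by simpa using h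
    have h5 : Real.sqrt (ε : ℝ) = 0 := congrArg Subtype.val h4
    rw [h5] at hsq
    rw [← hsq] at h0
    simp at h0
  have h4 : ((g' r : ext H (Real.sqrt (ε : ℝ))) : ℝ) ≠ 0 := fun h => h3 (Subtype.ext h)
  refine ⟨by rw [h1]; positivity, ?_⟩
  refine sub_ab (ext_le (le_ext H _) ?_) abL
  rw [h1, Real.sqrt_sq_eq_abs]
  rcases abs_choice ((g' r : ext H (Real.sqrt (ε : ℝ))) : ℝ) with h | h
  · rw [h]; exact (g' r).2
  · rw [h]; exact neg_mem (g' r).2

theorem starkTate_iff {w : K →+* ℝ} {H : IntermediateField K ℝ}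
    (hH : IsAb H) {S : Finset (HeightOneSpectrum (𝓞 K))} :
    StarkZ w H S ↔ StarkTateZ w H S := by
  constructor
  · rintro ⟨D, ε, hV, h0, hU, hA, hs, hroot⟩
    refine ⟨D, fun g => g ε, hV, fun g => ?_, fun g g' => rfl,
      fun g => isU_gal g ε hU, fun g => archOne_gal g ε hA, fun g => (ext_conj hH ε h0 hroot g).2⟩
    have hpos := (ext_conj hH ε h0 hroot g).1
    have h2 : deriv (D.Z g) 0 = ((-(1 / 2) * Real.log |((g ε : H) : ℝ)| : ℝ) : ℂ) := by
      push_cast
      rw [hs g]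
      ring
    rw [h2, Complex.ofReal_im, Complex.ofReal_re]
    refine ⟨rfl, ?_⟩
    have h3 : -2 * (-(1 / 2) * Real.log |((g ε : H) : ℝ)|) = Real.log |((g ε : H) : ℝ)| := by ring
    rw [h3, abs_of_pos hpos, Real.exp_log hpos]
  · rintro ⟨D, ε, hV, hexp, hgal, hU, hA, hroot⟩
    have hpos : ∀ g : Gal H, ((g (ε 1) : H) : ℝ) = Real.exp (-2 * (deriv (D.Z g) 0).re) := by
      intro g
      rw [hgal, mul_one]
      exact (hexp g).2
    refine ⟨D, ε 1, hV, ?_, hU 1, hA 1, fun g => ?_, hroot 1⟩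
    · rw [(hexp 1).2]
      exact Real.exp_pos _
    · rw [hpos g, abs_of_pos (Real.exp_pos _), Real.log_exp]
      apply Complex.ext
      · simp
      · simp [(hexp g).1]

/-- One step, the form with the root condition. -/
theorem strong_one (iZL : S_ZL) (iLZ : S_LZ) {w : K →+* ℝ} (hw : w ≠ algebraMap K ℝ)
    {S B : Finset (HeightOneSpectrum (𝓞 K))} (hSne : S.Nonempty)
    (hW : ∀ q, q ∉ S → q ∉ B → ∀ H' : IntermediateField K ℝ, Allowed H' (insert q S) →
      StarkZ w H' (insert q S))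
    {H : IntermediateField K ℝ} (hH : Allowed H S) (hQ : HasQuad2 H S) : StarkZ w H S :=
  (stark_iff iZL iLZ hH.1).1 (strong_step pieces (by norm_num) hw hSne
    (fun q hq hqB H' abH' unH' => (stark_iff iZL iLZ abH').2 (hW q hq hqB H' ⟨abH', unH'⟩))
    hH.1 hH.2 hQ)

/-- One step, the form without the root condition. -/
theorem weak_one (iZL : S_ZL) (iLZ : S_LZ) {w : K →+* ℝ} (hw : w ≠ algebraMap K ℝ)
    {S B : Finset (HeightOneSpectrum (𝓞 K))} (hSne : S.Nonempty)
    (hW : ∀ q, q ∉ S → q ∉ B → ∀ H' : IntermediateField K ℝ, Allowed H' (insert q S) →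
      WeakZ w H' (insert q S))
    {H : IntermediateField K ℝ} (hH : Allowed H S) (hQ : HasQuad H S) : WeakZ w H S :=
  (weak_iff iZL iLZ hH.1).1 (weak_step pieces (by norm_num) hw hSne
    (fun q hq hqB H' abH' unH' => (weak_iff iZL iLZ abH').2 (hW q hq hqB H' ⟨abH', unH'⟩))
    hH.1 hH.2 hQ)

theorem quad2 {S : Finset (HeightOneSpectrum (𝓞 K))} (hS : Over2 S) {H : IntermediateField K ℝ}
    (hH : Allowed H S) : HasQuad2 H S := exists_quad2 pieces hH.1 hS hH.2

theorem quad1 {S : Finset (HeightOneSpectrum (𝓞 K))} (hS : Over2 S) {H : IntermediateField K ℝ}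
    (hH : Allowed H S) : HasQuad H S := exists_quad pieces hH.1 hS hH.2

end B

end Pool.Agent.Run7.h787.ST
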