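import Pool.Agent.Run7.h787.ST.Final2

/-!
# Stark's conjecture, removal of primes: the theorems for the results files
-/

set_option autoImplicit false
set_option linter.unusedSectionVars false

open NumberField IsDedekindDomain

open scoped Classical

noncomputable section

namespace Pool.Agent.Run7.h787.ST.B

variable {K : Type} [Field K] [NumberField K] [Algebra K ℝ]

theorem final_strong (iZL : S_ZL) (iLZ : S_LZ) (w : K →+* ℝ) (hw : w ≠ algebraMap K ℝ) :
    (∀ S B : Finset (HeightOneSpectrum (𝓞 K)), S.Nonempty →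
      (∀ q, q ∉ S → q ∉ B → ∀ H' : IntermediateField K ℝ, Allowed H' (insert q S) →
        StarkZ w H' (insert q S)) →
      ∀ H : IntermediateField K ℝ, Allowed H S → (Over2 S ∨ HasQuad2 H S) → StarkZ w H S) ∧
    (∀ t : ℕ, (∀ S : Finset (HeightOneSpectrum (𝓞 K)), Over2 S → t ≤ S.card →
        ∀ H : IntermediateField K ℝ, Allowed H S → StarkZ w H S) →
      ∀ S : Finset (HeightOneSpectrum (𝓞 K)), Over2 S →
        ∀ H : IntermediateField K ℝ, Allowed H S → StarkZ w H S) := by
  have one : ∀ S B : Finset (HeightOneSpectrum (𝓞 K)), S.Nonempty →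
      (∀ q, q ∉ S → q ∉ B → ∀ H' : IntermediateField K ℝ, Allowed H' (insert q S) →
        StarkZ w H' (insert q S)) →
      ∀ H : IntermediateField K ℝ, Allowed H S → (Over2 S ∨ HasQuad2 H S) → StarkZ w H S := by
    intro S B hS hW H hH hor
    refine strong_one iZL iLZ hw hS hW hH ?_
    rcases hor with h | h
    · exact quad2 h hH
    · exact h
  refine ⟨one, fun t h0 => ?_⟩
  refine descend (P := fun S => ∀ H : IntermediateField K ℝ, Allowed H S → StarkZ w H S)
    (fun S hS hq H hH => ?_) t h0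
  exact one S ∅ (nonempty_of_over2 hS) (fun q hqS _ H' hH' => hq q hqS H' hH') H hH (Or.inl hS)

theorem final_tate (iZL : S_ZL) (iLZ : S_LZ) (w : K →+* ℝ) (hw : w ≠ algebraMap K ℝ) :
    (∀ S B : Finset (HeightOneSpectrum (𝓞 K)), S.Nonempty →
      (∀ q, q ∉ S → q ∉ B → ∀ H' : IntermediateField K ℝ, Allowed H' (insert q S) →
        StarkTateZ w H' (insert q S)) →
      ∀ H : IntermediateField K ℝ, Allowed H S → (Over2 S ∨ HasQuad2 H S) → StarkTateZ w H S) ∧
    (∀ t : ℕ, (∀ S : Finset (HeightOneSpectrum (𝓞 K)), Over2 S → t ≤ S.card →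
        ∀ H : IntermediateField K ℝ, Allowed H S → StarkTateZ w H S) →
      ∀ S : Finset (HeightOneSpectrum (𝓞 K)), Over2 S →
        ∀ H : IntermediateField K ℝ, Allowed H S → StarkTateZ w H S) := by
  obtain ⟨h1, h2⟩ := final_strong iZL iLZ w hw
  refine ⟨fun S B hS hW H hH hor => (starkTate_iff hH.1).1 (h1 S B hS (fun q hq hqB H' hH' =>
    (starkTate_iff hH'.1).2 (hW q hq hqB H' hH')) H hH hor), fun t h0 S hS H hH =>
    (starkTate_iff hH.1).1 (h2 t (fun S' hS' ht H' hH' =>
      (starkTate_iff hH'.1).2 (h0 S' hS' ht H' hH')) S hS H hH)⟩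

theorem final_weak (iZL : S_ZL) (iLZ : S_LZ) (w : K →+* ℝ) (hw : w ≠ algebraMap K ℝ) :
    (∀ S B : Finset (HeightOneSpectrum (𝓞 K)), S.Nonempty →
      (∀ q, q ∉ S → q ∉ B → ∀ H' : IntermediateField K ℝ, Allowed H' (insert q S) →
        WeakZ w H' (insert q S)) →
      ∀ H : IntermediateField K ℝ, Allowed H S → (Over2 S ∨ HasQuad H S) → WeakZ w H S) ∧
    (∀ t : ℕ, (∀ S : Finset (HeightOneSpectrum (𝓞 K)), Over2 S → t ≤ S.card →
        ∀ H : IntermediateField K ℝ, Allowed H S → WeakZ w H S) →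
      ∀ S : Finset (HeightOneSpectrum (𝓞 K)), Over2 S →
        ∀ H : IntermediateField K ℝ, Allowed H S → WeakZ w H S) := by
  have one : ∀ S B : Finset (HeightOneSpectrum (𝓞 K)), S.Nonempty →
      (∀ q, q ∉ S → q ∉ B → ∀ H' : IntermediateField K ℝ, Allowed H' (insert q S) →
        WeakZ w H' (insert q S)) →
      ∀ H : IntermediateField K ℝ, Allowed H S → (Over2 S ∨ HasQuad H S) → WeakZ w H S := by
    intro S B hS hW H hH hor
    refine weak_one iZL iLZ hw hS hW hH ?_
    rcases hor with h | h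
    · exact quad1 h hH
    · exact h
  refine ⟨one, fun t h0 => ?_⟩
  refine descend (P := fun S => ∀ H : IntermediateField K ℝ, Allowed H S → WeakZ w H S)
    (fun S hS hq H hH => ?_) t h0
  exact one S ∅ (nonempty_of_over2 hS) (fun q hqS _ H' hH' => hq q hqS H' hH') H hH (Or.inl hS)

end Pool.Agent.Run7.h787.ST.B
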