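import Pool.Agent.Run7.h787.ST.Main3

/-!
# Stark's conjecture, removal of primes: the steps with a minimal set of fields
-/

set_option autoImplicit false
set_option linter.unusedSectionVars false
set_option linter.style.haveILetI false

open NumberField IsDedekindDomain

open scoped Classical

noncomputable section

namespace Pool.Agent.Run7.h787.ST.B

variable {K : Type} [Field K] [NumberField K] [Algebra K ℝ]

/-- The descent of the conjecture without the root condition. -/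
theorem weak_step4 (i : Pieces2) {κ : ℝ} (hκ : κ ≠ 0) {w : K →+* ℝ} (hw : w ≠ algebraMap K ℝ)
    {S B : Finset (HeightOneSpectrum (𝓞 K))} (hSne : S.Nonempty)
    {H : IntermediateField K ℝ} (abH : IsAb H) (unH : ∀ p, p ∉ S → Unram H p)
    {a : ℝ} (ha : a ∉ H) (ha2 : a ^ 2 ∈ H) (abH' : IsAb (ext H a))
    (unH' : ∀ p, p ∉ S → Unram (ext H a) p)
    (hW : ∀ q, q ∉ S → q ∉ B → (∃ D' : LData H (insert q S), VanP w D') ∧
      WeakC w κ (ext H a) (insert q S)) : WeakC w κ H S := by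
  obtain ⟨T, hT, hTa⟩ := exists_T i ha ha2 abH'
  obtain ⟨D, hV⟩ := i.desc K w H S B abH hSne unH fun q hq hqB => (hW q hq hqB).1
  obtain ⟨D', hV'⟩ := i.desc K w (ext H a) S B abH' hSne unH' fun q hq hqB => by
    obtain ⟨D', _, hV', _⟩ := (hW q hq hqB).2
    exact ⟨D', hV'⟩
  obtain ⟨b, x, hy, hypos, hx⟩ := weak_core i hκ hw abH' unH' hV'
    (fun q hq hqB => (hW q hq hqB).2)
  obtain ⟨hmem, hnorm⟩ := norm_desc i (κ := κ / 2) abH unH abH' ha ha2 D D' T hT hTa
  obtain ⟨R, hR, hRs⟩ := i.res K H (ext H a) (le_ext H a) abH abH'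
  set m : H := ⟨_, hmem x⟩ with hm
  set u : H := algebraMap K H b * m with hu
  have hTb : T (algebraMap K (ext H a) b) = algebraMap K (ext H a) b := T.commutes b
  have hN : ((u ^ 2 : H) : ℝ) = (((algebraMap K (ext H a) b * x ^ 2) *
      T (algebraMap K (ext H a) b * x ^ 2) : ext H a) : ℝ) := by
    rw [map_mul, hTb, map_pow]
    change (algebraMap K ℝ b * ((x : ℝ) * ((T x : ext H a) : ℝ))) ^ 2 =
      (algebraMap K ℝ b * (x : ℝ) ^ 2) * (algebraMap K ℝ b * ((T x : ext H a) : ℝ) ^ 2)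
    ring
  obtain ⟨hLN, hNpos⟩ := hnorm _ hy hypos (u ^ 2) hN
  obtain ⟨u', hu', hLU⟩ := logUnit_abs u hLN
  have hb : 0 < algebraMap K ℝ b := by
    have h1 : 0 < algebraMap K ℝ b * (x : ℝ) ^ 2 := hypos 1
    have h2 : 0 ≤ (x : ℝ) ^ 2 := sq_nonneg _
    by_contra h
    push Not at h
    nlinarith [mul_nonneg (neg_nonneg.2 h) h2]
  have hupos : ∀ g : Gal H, 0 < ((g u : H) : ℝ) := by
    intro g
    obtain ⟨g', hg'⟩ := hRs g
    have h1 : ((g u : H) : ℝ) = algebraMap K ℝ b * ((g m : H) : ℝ) := by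
      rw [hu, map_mul, AlgEquiv.commutes]
      rfl
    have h2 : ((g m : H) : ℝ) = ((g' (x * T x) : ext H a) : ℝ) := by
      rw [← hg']
      exact hR g' m (x * T x) rfl
    rw [h1, h2, map_mul]
    refine mul_pos hb ?_
    change 0 < ((g' x : ext H a) : ℝ) * ((g' (T x) : ext H a) : ℝ)
    have h3 := hx g'
    have h4 : 0 < (((g' * T) x : ext H a) : ℝ) * (x : ℝ) := hx (g' * T)
    change 0 < ((g' (T x) : ext H a) : ℝ) * (x : ℝ) at h4
    have h5 : 0 < (((g' x : ext H a) : ℝ) * ((g' (T x) : ext H a) : ℝ)) * (x : ℝ) ^ 2 := by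
      have := mul_pos h3 h4
      nlinarith [this]
    have h6 : 0 ≤ (x : ℝ) ^ 2 := sq_nonneg _
    by_contra h
    push Not at h
    nlinarith [mul_nonneg (neg_nonneg.2 h) h6]
  have huu : u' = u := by
    rcases hu' with h | h
    · exact h
    · exfalso
      have h1 := hLU.1
      have h2 : 0 < (u : ℝ) := hupos 1
      rw [h] at h1
      change 0 < -(u : ℝ) at h1
      linarith
  exact ⟨D, u, hV, huu ▸ hLU, hupos⟩

/-- The descent of the conjecture with the root condition. -/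
theorem strong_step4 (i : Pieces2) {κ : ℝ} (hκ : κ ≠ 0) {w : K →+* ℝ} (hw : w ≠ algebraMap K ℝ)
    {S B : Finset (HeightOneSpectrum (𝓞 K))} (hSne : S.Nonempty)
    {H : IntermediateField K ℝ} (abH : IsAb H) (unH : ∀ p, p ∉ S → Unram H p)
    {a b : ℝ} (ha : a ∉ H) (ha2 : a ^ 2 ∈ H) (abH' : IsAb (ext H a))
    (unH' : ∀ p, p ∉ S → Unram (ext H a) p)
    (hb : b ∉ ext H a) (hb2 : b ^ 2 ∈ ext H a) (abH'' : IsAb (ext (ext H a) b))
    (unH'' : ∀ p, p ∉ S → Unram (ext (ext H a) b) p)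
    (hW : ∀ q, q ∉ S → q ∉ B → StarkC w κ H (insert q S) ∧ StarkC w κ (ext H a) (insert q S) ∧
      StarkC w κ (ext (ext H a) b) (insert q S)) : StarkC w κ H S := by
  obtain ⟨T, hT, hTa⟩ := exists_T i ha ha2 abH'
  obtain ⟨D, hV⟩ : ∃ D : LData H S, VanP w D := by
    refine i.desc K w H S B abH hSne unH fun q hq hqB => ?_
    obtain ⟨D', _, hV', _⟩ := (hW q hq hqB).1
    exact ⟨D', hV'⟩
  obtain ⟨D', u, hV', hu, hupos⟩ := weak_step4 i hκ hw hSne abH' unH' hb hb2 abH'' unH''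
    fun q hq hqB => by
      obtain ⟨h1, h2, h3⟩ := hW q hq hqB
      obtain ⟨D', _, hV', _⟩ := h2
      exact ⟨⟨D', hV'⟩, weak_of_stark i abH'' h3⟩
  obtain ⟨hmem, hnorm⟩ := norm_desc i (κ := κ) abH unH abH' ha ha2 D D' T hT hTa
  obtain ⟨hLN, hNpos⟩ := hnorm u hu hupos ⟨_, hmem u⟩ rfl
  refine ⟨D, ⟨_, hmem u⟩, hV, hLN, ?_⟩
  obtain ⟨q, hq, hqB, hF⟩ := i.cheb K (ext H a) S B D' T⁻¹ abH' unH'
  obtain ⟨D'', e, hV'', he, hroot⟩ := (hW q hq hqB).2.1
  have h1 := quot_rel i abH' unH' hV' hq hu hupos he T hF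
  have h2 : Real.log (e : ℝ) = Real.log (u : ℝ) - Real.log ((T u : ext H a) : ℝ) :=
    mul_left_cancel₀ hκ h1
  have hu1 : 0 < (u : ℝ) := hu.1
  have he1 : 0 < (e : ℝ) := he.1
  have hTu : 0 < ((T u : ext H a) : ℝ) := hupos T
  have h3 : (e : ℝ) * ((T u : ext H a) : ℝ) = (u : ℝ) := by
    have h4 : Real.log ((e : ℝ) * ((T u : ext H a) : ℝ)) = Real.log (u : ℝ) := by
      rw [Real.log_mul he1.ne' hTu.ne']
      linarith
    exact Real.log_injOn_pos (Set.mem_Ioi.2 (by positivity)) (Set.mem_Ioi.2 hu1) h4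
  have hsqe : Real.sqrt (e : ℝ) ^ 2 = (e : ℝ) := Real.sq_sqrt he.1.le
  have abL : IsAb (ext (ext H a) (Real.sqrt (e : ℝ))) :=
    isAb_of_root abH' (by rw [hsqe]; exact e.2) hroot
  have hsqe0 : 0 < Real.sqrt (e : ℝ) := Real.sqrt_pos.2 he1
  have h5 : Real.sqrt ((u : ℝ) * ((T u : ext H a) : ℝ)) = (u : ℝ) / Real.sqrt (e : ℝ) := by
    rw [Real.sqrt_eq_iff_mul_self_eq (by positivity) (by positivity)]
    field_simp
    rw [hsqe]
    rw [← h3]
    ring
  have h6 : ext H (Real.sqrt (((⟨_, hmem u⟩ : H) : ℝ))) ≤ ext (ext H a) (Real.sqrt (e : ℝ)) := by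
    refine ext_le ((le_ext H a).trans (le_ext _ _)) ?_
    have h7 : (((⟨_, hmem u⟩ : H) : ℝ)) = (u : ℝ) * ((T u : ext H a) : ℝ) := rfl
    rw [h7, h5]
    exact IntermediateField.div_mem _ (le_ext _ _ u.2) (mem_ext _ _)
  exact sub_ab h6 abL


theorem cy_nonneg (m : ℕ) : 0 ≤ cy m := by
  cases m with
  | zero => exact le_refl _
  | succ m => exact Real.sqrt_nonneg _

theorem cy_sq (n : ℕ) : cy (n + 1) ^ 2 = 2 + cy n := by
  change Real.sqrt (2 + cy n) ^ 2 = _
  exact Real.sq_sqrt (by linarith [cy_nonneg n])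

theorem cy_mem {H : IntermediateField K ℝ} {n : ℕ} (h : cy n ∈ H) : ∀ m, m ≤ n → cy m ∈ H := by
  induction n with
  | zero =>
    intro m hm
    have : m = 0 := by omega
    rw [this]; exact h
  | succ n ih =>
    intro m hm
    have h1 : cy n ∈ H := by
      have h2 : cy n = cy (n + 1) ^ 2 - 2 := by rw [cy_sq]; ring
      rw [h2]
      exact H.sub_mem (H.pow_mem h 2) (by exact_mod_cast H.natCast_mem 2)
    rcases Nat.lt_or_ge m (n + 1) with h3 | h3
    · exact ih h1 m (by omega)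
    · have : m = n + 1 := by omega
      rw [this]; exact h

theorem cy_sq_mem {H : IntermediateField K ℝ} {n : ℕ} (h : cy n ∈ H) : cy (n + 1) ^ 2 ∈ H := by
  rw [cy_sq]
  exact H.add_mem (by exact_mod_cast H.natCast_mem 2) h

/-- The layers: above `ext H (cy n)` there is a quadratic extension which is a layer. -/
theorem next_layer (i : Pieces2) {H : IntermediateField K ℝ} (abH : IsAb H)
    {S : Finset (HeightOneSpectrum (𝓞 K))}
    (hS2 : ∀ p : HeightOneSpectrum (𝓞 K), (2 : 𝓞 K) ∈ p.asIdeal → p ∈ S)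
    (unH : ∀ p, p ∉ S → Unram H p) (n : ℕ) (abn : IsAb (ext H (cy n)))
    (unn : ∀ p, p ∉ S → Unram (ext H (cy n)) p) :
    ∃ m, cy m ∉ ext H (cy n) ∧ cy m ^ 2 ∈ ext H (cy n) ∧
      ext (ext H (cy n)) (cy m) = ext H (cy m) ∧ IsAb (ext H (cy m)) ∧
      ∀ p, p ∉ S → Unram (ext H (cy m)) p := by
  obtain ⟨m, hm, hm1⟩ := i.cyn K (ext H (cy n)) abn.1
  have hnm : n ≤ m + 1 := by
    by_contra h
    exact hm1 (cy_mem (mem_ext H (cy n)) (m + 1) (by omega))
  have hle : ext (ext H (cy n)) (cy (m + 1)) = ext H (cy (m + 1)) := by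
    apply le_antisymm
    · refine ext_le (ext_le (le_ext _ _) ?_) (mem_ext _ _)
      exact cy_mem (mem_ext H (cy (m + 1))) n hnm
    · exact ext_le ((le_ext H (cy n)).trans (le_ext _ _)) (mem_ext _ _)
  have ab : IsAb (ext (ext H (cy n)) (cy (m + 1))) := (i.sup K).1 _ _ abn (i.cya K (m + 1))
  refine ⟨m + 1, hm1, cy_sq_mem hm, hle, hle ▸ ab, fun p hp => ?_⟩
  have := i.cyu K (ext H (cy n)) m p abn ab hm (fun h => hp (hS2 p h)) (unn p hp)
  exact hle ▸ this

theorem layer_allowed (i : Pieces2) {H : IntermediateField K ℝ} (abH : IsAb H)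
    {S : Finset (HeightOneSpectrum (𝓞 K))}
    (hS2 : ∀ p : HeightOneSpectrum (𝓞 K), (2 : 𝓞 K) ∈ p.asIdeal → p ∈ S)
    (unH : ∀ p, p ∉ S → Unram H p) (n : ℕ) : IsAb (ext H (cy n)) ∧
      ∀ p, p ∉ S → Unram (ext H (cy n)) p := by
  induction n with
  | zero =>
    have h1 : ext H (cy 0) = H := by
      apply le_antisymm
      · exact ext_le le_rfl H.zero_mem
      · exact le_ext _ _
    rw [h1]
    exact ⟨abH, unH⟩
  | succ n ih =>
    have hle : ext (ext H (cy n)) (cy (n + 1)) = ext H (cy (n + 1)) := by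
      apply le_antisymm
      · refine ext_le (ext_le (le_ext _ _) ?_) (mem_ext _ _)
        exact cy_mem (mem_ext H (cy (n + 1))) n (by omega)
      · exact ext_le ((le_ext H (cy n)).trans (le_ext _ _)) (mem_ext _ _)
    have ab : IsAb (ext (ext H (cy n)) (cy (n + 1))) := (i.sup K).1 _ _ ih.1 (i.cya K (n + 1))
    refine ⟨hle ▸ ab, fun p hp => ?_⟩
    have := i.cyu K (ext H (cy n)) n p ih.1 ab (mem_ext _ _) (fun h => hp (hS2 p h)) (ih.2 p hp)
    exact hle ▸ this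

end Pool.Agent.Run7.h787.ST.B
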