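import Pool.Agent.Run7.h787.ST.Final3
import Pool.Agent.Run7.h787.ST.Main4

/-!
# Stark's conjecture, removal of primes: the theorems for the results files
-/

set_option autoImplicit false
set_option linter.unusedSectionVars false

open NumberField IsDedekindDomain

open scoped Classical

noncomputable section

namespace Pool.Agent.Run7.h787.ST.B

variable {K : Type} [Field K] [NumberField K] [Algebra K ℝ]

theorem ext_cy_zero (H : IntermediateField K ℝ) : ext H (cy 0) = H := by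
  apply le_antisymm
  · exact ext_le le_rfl H.zero_mem
  · exact le_ext _ _

theorem allowed_layer {S : Finset (HeightOneSpectrum (𝓞 K))} (hS : Over2 S)
    {H : IntermediateField K ℝ} (hH : Allowed H S) (n : ℕ) : Allowed (ext H (cy n)) S :=
  layer_allowed pieces hH.1 hS hH.2 n

theorem allowed_mono {S S' : Finset (HeightOneSpectrum (𝓞 K))} (h : S ⊆ S')
    {H : IntermediateField K ℝ} (hH : Allowed H S) : Allowed H S' :=
  ⟨hH.1, fun p hp => hH.2 p fun h' => hp (h h')⟩

/-- Generic induction for a fixed tower. -/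
theorem descend_tower {P : Finset (HeightOneSpectrum (𝓞 K)) → Prop}
    {S B : Finset (HeightOneSpectrum (𝓞 K))}
    (hstep : ∀ S', S ⊆ S' → (∀ q, q ∉ S' → q ∉ B → P (insert q S')) → P S') (r : ℕ)
    (h0 : ∀ R, Disjoint R (S ∪ B) → R.card = r → P (S ∪ R)) : P S := by
  have key : ∀ n : ℕ, ∀ R, Disjoint R (S ∪ B) → R.card + n = r → P (S ∪ R) := by
    intro n
    induction n with
    | zero => intro R hR hr; exact h0 R hR (by omega)
    | succ n ih =>
      intro R hR hr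
      refine hstep (S ∪ R) Finset.subset_union_left fun q hq hqB => ?_
      have hq' := Finset.notMem_union.1 hq
      have h1 : insert q (S ∪ R) = S ∪ insert q R := by
        ext x
        simp only [Finset.mem_insert, Finset.mem_union]
        tauto
      rw [h1]
      refine ih (insert q R) ?_ ?_
      · rw [Finset.disjoint_insert_left]
        exact ⟨fun h => (Finset.mem_union.1 h).elim hq'.1 hqB, hR⟩
      · rw [Finset.card_insert_of_notMem hq'.2]
        omega
  have := key r ∅ (Finset.disjoint_empty_left _) (by simp)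
  rwa [Finset.union_empty] at this

theorem one4 (iZL : S_ZL) (iLZ : S_LZ) (w : K →+* ℝ) (hw : w ≠ algebraMap K ℝ) :
    ∀ (S B : Finset (HeightOneSpectrum (𝓞 K))) (H : IntermediateField K ℝ) (a b : ℝ),
      S.Nonempty → Allowed H S → a ∉ H → a ^ 2 ∈ H → Allowed (ext H a) S →
      b ∉ ext H a → b ^ 2 ∈ ext H a → Allowed (ext (ext H a) b) S →
      (∀ q, q ∉ S → q ∉ B → StarkZ w H (insert q S) ∧ StarkZ w (ext H a) (insert q S) ∧
        StarkZ w (ext (ext H a) b) (insert q S)) → StarkZ w H S := by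
  intro S B H a b hSne hH ha ha2 hHa hb hb2 hHab hW
  exact (stark_iff iZL iLZ hH.1).1 (strong_step4 pieces (by norm_num) hw hSne hH.1 hH.2 ha ha2
    hHa.1 hHa.2 hb hb2 hHab.1 hHab.2 fun q hq hqB =>
      ⟨(stark_iff iZL iLZ hH.1).2 (hW q hq hqB).1, (stark_iff iZL iLZ hHa.1).2 (hW q hq hqB).2.1,
        (stark_iff iZL iLZ hHab.1).2 (hW q hq hqB).2.2⟩)

theorem tower4 (iZL : S_ZL) (iLZ : S_LZ) (w : K →+* ℝ) (hw : w ≠ algebraMap K ℝ) :
    ∀ (S B : Finset (HeightOneSpectrum (𝓞 K))) (H : IntermediateField K ℝ) (r : ℕ), Over2 S →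
      Allowed H S → (∀ R : Finset (HeightOneSpectrum (𝓞 K)), Disjoint R (S ∪ B) → R.card = r →
        ∀ n, StarkZ w (ext H (cy n)) (S ∪ R)) → StarkZ w H S ∧ ∀ n, StarkZ w (ext H (cy n)) S := by
  intro S B H r hS hH hW
  have key : ∀ n, StarkZ w (ext H (cy n)) S := by
    refine descend_tower (P := fun S' => ∀ n, StarkZ w (ext H (cy n)) S') (S := S) (B := B)
      (fun S' hSS' hq n => ?_) r hW
    have hS' : Over2 S' := fun p hp => hSS' (hS p hp)
    have hH' : Allowed H S' := allowed_mono hSS' hH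
    have hn := allowed_layer hS' hH' n
    obtain ⟨m, hm, hm2, hme, hmab, hmun⟩ := next_layer pieces hH'.1 hS' hH'.2 n hn.1 hn.2
    have hma : Allowed (ext H (cy m)) S' := ⟨hmab, hmun⟩
    obtain ⟨k, hk, hk2, hke, hkab, hkun⟩ := next_layer pieces hH'.1 hS' hH'.2 m hma.1 hma.2
    have hka : Allowed (ext H (cy k)) S' := ⟨hkab, hkun⟩
    refine one4 iZL iLZ w hw S' B (ext H (cy n)) (cy m) (cy k) (nonempty_of_over2 hS') hn hm hm2
      (hme ▸ hma) (hme ▸ hk) (hme ▸ hk2) ?_ fun q hqS hqB => ?_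
    · rw [hme, hke]; exact hka
    · rw [hme, hke]
      exact ⟨hq q hqS hqB n, hq q hqS hqB m, hq q hqS hqB k⟩
  refine ⟨?_, key⟩
  have := key 0
  rwa [ext_cy_zero] at this

theorem all4 (iZL : S_ZL) (iLZ : S_LZ) (w : K →+* ℝ) (hw : w ≠ algebraMap K ℝ) :
    ∀ t : ℕ, (∀ S : Finset (HeightOneSpectrum (𝓞 K)), Over2 S → t ≤ S.card →
        ∀ H : IntermediateField K ℝ, Allowed H S → StarkZ w H S) →
      ∀ S : Finset (HeightOneSpectrum (𝓞 K)), Over2 S →
        ∀ H : IntermediateField K ℝ, Allowed H S → StarkZ w H S := by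
  intro t h0 S hS H hH
  refine (tower4 iZL iLZ w hw S ∅ H t hS hH fun R hR hr n => ?_).1
  have hR' : Disjoint R S := by simpa using hR
  refine h0 (S ∪ R) (fun p hp => Finset.mem_union_left _ (hS p hp)) ?_ _
    (allowed_mono Finset.subset_union_left (allowed_layer hS hH n))
  rw [Finset.card_union_of_disjoint hR'.symm]
  omega

theorem oneT4 (iZL : S_ZL) (iLZ : S_LZ) (w : K →+* ℝ) (hw : w ≠ algebraMap K ℝ) :
    ∀ (S B : Finset (HeightOneSpectrum (𝓞 K))) (H : IntermediateField K ℝ) (a b : ℝ),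
      S.Nonempty → Allowed H S → a ∉ H → a ^ 2 ∈ H → Allowed (ext H a) S →
      b ∉ ext H a → b ^ 2 ∈ ext H a → Allowed (ext (ext H a) b) S →
      (∀ q, q ∉ S → q ∉ B → StarkTateZ w H (insert q S) ∧ StarkTateZ w (ext H a) (insert q S) ∧
        StarkTateZ w (ext (ext H a) b) (insert q S)) → StarkTateZ w H S := by
  intro S B H a b hSne hH ha ha2 hHa hb hb2 hHab hW
  exact (starkTate_iff hH.1).1 (one4 iZL iLZ w hw S B H a b hSne hH ha ha2 hHa hb hb2 hHab
    fun q hq hqB => ⟨(starkTate_iff hH.1).2 (hW q hq hqB).1,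
      (starkTate_iff hHa.1).2 (hW q hq hqB).2.1, (starkTate_iff hHab.1).2 (hW q hq hqB).2.2⟩)

theorem towerT4 (iZL : S_ZL) (iLZ : S_LZ) (w : K →+* ℝ) (hw : w ≠ algebraMap K ℝ) :
    ∀ (S B : Finset (HeightOneSpectrum (𝓞 K))) (H : IntermediateField K ℝ) (r : ℕ), Over2 S →
      Allowed H S → (∀ R : Finset (HeightOneSpectrum (𝓞 K)), Disjoint R (S ∪ B) → R.card = r →
        ∀ n, StarkTateZ w (ext H (cy n)) (S ∪ R)) →
      StarkTateZ w H S ∧ ∀ n, StarkTateZ w (ext H (cy n)) S := by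
  intro S B H r hS hH hW
  obtain ⟨h1, h2⟩ := tower4 iZL iLZ w hw S B H r hS hH fun R hR hr n =>
    (starkTate_iff (allowed_layer hS hH n).1).2 (hW R hR hr n)
  exact ⟨(starkTate_iff hH.1).1 h1, fun n => (starkTate_iff (allowed_layer hS hH n).1).1 (h2 n)⟩

theorem allT4 (iZL : S_ZL) (iLZ : S_LZ) (w : K →+* ℝ) (hw : w ≠ algebraMap K ℝ) :
    ∀ t : ℕ, (∀ S : Finset (HeightOneSpectrum (𝓞 K)), Over2 S → t ≤ S.card →
        ∀ H : IntermediateField K ℝ, Allowed H S → StarkTateZ w H S) →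
      ∀ S : Finset (HeightOneSpectrum (𝓞 K)), Over2 S →
        ∀ H : IntermediateField K ℝ, Allowed H S → StarkTateZ w H S := by
  intro t h0 S hS H hH
  exact (starkTate_iff hH.1).1 (all4 iZL iLZ w hw t (fun S' hS' ht H' hH' =>
    (starkTate_iff hH'.1).2 (h0 S' hS' ht H' hH')) S hS H hH)

theorem oneW4 (iZL : S_ZL) (iLZ : S_LZ) (w : K →+* ℝ) (hw : w ≠ algebraMap K ℝ) :
    ∀ (S B : Finset (HeightOneSpectrum (𝓞 K))) (H : IntermediateField K ℝ) (a : ℝ),
      S.Nonempty → Allowed H S → a ∉ H → a ^ 2 ∈ H → Allowed (ext H a) S →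
      (∀ q, q ∉ S → q ∉ B → WeakZ w H (insert q S) ∧ WeakZ w (ext H a) (insert q S)) →
      WeakZ w H S := by
  intro S B H a hSne hH ha ha2 hHa hW
  refine (weak_iff iZL iLZ hH.1).1 (weak_step4 pieces (by norm_num) hw hSne (B := B) hH.1 hH.2 ha
    ha2 hHa.1 hHa.2 fun q hq hqB => ?_)
  obtain ⟨D', _, hV', _⟩ := (weak_iff iZL iLZ hH.1).2 (hW q hq hqB).1
  exact ⟨⟨D', hV'⟩, (weak_iff iZL iLZ hHa.1).2 (hW q hq hqB).2⟩

theorem towerW4 (iZL : S_ZL) (iLZ : S_LZ) (w : K →+* ℝ) (hw : w ≠ algebraMap K ℝ) :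
    ∀ (S B : Finset (HeightOneSpectrum (𝓞 K))) (H : IntermediateField K ℝ) (r : ℕ), Over2 S →
      Allowed H S → (∀ R : Finset (HeightOneSpectrum (𝓞 K)), Disjoint R (S ∪ B) → R.card = r →
        ∀ n, WeakZ w (ext H (cy n)) (S ∪ R)) → WeakZ w H S ∧ ∀ n, WeakZ w (ext H (cy n)) S := by
  intro S B H r hS hH hW
  have key : ∀ n, WeakZ w (ext H (cy n)) S := by
    refine descend_tower (P := fun S' => ∀ n, WeakZ w (ext H (cy n)) S') (S := S) (B := B)
      (fun S' hSS' hq n => ?_) r hW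
    have hS' : Over2 S' := fun p hp => hSS' (hS p hp)
    have hH' : Allowed H S' := allowed_mono hSS' hH
    have hn := allowed_layer hS' hH' n
    obtain ⟨m, hm, hm2, hme, hmab, hmun⟩ := next_layer pieces hH'.1 hS' hH'.2 n hn.1 hn.2
    have hma : Allowed (ext H (cy m)) S' := ⟨hmab, hmun⟩
    refine oneW4 iZL iLZ w hw S' B (ext H (cy n)) (cy m) (nonempty_of_over2 hS') hn hm hm2
      (hme ▸ hma) fun q hqS hqB => ?_
    rw [hme]
    exact ⟨hq q hqS hqB n, hq q hqS hqB m⟩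
  refine ⟨?_, key⟩
  have := key 0
  rwa [ext_cy_zero] at this

theorem allW4 (iZL : S_ZL) (iLZ : S_LZ) (w : K →+* ℝ) (hw : w ≠ algebraMap K ℝ) :
    ∀ t : ℕ, (∀ S : Finset (HeightOneSpectrum (𝓞 K)), Over2 S → t ≤ S.card →
        ∀ H : IntermediateField K ℝ, Allowed H S → WeakZ w H S) →
      ∀ S : Finset (HeightOneSpectrum (𝓞 K)), Over2 S →
        ∀ H : IntermediateField K ℝ, Allowed H S → WeakZ w H S := by
  intro t h0 S hS H hH
  refine (towerW4 iZL iLZ w hw S ∅ H t hS hH fun R hR hr n => ?_).1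
  have hR' : Disjoint R S := by simpa using hR
  refine h0 (S ∪ R) (fun p hp => Finset.mem_union_left _ (hS p hp)) ?_ _
    (allowed_mono Finset.subset_union_left (allowed_layer hS hH n))
  rw [Finset.card_union_of_disjoint hR'.symm]
  omega

end Pool.Agent.Run7.h787.ST.B
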