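import Pool.Agent.Run7.h787.ST.Defs

/-!
# Stark's conjecture: removal of primes from `S`. Interface (closed statements, proofs in the docs)

Theorem `t_XXX : S_XXX` (or `t_XXX : S_YYY → S_XXX`) in `Pool/Agent/Run7/<you>/ST/XXX.lean`.
-/

set_option autoImplicit false

open NumberField IsDedekindDomain

noncomputable section

namespace Pool.Agent.Run7.h787.ST

/-- `r` is the restriction homomorphism from `Gal (L/K)` to `Gal (H/K)`, for `H ≤ L`. -/
def IsRes {K : Type} [Field K] [NumberField K] [Algebra K ℝ] {H L : IntermediateField K ℝ}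
    (r : Gal L →* Gal H) : Prop :=
  ∀ (g : Gal L) (x : H) (y : L), (x : ℝ) = (y : ℝ) → ((r g x : H) : ℝ) = ((g y : L) : ℝ)

/-- GOUP (40 lines). Prime ideals of `𝓞 H` are contractions of primes of the ring of all real
algebraic integers `A = integralClosure ℤ ℝ`: the ring hom `𝓞 H → A` is integral and injective, use
`Ideal.exists_ideal_over_prime_of_isIntegral` (or the version for comap) to get a prime ideal `PA`
of `A` over `Q`, and take `P = {x | ∃ h : IsIntegral ℤ x, ⟨x, h⟩ ∈ PA}`. Second part: the same with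
`𝓞 K → A`. -/
def S_GOUP : Prop :=
  ∀ (K : Type) [Field K] [NumberField K] [Algebra K ℝ],
    (∀ (H : IntermediateField K ℝ), FiniteDimensional K H → ∀ Q : HeightOneSpectrum (𝓞 H),
      ∃ P : Set ℝ, IsRealPrime P ∧ ∀ x : 𝓞 H, (((x : H)) : ℝ) ∈ P ↔ x ∈ Q.asIdeal) ∧
    ∀ p : HeightOneSpectrum (𝓞 K), ∃ P : Set ℝ, Over p P

/-- UNIQ (from GOUP, 30 lines). Take `P` over `p`. For integral `y ∈ H` put `x = g⁻¹ y` (integral);
`(g' g⁻¹) y - y = g' x - g x = (g' x - x ^ N) - (g x - x ^ N) ∈ P` (`-1` is an integer, so `P` is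
closed under subtraction). Hence `g' g⁻¹ = 1`. -/
def S_UNIQ : Prop :=
  ∀ (K : Type) [Field K] [NumberField K] [Algebra K ℝ] (H : IntermediateField K ℝ)
    (p : HeightOneSpectrum (𝓞 K)) (g g' : Gal H),
    Unram H p → IsFrob H p g → IsFrob H p g' → g = g'

/-- RES (40 lines). `AlgEquiv.restrictNormalHom` for the tower `K ⊆ H ⊆ L`, where `L` is an
`H`-algebra by `IntermediateField.inclusion`. -/
def S_RES : Prop :=
  ∀ (K : Type) [Field K] [NumberField K] [Algebra K ℝ] (H L : IntermediateField K ℝ), H ≤ L →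
    IsAb H → IsAb L → ∃ r : Gal L →* Gal H, IsRes r ∧ Function.Surjective r

/-- FIX (40 lines). Galois correspondence for `L / K`: an element of `L` which is fixed by all
automorphisms of `L` which fix `H` pointwise lies in `H`. (`IntermediateField.restrict`, or
`IntermediateField.comap L.val H`, and `IsGalois.fixedField_fixingSubgroup`.) -/
def S_FIX : Prop :=
  ∀ (K : Type) [Field K] [NumberField K] [Algebra K ℝ] (H L : IntermediateField K ℝ), H ≤ L →
    IsAb L → ∀ x : L, (∀ g : Gal L, (∀ y : L, (y : ℝ) ∈ H → g y = y) → g x = x) → (x : ℝ) ∈ H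

/-- SUP (60 lines). The compositum of two finite abelian extensions of `K` is abelian: finite
(`IntermediateField.finiteDimensional_sup`), normal and separable, and two automorphisms of
`H ⊔ H'` commute because they commute on `H` and on `H'` (these are stable under automorphisms, being
normal). Second part: `K(a)` is abelian if `a ^ 2 ∈ K`. -/
def S_SUP : Prop :=
  ∀ (K : Type) [Field K] [NumberField K] [Algebra K ℝ],
    (∀ H H' : IntermediateField K ℝ, IsAb H → IsAb H' → IsAb (H ⊔ H')) ∧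
    ∀ (a : ℝ) (α : K), a ^ 2 = algebraMap K ℝ α → IsAb (IntermediateField.adjoin K {a})

/-- LIFT (50 lines). Some automorphism of `L` over `H` moves `a`, as `a ∉ H` (FIX), and then it maps
`a` to `- a`, as it fixes `a ^ 2`. -/
def S_LIFT : Prop :=
  ∀ (K : Type) [Field K] [NumberField K] [Algebra K ℝ] (H L : IntermediateField K ℝ), H ≤ L →
    IsAb L → ∀ a : L, (a : ℝ) ∉ H → ((a ^ 2 : L) : ℝ) ∈ H →
    ∃ T : Gal L, (∀ y : L, (y : ℝ) ∈ H → T y = y) ∧ T a = - a

/-- CHEB (from GOUP, UNIQ; 60 lines). `Pool.Agent.K3h73.RS.t_CHEB : Pool.Agent.K3h30.RS.S_CHEB`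
for `F = K`, `L = H` (a number field), `Φ = σ` and `bad = S ∪ B` gives a prime ideal `q ∉ S ∪ B` of
`K` and `Q` of `𝓞 H` over `q` with `σ x ≡ x ^ N q` modulo `Q` for all `x ∈ 𝓞 H`. Take the real prime
`P` over `Q` (GOUP), which is over `q`. As `D.frob q` is a Frobenius automorphism at `P` too,
`(D.frob q)⁻¹ σ` acts trivially modulo `P` (compute as in UNIQ), so it is `1`. (Positive proportion
gives at least one prime.) -/
def S_CHEB : Prop :=
  ∀ (K : Type) [Field K] [NumberField K] [Algebra K ℝ] (H : IntermediateField K ℝ)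
    (S B : Finset (HeightOneSpectrum (𝓞 K))) (D : LData H S) (σ : Gal H), IsAb H →
    (∀ p, p ∉ S → Unram H p) → ∃ q, q ∉ S ∧ q ∉ B ∧ D.frob q = σ

/-- UNR (from RES; 70 lines). Let `α t² = a₀ c²` as in `EvenAt`, `P` over `p` and `g` an automorphism
of `H(a)` acting trivially modulo `P`. Its restriction to `H` is trivial. If `g a ≠ a` then
`g a = - a`. Put `β = a t / c`, so `β ^ 2 = a₀`, `β` is integral, and `g β = - β`, hence
`- 2 β ∈ P`, so `2 ∈ P` or `β ∈ P`; the first contradicts `2 ∉ p`, the second `a₀ ∉ p`. So `g` fixes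
`H` and `a`, hence `H(a)`. -/
def S_UNR : Prop :=
  ∀ (K : Type) [Field K] [NumberField K] [Algebra K ℝ] (H : IntermediateField K ℝ) (a : ℝ)
    (α : 𝓞 K) (p : HeightOneSpectrum (𝓞 K)), IsAb H → IsAb (ext H a) →
    a ^ 2 = algebraMap K ℝ (α : K) → EvenAt p α → (2 : 𝓞 K) ∉ p.asIdeal → Unram H p →
    Unram (ext H a) p

/-- VAL (from GOUP; 120 lines). Let `P` be a real prime over `p`, `Q = P ∩ 𝓞 H`, a prime ideal of
`𝓞 H` over `p`. `Unram` says that the inertia group of `Q` is trivial, so the ramification index is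
one (`Ideal.card_inertia_eq_ramificationIdxIn`). With `α t² = π c²` as in `OddAt`: `π` has order one
at `Q`, `t` has order zero. If `u = α y²` is a unit then `u t² = π (c y)²`, and the order at `Q` is
even on the left and odd on the right. -/
def S_VAL : Prop :=
  ∀ (K : Type) [Field K] [NumberField K] [Algebra K ℝ] (H : IntermediateField K ℝ) (α : 𝓞 K)
    (p : HeightOneSpectrum (𝓞 K)), IsAb H → Unram H p → OddAt p α →
    ∀ y : H, ¬ IsU (algebraMap K ℝ (α : K) * (y : ℝ) ^ 2)

open Classical in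
/-- LREL (from UNIQ, GOUP; 100 lines). For `p ∉ insert q S` the restriction of `D'.frob p` to `H` is a
Frobenius automorphism of `H` at `p`, hence equal to `D.frob p` (UNIQ). So for `Re s > 1` the Euler
products give `D'.L (χ ∘ r) s = (1 - χ (D.frob q) (N q)^(-s)) D.L χ s` (the factors are not zero, as
`|χ (D.frob q) (N q)^(-s)| < 1`), and by the identity theorem on the complement of `1` for all
`s ≠ 1`. Differentiate at `0`, where `D.L χ 0 = 0`. -/
def S_LREL : Prop :=
  ∀ (K : Type) [Field K] [NumberField K] [Algebra K ℝ] (H H' : IntermediateField K ℝ) (_ : H ≤ H')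
    (S : Finset (HeightOneSpectrum (𝓞 K))) (q : HeightOneSpectrum (𝓞 K)) (_ : q ∉ S)
    (D : LData H S) (D' : LData H' (insert q S)) (r : Gal H' →* Gal H), IsRes r → IsAb H →
    (∀ p, p ∉ S → Unram H p) → ∀ χ : Gal H →* ℂˣ, D.L χ 0 = 0 →
    deriv (D'.L (χ.comp r)) 0 = (1 - (χ (D.frob q) : ℂ)) * deriv (D.L χ) 0

/-- FINV (40 lines). Fourier inversion on the finite abelian group `Gal H`: a function whose sums
against all characters are zero is zero (sum `χ(g)⁻¹` times the hypothesis over the characters;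
duality: `CommGroup` characters with values in `ℂˣ` separate points, e.g.
`CommGroup.exists_apply_ne_one_of_hasEnoughRootsOfUnity`). -/
def S_FINV : Prop :=
  ∀ (K : Type) [Field K] [NumberField K] [Algebra K ℝ] (H : IntermediateField K ℝ), IsAb H →
    ∀ f : Gal H → ℝ, (∀ χ : Gal H →* ℂˣ, ∑ᶠ g : Gal H, (χ g : ℂ) * (f g : ℂ) = 0) →
    ∀ g, f g = 0

/-- NSUM (60 lines). The kernel of `r` is `{1, T}` (an automorphism of `H(a)` over `H` maps `a` to
`a` or `- a`, and is determined by this), so that every `g ∈ Gal H` has exactly two preimages `g'`,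
`g' T`, and `log |g' ε| + log |g' T ε| = log |g N|`, as `N = ε (T ε)` and `g' N = g N`. -/
def S_NSUM : Prop :=
  ∀ (K : Type) [Field K] [NumberField K] [Algebra K ℝ] (H : IntermediateField K ℝ) (a : ℝ),
    IsAb H → IsAb (ext H a) → a ∉ H → a ^ 2 ∈ H →
    ∀ (r : Gal (ext H a) →* Gal H), IsRes r → Function.Surjective r →
    ∀ (T : Gal (ext H a)), (∀ y : ext H a, (y : ℝ) = a → T y = - y) → r T = 1 →
    ∀ (ε : ext H a) (N : H), ε ≠ 0 → (N : ℝ) = ((ε * T ε : ext H a) : ℝ) →
    ∀ χ : Gal H →* ℂˣ,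
      ∑ᶠ g : Gal (ext H a), (χ (r g) : ℂ) * (Real.log |((g ε : ext H a) : ℝ)| : ℝ) =
        ∑ᶠ g : Gal H, (χ g : ℂ) * (Real.log |((g N : H) : ℝ)| : ℝ)

/-- CONJ (60 lines). Existence of the complex conjugation at `w`: extend `K → ℝ → ℂ` (the map `w`) to
`τ : H → ℂ` (`H / K` is algebraic, `ℂ` algebraically closed); `conj ∘ τ` also extends `w`, and as
`H / K` is normal it is `τ ∘ c` for some `c ∈ Gal H`. Second part: if `w` is not the embedding
`algebraMap K ℝ` and `ε` has absolute value one at the infinite places not over `v` then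
`τ (ε (c ε)) = τ ε · conj (τ ε) = 1`, so `ε (c ε) = 1`. -/
def S_CONJ : Prop :=
  ∀ (K : Type) [Field K] [NumberField K] [Algebra K ℝ] (w : K →+* ℝ), w ≠ algebraMap K ℝ →
    ∀ H : IntermediateField K ℝ, IsAb H → (∃ c : Gal H, IsConjAt w H c) ∧
      ∀ c : Gal H, IsConjAt w H c → ∀ ε : H, ArchOne H ε → ε * c ε = 1

/-- ABEL (120 lines). Let `u > 0` in `H` and `z g ∈ H` with `(z g)² (g u) = u` and
`z g · g (z g') = z g' · g' (z g)`. Then `M = H(√u)` is abelian over `K`. If `√u ∈ H` clear. Normal: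
the conjugates of `√u` over `K` are among `± √(g u) = ± √u / z g` (as real numbers; `g u > 0`), which
lie in `M`. An automorphism `γ` of `M` over `g` maps `√u` to `± √u / z g`; the two products `γ γ'`
and `γ' γ` agree on `H` and on `√u`, by the second relation. -/
def S_ABEL : Prop :=
  ∀ (K : Type) [Field K] [NumberField K] [Algebra K ℝ] (H : IntermediateField K ℝ) (u : H),
    IsAb H → 0 < (u : ℝ) → ∀ z : Gal H → H, (∀ g, z g ^ 2 * g u = u) →
    (∀ g g', z g * g (z g') = z g' * g' (z g)) →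
    IsAbelianGalois K (ext H (Real.sqrt (u : ℝ)))

/-- CLS (80 lines). `(α) = q b² s`. The sign of `α` can be chosen positive in `ℝ`. For `p ≠ q` outside
`S₀` let `k` be the order of `b` at `p` and `c ∈ 𝓞 K` of order exactly `k` at `p`; the ideal
`((c²) : (α))` is not contained in `p` (`(c²) = p^(2k) J` with `p ∤ J`, take `t ∈ J`, `t ∉ p`: then
`α t ∈ (c²)`), so `α t = a c²` with `t ∉ p`, and `a ∉ p` as `α t` has order `2k` at `p`. Multiply by
`t`. The same at `q ∉ S₀`, where `α` has order `2k + 1` and `a = π` has order one. -/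
def S_CLS : Prop :=
  ∀ (K : Type) [Field K] [NumberField K] [Algebra K ℝ]
    (S₀ : Finset (HeightOneSpectrum (𝓞 K))), Large S₀ →
    ∀ q : HeightOneSpectrum (𝓞 K), q ∉ S₀ → ∃ α : 𝓞 K, 0 < algebraMap K ℝ (α : K) ∧ OddAt q α ∧
      ∀ p, p ∉ S₀ → p ≠ q → EvenAt p α

/-- RHO (from FIX; 80 lines). `a ∈ L`, `a² ∈ H`, `T` fixes `H` and `T a = - a`; `r ∈ L`, `r²` lies in
`H(a)` and `r` is a unit; `a² y²` is never a unit for `y ∈ H`. Then `ρ = r (T r)` lies in `H`. Proof:
an automorphism `g` of `L` fixing `H(a)` maps `r` to `± r` and commutes with `T`, so it fixes `ρ`.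
In particular `T²` does (it fixes `H` and `a`), and `T² r = ± r`, so `T ρ = (T r)(T² r) = ± ρ`. If
`T ρ = ρ` then `ρ` is fixed by all `g` fixing `H` (either `g a = a`, or `g a = - a` and `g T⁻¹`
fixes `H(a)`). If `T ρ = - ρ` then `y = ρ / a` is fixed by all `g` fixing `H`, so `y ∈ H` and
`a² y² = ρ²` is a unit, contradiction. -/
def S_RHO : Prop :=
  ∀ (K : Type) [Field K] [NumberField K] [Algebra K ℝ] (H L : IntermediateField K ℝ), H ≤ L →
    IsAb L → ∀ (a r : L) (T : Gal L), ((a ^ 2 : L) : ℝ) ∈ H →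
    (∀ y : L, (y : ℝ) ∈ H → T y = y) → T a = - a → ((r ^ 2 : L) : ℝ) ∈ ext H (a : ℝ) →
    IsU (r : ℝ) → (∀ y : H, ¬ IsU ((a : ℝ) ^ 2 * (y : ℝ) ^ 2)) → ((r * T r : L) : ℝ) ∈ H

/-- ARCH (40 lines). `H ≤ L` finite abelian, `ε ∈ L` of absolute value one at the infinite places not
over `v`, `g ∈ Gal (L/K)`, `N = ε (g ε) ∈ H`. Then `N` has absolute value one at the infinite places
of `H` not over `v`: extend `τ : H → ℂ` to `τ' : L → ℂ` (`L / H` is algebraic, `ℂ` algebraically
closed), then `|τ' ε| = 1` and `|τ' (g ε)| = |(τ' ∘ g) ε| = 1`. -/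
def S_ARCH : Prop :=
  ∀ (K : Type) [Field K] [NumberField K] [Algebra K ℝ] (H L : IntermediateField K ℝ), H ≤ L →
    IsAb L → ∀ (ε : L) (g : Gal L) (N : H), ArchOne L ε → (N : ℝ) = ((ε * g ε : L) : ℝ) →
    ArchOne H N

end Pool.Agent.Run7.h787.ST
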