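import Pool.Agent.Run7.h787.ST.Iface

/-!
# Stark's conjecture: removal of primes from `S`. Second interface

Theorem `t_XXX : S_XXX` (or `t_XXX : S_YYY → S_XXX`) in `Pool/Agent/Run7/<you>/ST/XXX.lean`.
-/

set_option autoImplicit false

open NumberField IsDedekindDomain

noncomputable section

namespace Pool.Agent.Run7.h787.ST

/-- The numbers `2 cos (π / 2 ^ (n + 1))`. -/
def cy : ℕ → ℝ
  | 0 => 0
  | n + 1 => Real.sqrt (2 + cy n)

/-- The classical facts on the behaviour at `s = 0`: there is a zero, there is a zero of order at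
least two for the characters which are trivial on the complex conjugations over `w`, and for the
trivial character the order is at least `#S + 1`. -/
def VanP {K : Type} [Field K] [NumberField K] [Algebra K ℝ] (w : K →+* ℝ)
    {H : IntermediateField K ℝ} {S : Finset (HeightOneSpectrum (𝓞 K))} (D : LData H S) : Prop :=
  (∀ χ, D.L χ 0 = 0) ∧
  (∀ (χ : Gal H →* ℂˣ) (c : Gal H), IsConjAt w H c → χ c = 1 → deriv (D.L χ) 0 = 0) ∧
  (S.card : ℕ∞) + 1 ≤ analyticOrderAt (D.L 1) 0

/-- CYN (60 lines). `cy 0 = 0 ∈ H`. If all `cy n` were in `H`: they are pairwise distinct (strictly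
increasing, `0 ≤ cy n < 2`), algebraic integers (`cy (n+1) ^ 2 = 2 + cy n`), and all their images
under embeddings of `H` in `ℂ` have absolute value at most `2` (induction), contradiction to
`NumberField.Embeddings.finite_of_norm_le` (`H` is a number field). So there is a first
`n + 1` with `cy (n + 1) ∉ H`. -/
def S_CYN : Prop :=
  ∀ (K : Type) [Field K] [NumberField K] [Algebra K ℝ] (H : IntermediateField K ℝ),
    FiniteDimensional K H → ∃ n, cy n ∈ H ∧ cy (n + 1) ∉ H

/-- CYA (80 lines). `K(cy n)` is abelian over `K`: `cy n = 2 cos (π / 2 ^ (n + 1))` (Mathlib: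
`Real.sqrtTwoAddSeries`, `Real.cos_pi_over_two_pow`), so that it is `ζ + ζ⁻¹` for a root of unity
`ζ ∈ ℂ` of order `2 ^ (n + 2)`; view `ℂ` as a `K`-algebra through `ℝ`; `K(cy n)` embeds over `K` in
the cyclotomic extension `K(ζ) ⊆ ℂ`, which is abelian, and use `IsAbelianGalois.of_algHom`. -/
def S_CYA : Prop :=
  ∀ (K : Type) [Field K] [NumberField K] [Algebra K ℝ] (n : ℕ),
    IsAb (IntermediateField.adjoin K {cy n})

/-- CYU (from RES; 80 lines). Let `a = cy (n + 1)`, `a ^ 2 = 2 + cy n ∈ H`, `P` over `p` and `g` an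
automorphism of `H(a)` acting trivially modulo `P`. Its restriction to `H` is trivial. If `g a ≠ a`
then `g a = - a`, so `- 2 a ∈ P`, so `2 ∈ P` or `a ∈ P`. But `2 ∉ p`. And if `cy m ∈ P` for some
`m ≥ 1` then `cy (m - 1) = cy m ^ 2 - 2` is `- 2` modulo `P`, and `cy (m - 2)`, `cy (m - 3)`, ... are
`2` modulo `P`, down to `cy 0 = 0`, so `2 ∈ P`. So `g` fixes `H` and `a`, hence `H(a)`. -/
def S_CYU : Prop :=
  ∀ (K : Type) [Field K] [NumberField K] [Algebra K ℝ] (H : IntermediateField K ℝ) (n : ℕ)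
    (p : HeightOneSpectrum (𝓞 K)), IsAb H → IsAb (ext H (cy (n + 1))) → cy n ∈ H →
    (2 : 𝓞 K) ∉ p.asIdeal → Unram H p → Unram (ext H (cy (n + 1))) p

/-- HNT (60 lines). `Z (g g') = Z g * g (Z g')`, because the squares are equal (both are
`y / (g g' y)`) and both sides are positive. Hilbert 90 (Mathlib:
`groupCohomology.isMulCoboundary₁_of_isMulCocycle₁_of_aut_to_units`) gives `x ≠ 0` with
`Z g = x / g x`. Then `b = y / x²` is fixed by all `g`, so it lies in `K`. -/
def S_HNT : Prop :=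
  ∀ (K : Type) [Field K] [NumberField K] [Algebra K ℝ] (H : IntermediateField K ℝ), IsAb H →
    ∀ (y : H) (Z : Gal H → H), y ≠ 0 → (∀ g g' : Gal H, 0 < ((g (Z g') : H) : ℝ)) →
    (∀ g, Z g ^ 2 * g y = y) →
    ∃ (b : K) (x : H), x ≠ 0 ∧ (∀ g, Z g * g x = x) ∧ y = algebraMap K H b * x ^ 2

/-- LREL0 (from UNIQ; 60 lines). The same as LREL (see
`Pool/Agent/Run7/h547/ST/LREL.lean`), but for the same set `S`: the restriction of `D'.frob p` is
`D.frob p`, the Euler products agree for `Re s > 1`, hence the functions agree for `s ≠ 1` and the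
derivatives at `0` agree. -/
def S_LREL0 : Prop :=
  ∀ (K : Type) [Field K] [NumberField K] [Algebra K ℝ] (H H' : IntermediateField K ℝ) (_ : H ≤ H')
    (S : Finset (HeightOneSpectrum (𝓞 K)))
    (D : LData H S) (D' : LData H' S) (r : Gal H' →* Gal H), IsRes r → IsAb H →
    (∀ p, p ∉ S → Unram H p) → ∀ χ : Gal H →* ℂˣ,
    deriv (D'.L (χ.comp r)) 0 = deriv (D.L χ) 0

/-- GLUE (120 lines, complex analysis only). For every `s₀ ≠ 1` choose `i = i(s₀)` as in the last
hypothesis, and an analytic function `g_{s₀}` near `s₀` with `F i = E i * g_{s₀}` near `s₀` (write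
both as a power of `s - s₀` times a function which is not zero at `s₀`). Put `G s₀ = g_{s₀} s₀`.
For any `j` one has `E i (F j - E j g_{s₀}) = F i E j - E i E j g_{s₀} = 0` near `s₀` and `E i` has
isolated zeros, so `F j = E j g_{s₀}` near `s₀` (both sides analytic); in particular
`F j s₀ = E j s₀ * G s₀`. And for `s ≠ s₀` near `s₀`: `E i s ≠ 0` and
`E i s * G s = F i s = E i s * g_{s₀} s`, so `G = g_{s₀}` near `s₀`, which is analytic. -/
def S_GLUE : Prop :=
  ∀ (ι : Type) (F E : ι → ℂ → ℂ), (∀ i, DifferentiableOn ℂ (F i) {1}ᶜ) →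
    (∀ i, Differentiable ℂ (E i)) → (∀ i j s, s ≠ 1 → F i s * E j s = F j s * E i s) →
    (∀ s₀ : ℂ, s₀ ≠ 1 → ∃ i, analyticOrderAt (E i) s₀ ≠ ⊤ ∧
      analyticOrderAt (E i) s₀ ≤ analyticOrderAt (F i) s₀) →
    ∃ G : ℂ → ℂ, DifferentiableOn ℂ G {1}ᶜ ∧ ∀ i s, s ≠ 1 → F i s = E i s * G s

/-- NORM (80 lines). There are prime ideals `q, q' ∉ S` over two different rational primes `l, l'`
(only finitely many rational primes lie under `S`), of norms `l ^ f`, `l' ^ f'`. If
`(N q) ^ (i t) = 1 = (N q') ^ (i t)` then `t f log l = 2 π k` and `t f' log l' = 2 π k'` with integers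
`k, k' ≠ 0`, so `l ^ (f |k'|) = l' ^ (f' |k|)`, contradiction. -/
def S_NORM : Prop :=
  ∀ (K : Type) [Field K] [NumberField K] (S : Finset (HeightOneSpectrum (𝓞 K))) (t : ℝ), t ≠ 0 →
    ∃ q, q ∉ S ∧ (Ideal.absNorm q.asIdeal : ℂ) ^ ((t : ℂ) * Complex.I) ≠ 1

open Classical in
/-- PREL (from UNIQ; 100 lines, see `Pool/Agent/Run7/h547/ST/LREL.lean`). For `Re s > 1` both sides
are the product over the prime ideals outside `S ∪ {p, q}` (the Frobenius automorphisms of `D₁` and
`D₂` agree there, by UNIQ); identity theorem on the complement of `1`. -/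
def S_PREL : Prop :=
  ∀ (K : Type) [Field K] [NumberField K] [Algebra K ℝ] (H : IntermediateField K ℝ)
    (S : Finset (HeightOneSpectrum (𝓞 K))) (q p : HeightOneSpectrum (𝓞 K)) (_ : q ∉ S) (_ : p ∉ S)
    (_ : q ≠ p) (D₁ : LData H (insert q S)) (D₂ : LData H (insert p S)), IsAb H →
    (∀ p, p ∉ S → Unram H p) → ∀ (χ : Gal H →* ℂˣ) (s : ℂ), s ≠ 1 →
    D₁.L χ s * (1 - (χ (D₁.frob p) : ℂ) * (Ideal.absNorm p.asIdeal : ℂ) ^ (-s)) =
      D₂.L χ s * (1 - (χ (D₂.frob q) : ℂ) * (Ideal.absNorm q.asIdeal : ℂ) ^ (-s))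

open Classical in
/-- DESC (from GLUE, NORM, PREL, UNIQ, CHEB; 200 lines). The index set is `{q // q ∉ S}` (infinite).
For `p ∉ S` let `frob p` be `D'.frob p` for the data `D'` at the level `S ∪ {q}` with `q ≠ p`
(independent of `q` by UNIQ). Put `F q = D'_q.L χ` and
`E q s = 1 - χ (frob q) (N q) ^ (-s)`. PREL is the compatibility in GLUE. Orders at `s₀ ≠ 1`:
for `Re s₀ ≠ 0` one has `E q s₀ ≠ 0` for all `q`; for `s₀ = i t`, `t ≠ 0` take `q` from NORM for
`- t * n`, where `n` is the order of `Gal H` (then `χ (frob q) ^ n = 1`); for `s₀ = 0` and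
`χ ≠ 1` take `q` with `χ (frob q) ≠ 1` (CHEB for `D'_{q'}`); for `s₀ = 0` and `χ = 1` the order of
`E q` is `1` and that of `F q` is at least `#S + 2`. GLUE gives `D.L χ`. The Euler product for
`Re s > 1`: add the factor at `q` to that of `D'_q`. `VanP`: for `χ ≠ 1` from `F q = E q * G` with
`E q 0 ≠ 0`; for `χ = 1` the order of `G` is that of `F q` minus `1` (`analyticOrderAt_mul`), at
least `#S + 1 ≥ 2`. -/
def S_DESC : Prop :=
  ∀ (K : Type) [Field K] [NumberField K] [Algebra K ℝ] (w : K →+* ℝ) (H : IntermediateField K ℝ)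
    (S : Finset (HeightOneSpectrum (𝓞 K))), IsAb H → S.Nonempty → (∀ p, p ∉ S → Unram H p) →
    (∀ q, q ∉ S → ∃ D' : LData H (insert q S), VanP w D') → ∃ D : LData H S, VanP w D

end Pool.Agent.Run7.h787.ST
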