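import Pool.Agent.Run7.h787.ST.Iface2

/-!
# Stark's conjecture: partial zeta functions. Third interface

Theorem `t_XXX : S_XXX` (or `t_XXX : S_YYY → S_XXX`) in `Pool/Agent/Run7/<you>/ST/XXX.lean`.
-/

set_option autoImplicit false

open NumberField IsDedekindDomain

noncomputable section

namespace Pool.Agent.Run7.h787.ST

/-- The Artin symbols and the partial zeta functions of `H / K`, where `S` consists of the infinite
places and a finite set of prime ideals: `art` is multiplicative on the nonzero ideals and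
`art 𝔭` is the Frobenius automorphism for `𝔭` outside `S`; `Z g` is holomorphic for `s ≠ 1` and
equal to `∑ N𝔞 ^ (-s)` for `Re s > 1`, where the sum is over the nonzero ideals `𝔞` prime to `S`
with Artin symbol `g`. -/
structure ZData {K : Type} [Field K] [NumberField K] [Algebra K ℝ] (H : IntermediateField K ℝ)
    (S : Finset (HeightOneSpectrum (𝓞 K))) where
  /-- the Artin symbol -/
  art : Ideal (𝓞 K) → Gal H
  art_mul : ∀ a b : Ideal (𝓞 K), a ≠ ⊥ → b ≠ ⊥ → art (a * b) = art a * art b
  art_frob : ∀ p, p ∉ S → IsFrob H p (art p.asIdeal)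
  /-- the partial zeta function `ζ_S(g, s)` -/
  Z : Gal H → ℂ → ℂ
  analytic : ∀ g, DifferentiableOn ℂ (Z g) {1}ᶜ
  series : ∀ (g : Gal H) (s : ℂ), 1 < s.re →
    HasSum (fun a : {a : Ideal (𝓞 K) // a ≠ ⊥ ∧ (∀ p ∈ S, ¬ a ≤ p.asIdeal) ∧ art a = g} =>
      (Ideal.absNorm (a : Ideal (𝓞 K)) : ℂ) ^ (-s)) (Z g s)

/-- DIR (150 lines; it may be in the tree or in Mathlib in some form: Euler products over the
prime ideals of a number field, e.g. near the Dedekind zeta function). For a completely
multiplicative `F` on the nonzero ideals with values of absolute value one and `Re s > 1` the sum over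
the ideals prime to `S` and the Euler product over the prime ideals outside `S` converge
(unconditionally) to the same number. -/
def S_DIR : Prop :=
  ∀ (K : Type) [Field K] [NumberField K] (S : Finset (HeightOneSpectrum (𝓞 K)))
    (F : Ideal (𝓞 K) → ℂ), (∀ a b : Ideal (𝓞 K), a ≠ ⊥ → b ≠ ⊥ → F (a * b) = F a * F b) →
    (∀ a, ‖F a‖ = 1) → ∀ s : ℂ, 1 < s.re → ∃ A : ℂ,
      HasSum (fun a : {a : Ideal (𝓞 K) // a ≠ ⊥ ∧ ∀ p ∈ S, ¬ a ≤ p.asIdeal} =>
        F a * (Ideal.absNorm (a : Ideal (𝓞 K)) : ℂ) ^ (-s)) A ∧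
      HasProd (fun p : {p : HeightOneSpectrum (𝓞 K) // p ∉ S} =>
        (1 - F (p : HeightOneSpectrum (𝓞 K)).asIdeal *
          (Ideal.absNorm (p : HeightOneSpectrum (𝓞 K)).asIdeal : ℂ) ^ (-s))⁻¹) A

/-- ZL (from DIR; 80 lines). `L χ s = ∑ χ(g) Z g s`; for `Re s > 1` this is the sum of
`χ(art a) N a ^ (-s)` over all `a` prime to `S` (split the sum according to the value of `art`), so
DIR for `F = χ ∘ art` gives the Euler product. (A value of a character of a finite group has
absolute value one.) -/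
def S_ZL : Prop :=
  ∀ (K : Type) [Field K] [NumberField K] [Algebra K ℝ] (H : IntermediateField K ℝ)
    (S : Finset (HeightOneSpectrum (𝓞 K))) (D : ZData H S), IsAb H →
    ∃ D' : LData H S, (∀ p, D'.frob p = D.art p.asIdeal) ∧
      ∀ (χ : Gal H →* ℂˣ) (s : ℂ), D'.L χ s = ∑ᶠ g : Gal H, (χ g : ℂ) * D.Z g s

/-- LZ (from DIR; 150 lines). `Gal H` is commutative; `art a` is the product of the `frob p` over the
prime factors of `a` (`UniqueFactorizationMonoid.normalizedFactors`, multiplicative), and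
`Z g s = (1 / n) ∑ χ(g)⁻¹ L χ s`, the sum over the characters. Then `∑ χ(g) Z g s = L χ s` by
orthogonality, `Z g` is analytic, and for `Re s > 1` DIR for `F = χ ∘ art` gives
`L χ s = ∑ χ(art a) N a ^ (-s)`, so `Z g s` is the sum of `N a ^ (-s)` over the `a` with
`art a = g`, by orthogonality again. -/
def S_LZ : Prop :=
  ∀ (K : Type) [Field K] [NumberField K] [Algebra K ℝ] (H : IntermediateField K ℝ)
    (S : Finset (HeightOneSpectrum (𝓞 K))) (D : LData H S), IsAb H →
    ∃ D' : ZData H S, ∀ (χ : Gal H →* ℂˣ) (s : ℂ),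
      D.L χ s = ∑ᶠ g : Gal H, (χ g : ℂ) * D'.Z g s

end Pool.Agent.Run7.h787.ST
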