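import Pool.Agent.Run7.h787.ST.Comb

/-!
# Stark's conjecture, removal of primes: the data at the level `S ∪ {q}`
-/

set_option autoImplicit false
set_option linter.unusedSectionVars false
set_option linter.style.haveILetI false

open NumberField IsDedekindDomain

open scoped Classical

noncomputable section

namespace Pool.Agent.Run7.h787.ST

variable {K : Type} [Field K] [NumberField K] [Algebra K ℝ]

theorem isAb_of_root {H : IntermediateField K ℝ} (hH : IsAb H) {x : ℝ} (hx : x ^ 2 ∈ H)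
    (h : IsAbelianGalois K (ext H x)) : IsAb (ext H x) := by
  refine ⟨?_, h⟩
  haveI := hH.1
  have h1 : IsIntegral K (x ^ 2) := by
    have h2 : IsIntegral K (⟨x ^ 2, hx⟩ : H) := IsIntegral.of_finite K _
    exact h2.map H.val
  have h3 : IsIntegral K x := IsIntegral.of_pow (n := 2) (by norm_num) h1
  haveI : FiniteDimensional K (IntermediateField.adjoin K {x}) :=
    IntermediateField.adjoin.finiteDimensional h3
  exact IntermediateField.finiteDimensional_sup H (IntermediateField.adjoin K {x})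

theorem isIntegral_gal {H : IntermediateField K ℝ} (g : Gal H) (x : H)
    (h : IsIntegral ℤ (x : ℝ)) : IsIntegral ℤ ((g x : H) : ℝ) := by
  have h1 : IsIntegral ℤ x := (isIntegral_algebraMap_iff (A := H) (B := ℝ)
    (algebraMap H ℝ).injective).1 h
  have h2 : IsIntegral ℤ (g x) := h1.map ((g : H →ₐ[K] H).restrictScalars ℤ)
  exact h2.map ((H.val).restrictScalars ℤ)

theorem isU_gal {H : IntermediateField K ℝ} (g : Gal H) (x : H) (h : IsU (x : ℝ)) :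
    IsU ((g x : H) : ℝ) := by
  refine ⟨?_, isIntegral_gal g x h.2.1, ?_⟩
  · intro h0
    have h1 : g x = 0 := Subtype.ext h0
    have h2 : x = 0 := by simpa using h1
    exact h.1 (by rw [h2]; rfl)
  · have h1 : (((g x : H) : ℝ))⁻¹ = ((g x⁻¹ : H) : ℝ) := by rw [map_inv₀]; rfl
    rw [h1]
    exact isIntegral_gal g _ h.2.2

theorem isU_mul {x y : ℝ} (hx : IsU x) (hy : IsU y) : IsU (x * y) :=
  ⟨mul_ne_zero hx.1 hy.1, hx.2.1.mul hy.2.1, by rw [mul_inv]; exact hx.2.2.mul hy.2.2⟩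

theorem isU_of_sq {x : ℝ} (h : IsU (x ^ 2)) : IsU x := by
  refine ⟨fun h0 => h.1 (by rw [h0]; norm_num), IsIntegral.of_pow (n := 2) (by norm_num) h.2.1, ?_⟩
  refine IsIntegral.of_pow (n := 2) (by norm_num) ?_
  rw [inv_pow]
  exact h.2.2

theorem isU_one : IsU 1 := ⟨one_ne_zero, isIntegral_one, by rw [inv_one]; exact isIntegral_one⟩

theorem isU_neg {x : ℝ} (h : IsU x) : IsU (-x) :=
  ⟨neg_ne_zero.2 h.1, h.2.1.neg, by rw [inv_neg]; exact h.2.2.neg⟩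

/-- `a ∉ H` when `a² = α` has odd order at a prime which is unramified in `H`. -/
theorem not_mem_of_odd (iVAL : S_VAL) {H : IntermediateField K ℝ} (abH : IsAb H) {a : ℝ} {α : 𝓞 K}
    (a2 : a ^ 2 = algebraMap K ℝ (α : K)) (ha0 : a ≠ 0) {q : HeightOneSpectrum (𝓞 K)}
    (hodd : OddAt q α) (un : Unram H q) : a ∉ H := by
  intro h
  refine iVAL K H α q abH un hodd ⟨a⁻¹, H.inv_mem h⟩ ?_
  rw [← a2]
  have : a ^ 2 * (a⁻¹) ^ 2 = 1 := by field_simp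
  change IsU (a ^ 2 * (a⁻¹) ^ 2)
  rw [this]
  exact isU_one

/-- The field data at the level `S ∪ {q}`. -/
structure FD (S₀ : Finset (HeightOneSpectrum (𝓞 K))) (H : IntermediateField K ℝ)
    (S : Finset (HeightOneSpectrum (𝓞 K))) (q : HeightOneSpectrum (𝓞 K)) where
  α : 𝓞 K
  a : ℝ
  a0 : a ≠ 0
  a2 : a ^ 2 = algebraMap K ℝ (α : K)
  odd : OddAt q α
  even : ∀ p, p ∉ S₀ → p ≠ q → EvenAt p α
  ab : IsAb (ext H a)
  ha : a ∉ H
  unr : ∀ p, p ∉ insert q S → Unram (ext H a) p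
  T : Gal (ext H a)
  hT : ∀ y : ext H a, (y : ℝ) ∈ H → T y = y
  hTa : ∀ y : ext H a, (y : ℝ) = a → T y = - y

theorem FD.haH {S₀ : Finset (HeightOneSpectrum (𝓞 K))} {H : IntermediateField K ℝ}
    {S : Finset (HeightOneSpectrum (𝓞 K))} {q : HeightOneSpectrum (𝓞 K)} (A : FD S₀ H S q)
    (H' : IntermediateField K ℝ) : A.a ^ 2 ∈ H' := by
  rw [A.a2]
  exact H'.algebraMap_mem _

theorem exists_FD (iCLS : S_CLS) (iSUP : S_SUP) (iUNR : S_UNR) (iVAL : S_VAL) (iLIFT : S_LIFT)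
    {S₀ : Finset (HeightOneSpectrum (𝓞 K))} (hS₀ : Large S₀) {H : IntermediateField K ℝ}
    (abH : IsAb H) {S : Finset (HeightOneSpectrum (𝓞 K))} (hS : S₀ ⊆ S)
    (unH : ∀ p, p ∉ S → Unram H p) {q : HeightOneSpectrum (𝓞 K)} (hq : q ∉ S) :
    Nonempty (FD S₀ H S q) := by
  obtain ⟨α, hα, hodd, heven⟩ := iCLS K S₀ hS₀ q (fun h => hq (hS h))
  set a : ℝ := Real.sqrt (algebraMap K ℝ (α : K)) with ha
  have a2 : a ^ 2 = algebraMap K ℝ (α : K) := Real.sq_sqrt hα.le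
  have a0 : a ≠ 0 := by
    intro h
    rw [h] at a2
    rw [← a2] at hα
    simp at hα
  have ab : IsAb (ext H a) := (iSUP K).1 H _ abH ((iSUP K).2 a α a2)
  have haH : a ∉ H := not_mem_of_odd iVAL abH a2 a0 hodd (unH q hq)
  have unr : ∀ p, p ∉ insert q S → Unram (ext H a) p := by
    intro p hp
    rw [Finset.mem_insert, not_or] at hp
    have hpS₀ : p ∉ S₀ := fun h => hp.2 (hS h)
    exact iUNR K H a α p abH ab a2 (heven p hpS₀ hp.1) (fun h => hpS₀ (hS₀.1 p h)) (unH p hp.2)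
  have haL : a ∈ ext H a := mem_ext H a
  obtain ⟨T, hT, hTa⟩ := iLIFT K H (ext H a) (le_ext H a) ab ⟨a, haL⟩ haH (by
    change a ^ 2 ∈ H
    rw [a2]
    exact H.algebraMap_mem _)
  exact ⟨⟨α, a, a0, a2, hodd, heven, ab, haH, unr, T, hT, fun y hy => by
    have : y = ⟨a, haL⟩ := Subtype.ext hy
    rw [this]
    exact hTa⟩⟩

/-- The sums over `Gal H` for the norm of the unit at the level `S ∪ {q}`. -/
theorem rel_sum (iLREL : S_LREL) (iNSUM : S_NSUM) (iRES : S_RES) {κ : ℝ}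
    {S₀ : Finset (HeightOneSpectrum (𝓞 K))} {H : IntermediateField K ℝ}
    (abH : IsAb H) {S : Finset (HeightOneSpectrum (𝓞 K))} (unH : ∀ p, p ∉ S → Unram H p)
    {q : HeightOneSpectrum (𝓞 K)} (hq : q ∉ S) (D : LData H S) (hvan : ∀ χ, D.L χ 0 = 0)
    (A : FD S₀ H S q) {D' : LData (ext H A.a) (insert q S)} {ε : ext H A.a}
    (hε : LogUnit κ D' ε) (N : H) (hN : (N : ℝ) = ((ε * A.T ε : ext H A.a) : ℝ))
    (χ : Gal H →* ℂˣ) :
    (1 - (χ (D.frob q) : ℂ)) * deriv (D.L χ) 0 =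
      -(κ : ℂ) * ∑ᶠ g : Gal H, (χ g : ℂ) * (Real.log |((g N : H) : ℝ)| : ℝ) := by
  obtain ⟨R, hR, hRs⟩ := iRES K H (ext H A.a) (le_ext H A.a) abH A.ab
  have hRT : R A.T = 1 := by
    refine AlgEquiv.ext fun x => Subtype.ext ?_
    rw [hR A.T x (inc (le_ext H A.a) x) rfl, A.hT _ x.2]
    rfl
  have hε0 : ε ≠ 0 := by
    intro h
    have := hε.1
    rw [h] at this
    simp at this
  have h1 := iLREL K H (ext H A.a) (le_ext H A.a) S q hq D D' R hR abH unH χ (hvan χ)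
  have h2 := hε.2.2.2 (χ.comp R)
  have h4 := iNSUM K H A.a abH A.ab A.ha (A.haH H) R hR hRs A.T A.hTa hRT ε N hε0 hN χ
  have h5 : ∀ g, ((χ.comp R) g : ℂ) = (χ (R g) : ℂ) := fun g => rfl
  simp only [h5] at h2
  rw [h4] at h2
  rw [← h1, h2]

theorem exists_rho_aux (iRHO : S_RHO) (iRES : S_RES)
    {H H' L : IntermediateField K ℝ} {a : ℝ} (eH' : H' = ext H a) (hL : H' ≤ L)
    (abH' : IsAb H') (abL : IsAb L) (ha2 : a ^ 2 ∈ H) (T0 : Gal H')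
    (hT0 : ∀ y : H', (y : ℝ) ∈ H → T0 y = y) (hT0a : ∀ y : H', (y : ℝ) = a → T0 y = - y)
    (ε : H') (hU : IsU (ε : ℝ)) (r : L) (hr : ((r ^ 2 : L) : ℝ) = (ε : ℝ))
    (hval : ∀ y : H, ¬ IsU (a ^ 2 * (y : ℝ) ^ 2)) :
    ∃ ρ : H, (ρ : ℝ) ^ 2 = ((ε * T0 ε : H') : ℝ) := by
  have hH' : H ≤ H' := eH' ▸ le_ext H a
  have haH' : a ∈ H' := eH' ▸ mem_ext H a
  have hHL : H ≤ L := hH'.trans hL
  obtain ⟨R, hR, hRs⟩ := iRES K H' L hL abH' abL
  obtain ⟨T, hT⟩ := hRs T0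
  have haL : a ∈ L := hL haH'
  have hr' : (r : ℝ) ^ 2 = (ε : ℝ) := by rw [← hr]; rfl
  have h1 : ∀ y : L, (y : ℝ) ∈ H → T y = y := by
    intro y hy
    have hy' : (y : ℝ) ∈ H' := hH' hy
    refine Subtype.ext ?_
    have h2 := hR T ⟨(y : ℝ), hy'⟩ y rfl
    rw [hT, hT0 ⟨(y : ℝ), hy'⟩ hy] at h2
    exact h2.symm
  have h2 : T ⟨a, haL⟩ = - ⟨a, haL⟩ := by
    refine Subtype.ext ?_
    have h2 := hR T ⟨a, haH'⟩ ⟨a, haL⟩ rfl
    rw [hT, hT0a ⟨a, haH'⟩ rfl] at h2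
    exact h2.symm
  have h3 : IsU (r : ℝ) := by
    refine isU_of_sq ?_
    rw [hr']
    exact hU
  have hmem : ((r * T r : L) : ℝ) ∈ H := by
    refine iRHO K H L hHL abL ⟨a, haL⟩ r T ha2 h1 h2 ?_ h3 hval
    rw [hr]
    exact eH' ▸ ε.2
  refine ⟨⟨_, hmem⟩, ?_⟩
  have h4 : ((T0 ε : H') : ℝ) = ((T r : L) : ℝ) ^ 2 := by
    have h5 := hR T ε (r ^ 2) hr.symm
    rw [hT, map_pow] at h5
    rw [h5]
    rfl
  have h6 : ((ε * T0 ε : H') : ℝ) = (ε : ℝ) * ((T0 ε : H') : ℝ) := rfl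
  have h7 : ((r * T r : L) : ℝ) = (r : ℝ) * ((T r : L) : ℝ) := rfl
  rw [h6, h4, ← hr']
  change ((r * T r : L) : ℝ) ^ 2 = _
  rw [h7, mul_pow]

/-- The unit `ρ` of `H` with `ρ² = N(ε)`. -/
theorem exists_rho (iRHO : S_RHO) (iRES : S_RES) (iVAL : S_VAL) {κ : ℝ}
    {S₀ : Finset (HeightOneSpectrum (𝓞 K))} {H : IntermediateField K ℝ}
    (abH : IsAb H) {S : Finset (HeightOneSpectrum (𝓞 K))} (unH : ∀ p, p ∉ S → Unram H p)
    {q : HeightOneSpectrum (𝓞 K)} (hq : q ∉ S)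
    (A : FD S₀ H S q) {D' : LData (ext H A.a) (insert q S)} {ε : ext H A.a}
    (hε : LogUnit κ D' ε) (hroot : IsAbelianGalois K (ext (ext H A.a) (Real.sqrt (ε : ℝ)))) :
    ∃ ρ : H, (ρ : ℝ) ^ 2 = ((ε * A.T ε : ext H A.a) : ℝ) := by
  have hsq : Real.sqrt (ε : ℝ) ^ 2 = (ε : ℝ) := Real.sq_sqrt hε.1.le
  have abL : IsAb (ext (ext H A.a) (Real.sqrt (ε : ℝ))) :=
    isAb_of_root A.ab (by rw [hsq]; exact ε.2) hroot
  exact exists_rho_aux iRHO iRES (L := ext (ext H A.a) (Real.sqrt (ε : ℝ))) rfl (le_ext _ _) A.ab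
    abL (A.haH H) A.T A.hT A.hTa ε hε.2.1 ⟨Real.sqrt (ε : ℝ), mem_ext _ _⟩ hsq
    (fun y => by rw [A.a2]; exact iVAL K H A.α q abH (unH q hq) A.odd y)

theorem ext_comm (H : IntermediateField K ℝ) (a b : ℝ) : ext (ext H a) b = ext (ext H b) a := by
  unfold ext
  rw [sup_right_comm]

theorem comm_aux (iRHO : S_RHO) (iLREL : S_LREL) (iNSUM : S_NSUM) (iFINV : S_FINV) (iRES : S_RES)
    (iUNIQ : S_UNIQ) (iVAL : S_VAL) (iLIFT : S_LIFT) {κ : ℝ} (hκ : κ ≠ 0)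
    {w : K →+* ℝ} (hcl : Classical w)
    {S₀ : Finset (HeightOneSpectrum (𝓞 K))} {H : IntermediateField K ℝ}
    (abH : IsAb H) {S : Finset (HeightOneSpectrum (𝓞 K))} (unH : ∀ p, p ∉ S → Unram H p)
    (D : LData H S) {q p : HeightOneSpectrum (𝓞 K)} (hq : q ∉ S) (hp : p ∉ S) (hqp : q ≠ p)
    (A : FD S₀ H S q) (B : FD S₀ H S p)
    {DA : LData (ext H A.a) (insert q S)} {εA : ext H A.a} (hεA : LogUnit κ DA εA)
    {DB : LData (ext H B.a) (insert p S)} {εB : ext H B.a} (hεB : LogUnit κ DB εB)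
    (ρA : H) (hρA : (ρA : ℝ) ^ 2 = ((εA * A.T εA : ext H A.a) : ℝ))
    (ρB : H) (hρB : (ρB : ℝ) ^ 2 = ((εB * B.T εB : ext H B.a) : ℝ))
    {Hqp L : IntermediateField K ℝ} (eHqp : Hqp = ext (ext H A.a) B.a)
    (Dqp : LData Hqp (insert p (insert q S))) (ε : Hqp) (hε : LogUnit κ Dqp ε)
    (abHqp : IsAb Hqp) (abL : IsAb L) (lqp : Hqp ≤ L) (r rA rB : L)
    (hr : ((r ^ 2 : L) : ℝ) = (ε : ℝ)) (hrA : ((rA ^ 2 : L) : ℝ) = (εA : ℝ))
    (hrB : ((rB ^ 2 : L) : ℝ) = (εB : ℝ)) :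
    ρA * (D.frob q)⁻¹ ρB = ρB * (D.frob p)⁻¹ ρA := by
  have eHqp' : Hqp = ext (ext H B.a) A.a := eHqp.trans (ext_comm H A.a B.a)
  have hpq' : p ∉ insert q S := by
    rw [Finset.mem_insert, not_or]
    exact ⟨hqp.symm, hp⟩
  have hqp' : q ∉ insert p S := by
    rw [Finset.mem_insert, not_or]
    exact ⟨hqp, hq⟩
  have lHA : ext H A.a ≤ L := (le_ext _ _).trans (eHqp ▸ lqp)
  have lHB : ext H B.a ≤ L := (le_ext _ _).trans (eHqp' ▸ lqp)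
  have haL : A.a ∈ L := lHA (mem_ext _ _)
  have hbL : B.a ∈ L := lHB (mem_ext _ _)
  have haB : A.a ∉ ext H B.a :=
    not_mem_of_odd iVAL B.ab A.a2 A.a0 A.odd (B.unr q hqp')
  have hbA : B.a ∉ ext H A.a :=
    not_mem_of_odd iVAL A.ab B.a2 B.a0 B.odd (A.unr p hpq')
  obtain ⟨Tq, hTq, hTqa⟩ := iLIFT K (ext H B.a) L lHB abL ⟨A.a, haL⟩ haB (A.haH _)
  obtain ⟨Tp, hTp, hTpa⟩ := iLIFT K (ext H A.a) L lHA abL ⟨B.a, hbL⟩ hbA (B.haH _)
  have hTqa' : ∀ y : L, (y : ℝ) = A.a → Tq y = - y := by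
    intro y hy
    have : y = ⟨A.a, haL⟩ := Subtype.ext hy
    rw [this]; exact hTqa
  have hTpa' : ∀ y : L, (y : ℝ) = B.a → Tp y = - y := by
    intro y hy
    have : y = ⟨B.a, hbL⟩ := Subtype.ext hy
    rw [this]; exact hTpa
  have hS1 : (insert q S).Nonempty := Finset.insert_nonempty _ _
  have hS2 : (insert p S).Nonempty := Finset.insert_nonempty _ _
  have c1 := comm1 iRHO iLREL iNSUM iFINV iRES iUNIQ hκ (H := H) (Hq := ext H A.a) (Hqp := Hqp)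
    (L := L) (aq := A.a) (ap := B.a) rfl eHqp lqp abH A.ab abHqp abL (S := S) (Sq := insert q S)
    (Sqp := insert p (insert q S)) (q := q) (p := p) rfl rfl hpq' unH A.unr D DA Dqp
    ((hcl _ _ A.ab hS1 A.unr).2 DA).1 hεA hε rA r hrA hr hbA (B.haH _)
    (fun y => by rw [B.a2]; exact iVAL K _ B.α p A.ab (A.unr p hpq') B.odd y)
    Tq Tp hTp hTpa' (fun y hy => hTq y (le_ext _ _ hy)) hTqa' A.T A.hT A.hTa ρA hρA
  have c2 := comm1 iRHO iLREL iNSUM iFINV iRES iUNIQ hκ (H := H) (Hq := ext H B.a) (Hqp := Hqp)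
    (L := L) (aq := B.a) (ap := A.a) rfl eHqp' lqp abH B.ab abHqp abL (S := S) (Sq := insert p S)
    (Sqp := insert p (insert q S)) (q := p) (p := q) rfl (Finset.insert_comm _ _ _) hqp' unH B.unr
    D DB Dqp
    ((hcl _ _ B.ab hS2 B.unr).2 DB).1 hεB hε rB r hrB hr haB (A.haH _)
    (fun y => by rw [A.a2]; exact iVAL K _ A.α q B.ab (B.unr q hqp') A.odd y)
    Tp Tq hTq hTqa' (fun y hy => hTp y (le_ext _ _ hy)) hTpa' B.T B.hT B.hTa ρB hρB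
  have hXY : (r * Tq r) * Tp (r * Tq r) = (r * Tp r) * Tq (r * Tp r) := by
    rw [map_mul, map_mul, gal_comm abL Tp Tq r]
    ring
  rw [hXY] at c2
  generalize (((r * Tp r) * Tq (r * Tp r) : L) : ℝ) = X at c1 c2
  refine Subtype.ext ?_
  change (ρA : ℝ) * (((D.frob q)⁻¹ ρB : H) : ℝ) = (ρB : ℝ) * (((D.frob p)⁻¹ ρA : H) : ℝ)
  calc (ρA : ℝ) * (((D.frob q)⁻¹ ρB : H) : ℝ)
      = (X * (((D.frob p)⁻¹ ρA : H) : ℝ)) * (((D.frob q)⁻¹ ρB : H) : ℝ) := by rw [c1]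
    _ = (X * (((D.frob q)⁻¹ ρB : H) : ℝ)) * (((D.frob p)⁻¹ ρA : H) : ℝ) := by ring
    _ = _ := by rw [c2]

/-- The commutation relation of the units `ρ` for two primes. -/
theorem comm (iRHO : S_RHO) (iLREL : S_LREL) (iNSUM : S_NSUM) (iFINV : S_FINV) (iRES : S_RES)
    (iUNIQ : S_UNIQ) (iVAL : S_VAL) (iSUP : S_SUP) (iLIFT : S_LIFT) {κ : ℝ} (hκ : κ ≠ 0)
    {w : K →+* ℝ} (hcl : Classical w)
    {S₀ : Finset (HeightOneSpectrum (𝓞 K))} {H : IntermediateField K ℝ}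
    (abH : IsAb H) {S : Finset (HeightOneSpectrum (𝓞 K))} (unH : ∀ p, p ∉ S → Unram H p)
    (D : LData H S) {q p : HeightOneSpectrum (𝓞 K)} (hq : q ∉ S) (hp : p ∉ S) (hqp : q ≠ p)
    (A : FD S₀ H S q) (B : FD S₀ H S p)
    {DA : LData (ext H A.a) (insert q S)} {εA : ext H A.a} (hεA : LogUnit κ DA εA)
    (rootA : IsAbelianGalois K (ext (ext H A.a) (Real.sqrt (εA : ℝ))))
    {DB : LData (ext H B.a) (insert p S)} {εB : ext H B.a} (hεB : LogUnit κ DB εB)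
    (rootB : IsAbelianGalois K (ext (ext H B.a) (Real.sqrt (εB : ℝ))))
    (ρA : H) (hρA : (ρA : ℝ) ^ 2 = ((εA * A.T εA : ext H A.a) : ℝ))
    (ρB : H) (hρB : (ρB : ℝ) ^ 2 = ((εB * B.T εB : ext H B.a) : ℝ))
    (hSt : Stark κ (ext (ext H A.a) B.a) (insert p (insert q S))) :
    ρA * (D.frob q)⁻¹ ρB = ρB * (D.frob p)⁻¹ ρA := by
  obtain ⟨Dqp, ε, hε, hroot⟩ := hSt
  have abHqp : IsAb (ext (ext H A.a) B.a) := (iSUP K).1 _ _ A.ab ((iSUP K).2 B.a B.α B.a2)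
  have sq1 : Real.sqrt (ε : ℝ) ^ 2 = (ε : ℝ) := Real.sq_sqrt hε.1.le
  have sqA : Real.sqrt (εA : ℝ) ^ 2 = (εA : ℝ) := Real.sq_sqrt hεA.1.le
  have sqB : Real.sqrt (εB : ℝ) ^ 2 = (εB : ℝ) := Real.sq_sqrt hεB.1.le
  have ab1 : IsAb (ext (ext (ext H A.a) B.a) (Real.sqrt (ε : ℝ))) :=
    isAb_of_root abHqp (by rw [sq1]; exact ε.2) hroot
  have abA : IsAb (ext (ext H A.a) (Real.sqrt (εA : ℝ))) :=
    isAb_of_root A.ab (by rw [sqA]; exact εA.2) rootA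
  have abB : IsAb (ext (ext H B.a) (Real.sqrt (εB : ℝ))) :=
    isAb_of_root B.ab (by rw [sqB]; exact εB.2) rootB
  obtain ⟨L, abL, l1, lA, lB⟩ : ∃ L : IntermediateField K ℝ, IsAb L ∧
      ext (ext (ext H A.a) B.a) (Real.sqrt (ε : ℝ)) ≤ L ∧
      ext (ext H A.a) (Real.sqrt (εA : ℝ)) ≤ L ∧ ext (ext H B.a) (Real.sqrt (εB : ℝ)) ≤ L :=
    ⟨_, (iSUP K).1 _ _ ((iSUP K).1 _ _ ab1 abA) abB, le_sup_left.trans le_sup_left,
      le_sup_right.trans le_sup_left, le_sup_right⟩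
  exact comm_aux iRHO iLREL iNSUM iFINV iRES iUNIQ iVAL iLIFT hκ hcl abH unH D hq hp hqp A B
    hεA hεB ρA hρA ρB hρB (Hqp := ext (ext H A.a) B.a) (L := L) rfl Dqp ε hε abHqp abL
    ((le_ext _ _).trans l1) ⟨Real.sqrt (ε : ℝ), l1 (mem_ext _ _)⟩
    ⟨Real.sqrt (εA : ℝ), lA (mem_ext _ _)⟩ ⟨Real.sqrt (εB : ℝ), lB (mem_ext _ _)⟩ sq1 sqA sqB

end Pool.Agent.Run7.h787.ST
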