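import Pool.Agent.Run7.h787.ST.Level

/-!
# Stark's conjecture, removal of primes: the main step and the induction
-/

set_option autoImplicit false
set_option linter.unusedSectionVars false
set_option linter.style.haveILetI false

open NumberField IsDedekindDomain

open scoped Classical

noncomputable section

namespace Pool.Agent.Run7.h787.ST

variable {K : Type} [Field K] [NumberField K] [Algebra K ℝ]

theorem conj_sq {w : K →+* ℝ} {H : IntermediateField K ℝ} {c : Gal H} (hc : IsConjAt w H c) :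
    c * c = 1 := by
  obtain ⟨τ, _, h2⟩ := hc
  refine AlgEquiv.ext fun x => ?_
  apply τ.injective
  change τ (c (c x)) = τ x
  rw [h2, h2, Complex.conj_conj]

/-- From the formula for the norm to `L'`. -/
theorem logUnit_of_norm {κ : ℝ} {w : K →+* ℝ} {H : IntermediateField K ℝ} (abH : IsAb H)
    {S : Finset (HeightOneSpectrum (𝓞 K))} {D : LData H S} {c : Gal H} (hc : IsConjAt w H c)
    (hvan : Van w D) (N : H) (h0 : 0 < (N : ℝ)) (hU : IsU (N : ℝ)) (hA : ArchOne H N)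
    (hinv : N * c N = 1)
    (hsum : ∀ χ : Gal H →* ℂˣ, (1 - (χ c : ℂ)) * deriv (D.L χ) 0 =
      -(κ : ℂ) * ∑ᶠ g : Gal H, (χ g : ℂ) * (Real.log |((g N : H) : ℝ)| : ℝ)) :
    LogUnit (κ / 2) D N := by
  refine ⟨h0, hU, hA, fun χ => ?_⟩
  have hc2 : (χ c : ℂ) ^ 2 = 1 := by
    have h1 : (χ c) * (χ c) = 1 := by rw [← map_mul, conj_sq hc, map_one]
    have h2 := congrArg (fun z : ℂˣ => (z : ℂ)) h1
    simp only [Units.val_mul, Units.val_one] at h2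
    rw [pow_two]; exact h2
  have hc3 : ((χ c : ℂ) - 1) * ((χ c : ℂ) + 1) = 0 := by linear_combination hc2
  have hκ2 : ((κ / 2 : ℝ) : ℂ) = (κ : ℂ) / 2 := by push_cast; ring
  rw [hκ2]
  rcases mul_eq_zero.1 hc3 with h | h
  · -- trivial on `c`
    have h1 : χ c = 1 := Units.ext (by simpa using sub_eq_zero.1 h)
    rw [hvan.2 χ c hc h1]
    have h2 := sum_shift abH χ c N
    have hcinv : c⁻¹ = c := inv_eq_of_mul_eq_one_left (conj_sq hc)
    have hN0 : N ≠ 0 := by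
      intro h
      rw [h] at h0
      simp at h0
    have hcN : c N = N⁻¹ := (inv_eq_of_mul_eq_one_right hinv).symm
    rw [hcinv, hcN, h1, Units.val_one, one_mul] at h2
    have h3 : ∀ g : Gal H, (χ g : ℂ) * (Real.log |((g N⁻¹ : H) : ℝ)| : ℝ) =
        - ((χ g : ℂ) * (Real.log |((g N : H) : ℝ)| : ℝ)) := by
      intro g
      have h4 : ((g N⁻¹ : H) : ℝ) = (((g N : H) : ℝ))⁻¹ := by rw [map_inv₀]; rfl
      rw [h4, abs_inv, Real.log_inv]
      push_cast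
      ring
    simp only [h3] at h2
    rw [finsum_neg_distrib] at h2
    have h5 : ∑ᶠ g : Gal H, (χ g : ℂ) * (Real.log |((g N : H) : ℝ)| : ℝ) = 0 := by
      linear_combination (-1 / 2 : ℂ) * h2
    rw [h5, mul_zero]
  · have h1 : (χ c : ℂ) = -1 := by linear_combination h
    have h2 := hsum χ
    rw [h1] at h2
    linear_combination (1 / 2 : ℂ) * h2

/-- Replace a square `ρ²` by `|ρ|`. -/
theorem logUnit_abs {κ : ℝ} {H : IntermediateField K ℝ}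
    {S : Finset (HeightOneSpectrum (𝓞 K))} {D : LData H S} (ρ : H)
    (h : LogUnit (κ / 2) D (ρ ^ 2)) : ∃ u : H, (u = ρ ∨ u = - ρ) ∧ LogUnit κ D u := by
  obtain ⟨h0, hU, hA, hs⟩ := h
  have hsq : ((ρ ^ 2 : H) : ℝ) = (ρ : ℝ) ^ 2 := rfl
  rw [hsq] at h0 hU
  have hρ0 : (ρ : ℝ) ≠ 0 := by
    intro h
    rw [h] at h0
    simp at h0
  have hA' : ArchOne H ρ := by
    intro τ hτ
    have h1 := hA τ hτ
    rw [map_pow, norm_pow] at h1
    have h2 : (0 : ℝ) ≤ ‖τ ρ‖ := norm_nonneg _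
    nlinarith [h1, h2]
  have hs' : ∀ χ : Gal H →* ℂˣ,
      deriv (D.L χ) 0 = -(κ : ℂ) * ∑ᶠ g : Gal H, (χ g : ℂ) * (Real.log |((g ρ : H) : ℝ)| : ℝ) := by
    intro χ
    rw [hs χ]
    have h1 : ∀ g : Gal H, (χ g : ℂ) * (Real.log |((g (ρ ^ 2) : H) : ℝ)| : ℝ) =
        (2 : ℂ) * ((χ g : ℂ) * (Real.log |((g ρ : H) : ℝ)| : ℝ)) := by
      intro g
      have h4 : ((g (ρ ^ 2) : H) : ℝ) = (((g ρ : H) : ℝ)) ^ 2 := by rw [map_pow]; rfl
      rw [h4, abs_pow, Real.log_pow]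
      push_cast
      ring
    simp only [h1]
    rw [← mul_finsum]
    push_cast
    ring
  rcases lt_or_gt_of_ne hρ0 with h | h
  · refine ⟨-ρ, Or.inr rfl, ?_, isU_neg (isU_of_sq hU), ?_, ?_⟩
    · change 0 < -(ρ : ℝ)
      linarith
    · intro τ hτ
      rw [map_neg, norm_neg]
      exact hA' τ hτ
    · intro χ
      rw [hs' χ]
      have h1 : ∀ g : Gal H, |((g (-ρ) : H) : ℝ)| = |((g ρ : H) : ℝ)| := by
        intro g
        have h4 : ((g (-ρ) : H) : ℝ) = - (((g ρ : H) : ℝ)) := by rw [map_neg]; rfl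
        rw [h4, abs_neg]
      simp only [h1]
  · exact ⟨ρ, Or.inl rfl, h, isU_of_sq hU, hA', hs'⟩

/-- The pieces. -/
structure Pieces : Prop where
  uniq : S_UNIQ
  res : S_RES
  sup : S_SUP
  lift : S_LIFT
  cheb : S_CHEB
  unr : S_UNR
  val : S_VAL
  lrel : S_LREL
  finv : S_FINV
  nsum : S_NSUM
  conj : S_CONJ
  abel : S_ABEL
  cls : S_CLS
  rho : S_RHO
  arch : S_ARCH

theorem norm_props (i : Pieces) {κ : ℝ} {S₀ : Finset (HeightOneSpectrum (𝓞 K))}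
    {H : IntermediateField K ℝ} {S : Finset (HeightOneSpectrum (𝓞 K))}
    {q : HeightOneSpectrum (𝓞 K)} (A : FD S₀ H S q)
    {D' : LData (ext H A.a) (insert q S)} {ε : ext H A.a}
    (hε : LogUnit κ D' ε) (N : H) (hN : (N : ℝ) = ((ε * A.T ε : ext H A.a) : ℝ)) :
    IsU (N : ℝ) ∧ ArchOne H N := by
  refine ⟨?_, i.arch K H (ext H A.a) (le_ext H A.a) A.ab ε A.T N hε.2.2.1 hN⟩
  rw [hN]
  exact isU_mul hε.2.1 (isU_gal A.T ε hε.2.1)

theorem main_step (i : Pieces) {κ : ℝ} (hκ : κ ≠ 0) {w : K →+* ℝ} (hw : w ≠ algebraMap K ℝ)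
    (hcl : Classical w) {S₀ : Finset (HeightOneSpectrum (𝓞 K))} (hS₀ : Large S₀)
    {H : IntermediateField K ℝ} (abH : IsAb H) {S : Finset (HeightOneSpectrum (𝓞 K))}
    (hS : S₀ ⊆ S) (hSne : S.Nonempty) (unH : ∀ p, p ∉ S → Unram H p)
    (h1 : ∀ q, q ∉ S → ∀ H' : IntermediateField K ℝ, IsAb H' →
      (∀ p, p ∉ insert q S → Unram H' p) → Stark κ H' (insert q S))
    (h2 : ∀ q, q ∉ S → ∀ p, p ∉ insert q S → ∀ H' : IntermediateField K ℝ, IsAb H' →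
      (∀ p', p' ∉ insert p (insert q S) → Unram H' p') → Stark κ H' (insert p (insert q S))) :
    Stark κ H S := by
  obtain ⟨⟨D⟩, hvan⟩ := hcl H S abH hSne unH
  obtain ⟨⟨c, hc⟩, hcinv⟩ := i.conj K w hw H abH
  obtain ⟨q0, hq0, -, hF0⟩ := i.cheb K H S ∅ D c abH unH
  have hq := fun σ : Gal H => i.cheb K H S {q0} D σ abH unH
  choose qq hqS hqq0 hqF using hq
  -- the data at the level `S ∪ {q}`
  have hdata : ∀ q, q ∉ S → ∃ (A : FD S₀ H S q) (D' : LData (ext H A.a) (insert q S))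
      (ε : ext H A.a) (ρ : H), LogUnit κ D' ε ∧
      IsAbelianGalois K (ext (ext H A.a) (Real.sqrt (ε : ℝ))) ∧
      (ρ : ℝ) ^ 2 = ((ε * A.T ε : ext H A.a) : ℝ) := by
    intro q hq
    obtain ⟨A⟩ := exists_FD i.cls i.sup i.unr i.val i.lift hS₀ abH hS unH hq
    obtain ⟨D', ε, hε, hroot⟩ := h1 q hq (ext H A.a) A.ab A.unr
    obtain ⟨ρ, hρ⟩ := exists_rho i.rho i.res i.val abH unH hq A hε hroot
    exact ⟨A, D', ε, ρ, hε, hroot, hρ⟩
  obtain ⟨A0, D0, ε0, ρ0, hε0, hroot0, hρ0⟩ := hdata q0 hq0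
  choose A Dq ε ρ hε hroot hρ using fun σ : Gal H => hdata (qq σ) (hqS σ)
  -- general properties
  have hρpos : ∀ {q : HeightOneSpectrum (𝓞 K)} (A : FD S₀ H S q)
      {D' : LData (ext H A.a) (insert q S)} {ε : ext H A.a} (hε : LogUnit κ D' ε) (ρ : H)
      (hρ : (ρ : ℝ) ^ 2 = ((ε * A.T ε : ext H A.a) : ℝ)), ρ ≠ 0 ∧ ρ * c ρ = 1 := by
    intro q A D' ε hε ρ hρ
    obtain ⟨hU, hAr⟩ := norm_props i A hε (ρ ^ 2) hρ
    have h1 : ρ ≠ 0 := by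
      intro h
      apply hU.1
      rw [h]
      change ((0 : H) : ℝ) ^ 2 = 0
      norm_num
    have hA' : ArchOne H ρ := by
      intro τ hτ
      have h1 := hAr τ hτ
      rw [map_pow, norm_pow] at h1
      have h2 : (0 : ℝ) ≤ ‖τ ρ‖ := norm_nonneg _
      nlinarith [h1, h2]
    exact ⟨h1, hcinv c hc ρ hA'⟩
  obtain ⟨hρ00, hρc0⟩ := hρpos A0 hε0 ρ0 hρ0
  -- the unit
  have hLU : LogUnit (κ / 2) D (ρ0 ^ 2) := by
    obtain ⟨hU, hAr⟩ := norm_props i A0 hε0 (ρ0 ^ 2) hρ0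
    refine logUnit_of_norm abH hc (hvan D) (ρ0 ^ 2) ?_ hU hAr (hcinv c hc _ hAr) ?_
    · have : (ρ0 : ℝ) ≠ 0 := fun h => hρ00 (Subtype.ext h)
      change 0 < (ρ0 : ℝ) ^ 2
      positivity
    · intro χ
      have := rel_sum i.lrel i.nsum i.res abH unH hq0 D (hvan D).1 A0 hε0 (ρ0 ^ 2) hρ0 χ
      rw [hF0] at this
      exact this
  obtain ⟨u, hu, hLU'⟩ := logUnit_abs ρ0 hLU
  refine ⟨D, u, hLU', ?_⟩
  -- the root condition
  have hcinv' : c⁻¹ = c := inv_eq_of_mul_eq_one_left (conj_sq hc)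
  refine i.abel K H u abH hLU'.1 (fun g => ρ g⁻¹) ?_ ?_
  · intro g
    have hne : qq g⁻¹ ≠ q0 := fun h => hqq0 g⁻¹ (Finset.mem_singleton.2 h)
    have hin : q0 ∉ insert (qq g⁻¹) S := by
      rw [Finset.mem_insert, not_or]
      exact ⟨fun h => hne h.symm, hq0⟩
    have hab : IsAb (ext (ext H (A g⁻¹).a) A0.a) :=
      (i.sup K).1 _ _ (A g⁻¹).ab ((i.sup K).2 A0.a A0.α A0.a2)
    have hcomm := comm i.rho i.lrel i.nsum i.finv i.res i.uniq i.val i.sup i.lift hκ hcl abH unH D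
      (hqS g⁻¹) hq0 hne (A g⁻¹) A0 (hε g⁻¹) (hroot g⁻¹) hε0 hroot0 (ρ g⁻¹) (hρ g⁻¹) ρ0 hρ0
      (h2 _ (hqS g⁻¹) _ hin _ hab ?_)
    · rw [hqF, hF0, inv_inv, hcinv'] at hcomm
      obtain ⟨hz0, hzc⟩ := hρpos (A g⁻¹) (hε g⁻¹) (ρ g⁻¹) (hρ g⁻¹)
      have h3 : ρ g⁻¹ ^ 2 * g ρ0 = ρ0 := by
        calc ρ g⁻¹ ^ 2 * g ρ0 = ρ g⁻¹ * (ρ g⁻¹ * g ρ0) := by ring
          _ = ρ g⁻¹ * (ρ0 * c (ρ g⁻¹)) := by rw [hcomm]
          _ = ρ0 * (ρ g⁻¹ * c (ρ g⁻¹)) := by ring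
          _ = ρ0 := by rw [hzc, mul_one]
      rcases hu with hu | hu
      · rw [hu]; exact h3
      · rw [hu, map_neg, mul_neg, h3]
    · intro p hp
      rw [Finset.mem_insert, not_or] at hp
      have hpS : p ∉ S := fun h => hp.2 (Finset.mem_insert_of_mem h)
      have hpS₀ : p ∉ S₀ := fun h => hpS (hS h)
      exact i.unr K _ A0.a A0.α p (A g⁻¹).ab hab A0.a2 (A0.even p hpS₀ hp.1)
        (fun h => hpS₀ (hS₀.1 p h)) ((A g⁻¹).unr p hp.2)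
  · intro g g'
    by_cases hgg : g = g'
    · rw [hgg]
    have hne : qq g⁻¹ ≠ qq g'⁻¹ := by
      intro h
      have h3 : D.frob (qq g⁻¹) = D.frob (qq g'⁻¹) := by rw [h]
      rw [hqF, hqF] at h3
      exact hgg (inv_injective h3)
    have hin : qq g'⁻¹ ∉ insert (qq g⁻¹) S := by
      rw [Finset.mem_insert, not_or]
      exact ⟨fun h => hne h.symm, hqS g'⁻¹⟩
    have hab : IsAb (ext (ext H (A g⁻¹).a) (A g'⁻¹).a) :=
      (i.sup K).1 _ _ (A g⁻¹).ab ((i.sup K).2 (A g'⁻¹).a (A g'⁻¹).α (A g'⁻¹).a2)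
    have hcomm := comm i.rho i.lrel i.nsum i.finv i.res i.uniq i.val i.sup i.lift hκ hcl abH unH D
      (hqS g⁻¹) (hqS g'⁻¹) hne (A g⁻¹) (A g'⁻¹) (hε g⁻¹) (hroot g⁻¹) (hε g'⁻¹) (hroot g'⁻¹)
      (ρ g⁻¹) (hρ g⁻¹) (ρ g'⁻¹) (hρ g'⁻¹)
      (h2 _ (hqS g⁻¹) _ hin _ hab ?_)
    · rw [hqF, hqF, inv_inv, inv_inv] at hcomm
      exact hcomm
    · intro p hp
      rw [Finset.mem_insert, not_or] at hp
      have hpS : p ∉ S := fun h => hp.2 (Finset.mem_insert_of_mem h)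
      have hpS₀ : p ∉ S₀ := fun h => hpS (hS h)
      exact i.unr K _ (A g'⁻¹).a (A g'⁻¹).α p (A g⁻¹).ab hab (A g'⁻¹).a2
        ((A g'⁻¹).even p hpS₀ hp.1) (fun h => hpS₀ (hS₀.1 p h)) ((A g⁻¹).unr p hp.2)

end Pool.Agent.Run7.h787.ST
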