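import Pool.Agent.Run7.h787.ST.Base2
import Pool.Agent.Run7.h787.ST.DESCB

/-!
# Stark's conjecture, removal of primes: the assembly
-/

set_option autoImplicit false
set_option linter.unusedSectionVars false
set_option linter.style.haveILetI false

open NumberField IsDedekindDomain

open scoped Classical

noncomputable section

namespace Pool.Agent.Run7.h787.ST

/-- Stark's conjecture with the abelian root condition for `H / K` and `S` (`κ = 1/2`), including
the classical facts on the `L`-functions. -/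
def StarkC {K : Type} [Field K] [NumberField K] [Algebra K ℝ] (w : K →+* ℝ) (κ : ℝ)
    (H : IntermediateField K ℝ) (S : Finset (HeightOneSpectrum (𝓞 K))) : Prop :=
  ∃ (D : LData H S) (ε : H), VanP w D ∧ LogUnit κ D ε ∧
    IsAbelianGalois K (ext H (Real.sqrt (ε : ℝ)))

/-- Stark's conjecture without the root condition; the conjugates of the unit are positive. -/
def WeakC {K : Type} [Field K] [NumberField K] [Algebra K ℝ] (w : K →+* ℝ) (κ : ℝ)
    (H : IntermediateField K ℝ) (S : Finset (HeightOneSpectrum (𝓞 K))) : Prop :=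
  ∃ (D : LData H S) (ε : H), VanP w D ∧ LogUnit κ D ε ∧ ∀ g : Gal H, 0 < ((g ε : H) : ℝ)

/-- `H` has a quadratic extension (inside the real numbers) which is abelian over `K` and unramified
outside `S`. -/
def HasQuad {K : Type} [Field K] [NumberField K] [Algebra K ℝ]
    (H : IntermediateField K ℝ) (S : Finset (HeightOneSpectrum (𝓞 K))) : Prop :=
  ∃ a : ℝ, a ∉ H ∧ a ^ 2 ∈ H ∧ IsAb (ext H a) ∧ ∀ p, p ∉ S → Unram (ext H a) p

/-- Two steps of `HasQuad`. -/
def HasQuad2 {K : Type} [Field K] [NumberField K] [Algebra K ℝ]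
    (H : IntermediateField K ℝ) (S : Finset (HeightOneSpectrum (𝓞 K))) : Prop :=
  ∃ a : ℝ, a ∉ H ∧ a ^ 2 ∈ H ∧ IsAb (ext H a) ∧ (∀ p, p ∉ S → Unram (ext H a) p) ∧
    HasQuad (ext H a) S

/-- The pieces. -/
structure Pieces2 : Prop where
  uniq : S_UNIQ
  res : S_RES
  fix : S_FIX
  sup : S_SUP
  lift : S_LIFT
  cheb : S_CHEB
  lrel : S_LREL
  lrel0 : S_LREL0
  finv : S_FINV
  nsum : S_NSUM
  conj : S_CONJ
  arch : S_ARCH
  cyn : S_CYN
  cya : S_CYA
  cyu : S_CYU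
  hnt : S_HNT
  desc : S_DESCB

namespace B

variable {K : Type} [Field K] [NumberField K] [Algebra K ℝ]

theorem VanP.van {w : K →+* ℝ} {H : IntermediateField K ℝ}
    {S : Finset (HeightOneSpectrum (𝓞 K))} {D : LData H S} (h : VanP w D) : Van w D :=
  ⟨h.1, h.2.1⟩

theorem weak_of_stark (i : Pieces2) {w : K →+* ℝ} {κ : ℝ} {H : IntermediateField K ℝ}
    (abH : IsAb H) {S : Finset (HeightOneSpectrum (𝓞 K))} (h : StarkC w κ H S) :
    WeakC w κ H S := by
  obtain ⟨D, ε, hV, hε, hroot⟩ := h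
  refine ⟨D, ε, hV, hε, fun g => ?_⟩
  have hsq : Real.sqrt (ε : ℝ) ^ 2 = (ε : ℝ) := Real.sq_sqrt hε.1.le
  have abL : IsAb (ext H (Real.sqrt (ε : ℝ))) := isAb_of_root abH (by rw [hsq]; exact ε.2) hroot
  obtain ⟨R, hR, hRs⟩ := i.res K H _ (le_ext H _) abH abL
  obtain ⟨g', hg'⟩ := hRs g
  set r : ext H (Real.sqrt (ε : ℝ)) := ⟨Real.sqrt (ε : ℝ), mem_ext _ _⟩ with hr
  have h1 : ((g ε : H) : ℝ) = ((g' r : ext H (Real.sqrt (ε : ℝ))) : ℝ) ^ 2 := by
    have h2 := hR g' ε (r ^ 2) hsq.symm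
    rw [hg', map_pow] at h2
    rw [h2]
    rfl
  have h3 : g' r ≠ 0 := by
    intro h
    have h4 : r = 0 := by simpa using h
    have h5 : Real.sqrt (ε : ℝ) = 0 := congrArg Subtype.val h4
    rw [h5] at hsq
    have := hε.1
    rw [← hsq] at this
    simp at this
  have h4 : ((g' r : ext H (Real.sqrt (ε : ℝ))) : ℝ) ≠ 0 := fun h => h3 (Subtype.ext h)
  rw [h1]
  positivity

/-- The relation between the units at the levels `S` and `S ∪ {q}`. -/
theorem quot_rel (i : Pieces2) {κ : ℝ} {w : K →+* ℝ} {H : IntermediateField K ℝ}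
    (abH : IsAb H) {S : Finset (HeightOneSpectrum (𝓞 K))} (unH : ∀ p, p ∉ S → Unram H p)
    {D : LData H S} (hV : VanP w D) {q : HeightOneSpectrum (𝓞 K)} (hq : q ∉ S)
    {D' : LData H (insert q S)} {κ' : ℝ} {y z : H} (hy : LogUnit κ' D y)
    (hypos : ∀ g : Gal H, 0 < ((g y : H) : ℝ)) (hz : LogUnit κ D' z) (g : Gal H)
    (hF : D.frob q = g⁻¹) :
    κ * Real.log (z : ℝ) = κ' * (Real.log (y : ℝ) - Real.log ((g y : H) : ℝ)) := by
  have hfin : ∀ h : Gal H, κ * Real.log |((h z : H) : ℝ)| - κ' * Real.log |((h y : H) : ℝ)| +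
      κ' * Real.log |((h (g y) : H) : ℝ)| = 0 := by
    refine i.finv K H abH _ fun χ => ?_
    haveI := abH.1
    haveI : Fintype (Gal H) := Fintype.ofFinite _
    have hr : IsRes (MonoidHom.id (Gal H)) := by
      intro g x y hxy
      have : x = y := Subtype.ext hxy
      rw [this]
      rfl
    have h1 := i.lrel K H H le_rfl S q hq D D' (MonoidHom.id _) hr abH unH χ (hV.1 χ)
    have h2 : deriv (D'.L χ) 0 = _ := hz.2.2.2 χ
    have h3 := hy.2.2.2 χ
    have h4 := sum_shift abH χ g⁻¹ y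
    rw [inv_inv] at h4
    have h5 : χ.comp (MonoidHom.id (Gal H)) = χ := MonoidHom.comp_id χ
    rw [h5, hF, h2, h3] at h1
    simp only [finsum_eq_sum_of_fintype] at h1 h4 ⊢
    have h6 : ∀ h : Gal H, (χ h : ℂ) * ((κ * Real.log |((h z : H) : ℝ)| -
        κ' * Real.log |((h y : H) : ℝ)| + κ' * Real.log |((h (g y) : H) : ℝ)| : ℝ) : ℂ) =
        (κ : ℂ) * ((χ h : ℂ) * (Real.log |((h z : H) : ℝ)| : ℝ)) -
        (κ' : ℂ) * ((χ h : ℂ) * (Real.log |((h y : H) : ℝ)| : ℝ)) +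
        (κ' : ℂ) * ((χ h : ℂ) * (Real.log |((h (g y) : H) : ℝ)| : ℝ)) := by
      intro h
      push_cast
      ring
    simp only [h6]
    rw [Finset.sum_add_distrib, Finset.sum_sub_distrib, ← Finset.mul_sum, ← Finset.mul_sum,
      ← Finset.mul_sum, h4]
    linear_combination -h1
  have h1 := hfin 1
  simp only [AlgEquiv.one_apply] at h1
  have hy1 : 0 < (y : ℝ) := hy.1
  rw [abs_of_pos hz.1, abs_of_pos hy1, abs_of_pos (hypos g)] at h1
  linarith

/-- The first part of the argument: the unit at the level `S` with `κ / 2`, up to squares it is in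
`K`. -/
theorem weak_core (i : Pieces2) {κ : ℝ} (hκ : κ ≠ 0) {w : K →+* ℝ} (hw : w ≠ algebraMap K ℝ)
    {H : IntermediateField K ℝ} (abH : IsAb H) {S : Finset (HeightOneSpectrum (𝓞 K))}
    (unH : ∀ p, p ∉ S → Unram H p) {D : LData H S} (hV : VanP w D)
    {B : Finset (HeightOneSpectrum (𝓞 K))}
    (hW : ∀ q, q ∉ S → q ∉ B → WeakC w κ H (insert q S)) :
    ∃ (b : K) (x : H), LogUnit (κ / 2) D (algebraMap K H b * x ^ 2) ∧
      (∀ g : Gal H, 0 < ((g (algebraMap K H b * x ^ 2) : H) : ℝ)) ∧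
      (∀ g : Gal H, 0 < ((g x : H) : ℝ) * (x : ℝ)) := by
  obtain ⟨⟨c, hc⟩, hcinv⟩ := i.conj K w hw H abH
  obtain ⟨q0, hq0, hqB0, hF0⟩ := i.cheb K H S B D c abH unH
  obtain ⟨D0, y, hV0, hy0, hypos⟩ := hW q0 hq0 hqB0
  have hr : IsRes (MonoidHom.id (Gal H)) := by
    intro g x y hxy
    have : x = y := Subtype.ext hxy
    rw [this]
    rfl
  have hy : LogUnit (κ / 2) D y := by
    refine logUnit_of_norm abH hc (VanP.van hV) y hy0.1 hy0.2.1 hy0.2.2.1
      (hcinv c hc y hy0.2.2.1) fun χ => ?_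
    have h1 := i.lrel K H H le_rfl S q0 hq0 D D0 (MonoidHom.id _) hr abH unH χ (hV.1 χ)
    rw [MonoidHom.comp_id, hF0] at h1
    rw [← h1]
    exact hy0.2.2.2 χ
  have hq : ∀ g : Gal H, ∃ z : H, (∀ h : Gal H, 0 < ((h z : H) : ℝ)) ∧ z ^ 2 * g y = y := by
    intro g
    obtain ⟨q, hq, hqB, hF⟩ := i.cheb K H S B D g⁻¹ abH unH
    obtain ⟨D', z, hV', hz, hzpos⟩ := hW q hq hqB
    refine ⟨z, hzpos, ?_⟩
    have h1 := quot_rel i abH unH hV hq hy hypos hz g hF
    have h2 : Real.log (z : ℝ) * 2 = Real.log (y : ℝ) - Real.log ((g y : H) : ℝ) := by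
      have h3 : κ * (Real.log (z : ℝ) * 2) =
          κ * (Real.log (y : ℝ) - Real.log ((g y : H) : ℝ)) := by linear_combination 2 * h1
      exact mul_left_cancel₀ hκ h3
    have hy1 : 0 < (y : ℝ) := hy0.1
    have hz1 : 0 < (z : ℝ) := hz.1
    have hg1 : 0 < ((g y : H) : ℝ) := hypos g
    refine Subtype.ext ?_
    change (z : ℝ) ^ 2 * ((g y : H) : ℝ) = (y : ℝ)
    have h4 : Real.log ((z : ℝ) ^ 2 * ((g y : H) : ℝ)) = Real.log (y : ℝ) := by
      rw [Real.log_mul (by positivity) hg1.ne', Real.log_pow]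
      push_cast
      linarith
    exact Real.log_injOn_pos (Set.mem_Ioi.2 (by positivity)) (Set.mem_Ioi.2 hy1) h4
  choose Z hZpos hZ using hq
  have hy00 : y ≠ 0 := by
    intro h
    have := hy0.1
    rw [h] at this
    simp at this
  obtain ⟨b, x, hx0, hZx, hyb⟩ := i.hnt K H abH y Z hy00 (fun g g' => hZpos g' g) hZ
  refine ⟨b, x, hyb ▸ hy, fun g => hyb ▸ hypos g, fun g => ?_⟩
  have h1 : (x : ℝ) = ((Z g : H) : ℝ) * ((g x : H) : ℝ) := congrArg Subtype.val (hZx g).symm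
  have h2 : 0 < ((Z g : H) : ℝ) := hZpos g 1
  have h3 : ((g x : H) : ℝ) ≠ 0 := by
    intro h
    have h4 : g x = 0 := Subtype.ext h
    exact hx0 (by simpa using h4)
  rw [h1]
  have h4 : 0 < ((g x : H) : ℝ) ^ 2 := by positivity
  nlinarith [mul_pos h2 h4]

/-- Descent of a unit through a quadratic extension by the norm. -/
theorem norm_desc (i : Pieces2) {κ : ℝ} {H : IntermediateField K ℝ}
    (abH : IsAb H) {S : Finset (HeightOneSpectrum (𝓞 K))} (unH : ∀ p, p ∉ S → Unram H p)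
    {a : ℝ} (abH' : IsAb (ext H a)) (ha : a ∉ H) (ha2 : a ^ 2 ∈ H) (D : LData H S)
    (D' : LData (ext H a) S) (T : Gal (ext H a))
    (hT : ∀ y : ext H a, (y : ℝ) ∈ H → T y = y) (hTa : ∀ y : ext H a, (y : ℝ) = a → T y = - y) :
    (∀ e : ext H a, ((e * T e : ext H a) : ℝ) ∈ H) ∧
    ∀ (e : ext H a), LogUnit κ D' e → (∀ g : Gal (ext H a), 0 < ((g e : ext H a) : ℝ)) →
      ∀ N : H, (N : ℝ) = ((e * T e : ext H a) : ℝ) → LogUnit κ D N ∧ ∀ g : Gal H, 0 < ((g N : H) : ℝ) := by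
  have haL : a ∈ ext H a := mem_ext H a
  have hTT : T * T = 1 := by
    have h1 : ∀ y : ext H a, (y : ℝ) ∈ ext H a → (T * T) y = y := by
      refine fix_of_ext (T * T) (le_ext H a) haL ?_ ?_
      · intro y hy
        rw [AlgEquiv.mul_apply, hT y hy, hT y hy]
      · intro y hy
        rw [AlgEquiv.mul_apply, hTa y hy, map_neg, hTa y hy, neg_neg]
    exact AlgEquiv.ext fun y => h1 y y.2
  have hgal : ∀ g : Gal (ext H a), (∀ y : ext H a, (y : ℝ) ∈ H → g y = y) → g = 1 ∨ g = T := by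
    intro g hg
    have h1 : (g ⟨a, haL⟩) ^ 2 = (⟨a, haL⟩ : ext H a) ^ 2 := by
      rw [← map_pow]
      exact hg _ ha2
    rcases sq_eq_sq_iff_eq_or_eq_neg.1 h1 with h | h
    · left
      have h1 : ∀ y : ext H a, (y : ℝ) ∈ ext H a → g y = y := by
        refine fix_of_ext g (le_ext H a) haL hg ?_
        intro y hy
        have : y = ⟨a, haL⟩ := Subtype.ext hy
        rw [this, h]
      exact AlgEquiv.ext fun y => h1 y y.2
    · right
      have h1 : ∀ y : ext H a, (y : ℝ) ∈ ext H a → (T * g) y = y := by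
        refine fix_of_ext (T * g) (le_ext H a) haL ?_ ?_
        · intro y hy
          rw [AlgEquiv.mul_apply, hg y hy, hT y hy]
        · intro y hy
          have : y = ⟨a, haL⟩ := Subtype.ext hy
          rw [AlgEquiv.mul_apply, this, h, map_neg, hTa _ rfl, neg_neg]
      have h2 : T * g = 1 := AlgEquiv.ext fun y => h1 y y.2
      calc g = (T * T) * g := by rw [hTT, one_mul]
        _ = T * (T * g) := mul_assoc _ _ _
        _ = T := by rw [h2, mul_one]
  have hmem : ∀ e : ext H a, ((e * T e : ext H a) : ℝ) ∈ H := by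
    intro e
    refine i.fix K H (ext H a) (le_ext H a) abH' _ fun g hg => ?_
    rcases hgal g hg with h | h
    · rw [h]; rfl
    · rw [h, map_mul]
      have h2 : T (T e) = e := by
        rw [← AlgEquiv.mul_apply, hTT]; rfl
      rw [h2, mul_comm]
  refine ⟨hmem, fun e he hepos N hN => ?_⟩
  obtain ⟨R, hR, hRs⟩ := i.res K H (ext H a) (le_ext H a) abH abH'
  have hRT : R T = 1 := by
    refine AlgEquiv.ext fun x => Subtype.ext ?_
    rw [hR T x (inc (le_ext H a) x) rfl, hT _ x.2]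
    rfl
  have he0 : e ≠ 0 := by
    intro h
    have := he.1
    rw [h] at this
    simp at this
  have hpos : ∀ g : Gal H, 0 < ((g N : H) : ℝ) := by
    intro g
    obtain ⟨g', hg'⟩ := hRs g
    have h1 := hR g' N (e * T e) hN
    rw [hg', map_mul] at h1
    rw [h1]
    have h2 : 0 < ((g' e : ext H a) : ℝ) := hepos g'
    have h3 : 0 < ((g' (T e) : ext H a) : ℝ) := hepos (g' * T)
    exact mul_pos h2 h3
  refine ⟨⟨hpos 1, ?_, i.arch K H (ext H a) (le_ext H a) abH' e T N he.2.2.1 hN, ?_⟩, hpos⟩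
  · rw [hN]
    exact isU_mul he.2.1 (isU_gal T e he.2.1)
  · intro χ
    have h1 := i.lrel0 K H (ext H a) (le_ext H a) S D D' R hR abH unH χ
    have h2 := he.2.2.2 (χ.comp R)
    have h4 := i.nsum K H a abH abH' ha ha2 R hR hRs T hTa hRT e N he0 hN χ
    have h5 : ∀ g, ((χ.comp R) g : ℂ) = (χ (R g) : ℂ) := fun g => rfl
    simp only [h5] at h2
    rw [h4] at h2
    rw [← h1, h2]

/-- A quadratic extension in the cyclotomic `ℤ₂`-extension. -/
theorem exists_quad (i : Pieces2) {H : IntermediateField K ℝ} (abH : IsAb H)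
    {S : Finset (HeightOneSpectrum (𝓞 K))}
    (hS2 : ∀ p : HeightOneSpectrum (𝓞 K), (2 : 𝓞 K) ∈ p.asIdeal → p ∈ S)
    (unH : ∀ p, p ∉ S → Unram H p) :
    HasQuad H S := by
  obtain ⟨n, hn, hn1⟩ := i.cyn K H abH.1
  have hcy : ∀ m, 0 ≤ cy m := by
    intro m
    cases m with
    | zero => exact le_refl _
    | succ m => exact Real.sqrt_nonneg _
  have ha2 : cy (n + 1) ^ 2 = 2 + cy n := by
    change Real.sqrt (2 + cy n) ^ 2 = _
    exact Real.sq_sqrt (by linarith [hcy n])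
  have ha2' : cy (n + 1) ^ 2 ∈ H := by
    rw [ha2]
    exact H.add_mem (by exact_mod_cast H.natCast_mem 2) hn
  have ab : IsAb (ext H (cy (n + 1))) := (i.sup K).1 H _ abH (i.cya K (n + 1))
  exact ⟨cy (n + 1), hn1, ha2', ab, fun p hp =>
    i.cyu K H n p abH ab hn (fun h => hp (hS2 p h)) (unH p hp)⟩

theorem exists_T (i : Pieces2) {H : IntermediateField K ℝ} {a : ℝ} (ha : a ∉ H) (ha2 : a ^ 2 ∈ H)
    (ab : IsAb (ext H a)) : ∃ T : Gal (ext H a), (∀ y : ext H a, (y : ℝ) ∈ H → T y = y) ∧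
      ∀ y : ext H a, (y : ℝ) = a → T y = - y := by
  have haL : a ∈ ext H a := mem_ext _ _
  obtain ⟨T, hT, hTa⟩ := i.lift K H (ext H a) (le_ext H _) ab ⟨_, haL⟩ ha ha2
  refine ⟨T, hT, fun y hy => ?_⟩
  have : y = ⟨_, haL⟩ := Subtype.ext hy
  rw [this]
  exact hTa

/-- The descent of the conjecture without the root condition. -/
theorem weak_step (i : Pieces2) {κ : ℝ} (hκ : κ ≠ 0) {w : K →+* ℝ} (hw : w ≠ algebraMap K ℝ)
    {S B : Finset (HeightOneSpectrum (𝓞 K))} (hSne : S.Nonempty)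
    (hW : ∀ q, q ∉ S → q ∉ B → ∀ H' : IntermediateField K ℝ, IsAb H' →
      (∀ p, p ∉ insert q S → Unram H' p) → WeakC w κ H' (insert q S))
    {H : IntermediateField K ℝ} (abH : IsAb H) (unH : ∀ p, p ∉ S → Unram H p)
    (hQ : HasQuad H S) : WeakC w κ H S := by
  have hdesc : ∀ H' : IntermediateField K ℝ, IsAb H' → (∀ p, p ∉ S → Unram H' p) →
      ∃ D : LData H' S, VanP w D := by
    intro H' abH' unH'
    refine i.desc K w H' S B abH' hSne unH' fun q hq hqB => ?_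
    obtain ⟨D', _, hV', _⟩ := hW q hq hqB H' abH' (fun p hp => unH' p fun h =>
      hp (Finset.mem_insert_of_mem h))
    exact ⟨D', hV'⟩
  obtain ⟨a, ha, ha2, abH', unH'⟩ := hQ
  obtain ⟨T, hT, hTa⟩ := exists_T i ha ha2 abH'
  obtain ⟨D, hV⟩ := hdesc H abH unH
  obtain ⟨D', hV'⟩ := hdesc (ext H a) abH' unH'
  obtain ⟨b, x, hy, hypos, hx⟩ := weak_core i hκ hw abH' unH' hV' (fun q hq hqB => hW q hq hqB _ abH'
    (fun p hp => unH' p fun h => hp (Finset.mem_insert_of_mem h)))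
  obtain ⟨hmem, hnorm⟩ := norm_desc i (κ := κ / 2) abH unH abH' ha ha2 D D' T hT hTa
  obtain ⟨R, hR, hRs⟩ := i.res K H (ext H a) (le_ext H a) abH abH'
  set m : H := ⟨_, hmem x⟩ with hm
  set u : H := algebraMap K H b * m with hu
  have hTb : T (algebraMap K (ext H a) b) = algebraMap K (ext H a) b := T.commutes b
  have hN : ((u ^ 2 : H) : ℝ) = (((algebraMap K (ext H a) b * x ^ 2) *
      T (algebraMap K (ext H a) b * x ^ 2) : ext H a) : ℝ) := by
    rw [map_mul, hTb, map_pow]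
    change (algebraMap K ℝ b * ((x : ℝ) * ((T x : ext H a) : ℝ))) ^ 2 =
      (algebraMap K ℝ b * (x : ℝ) ^ 2) * (algebraMap K ℝ b * ((T x : ext H a) : ℝ) ^ 2)
    ring
  obtain ⟨hLN, hNpos⟩ := hnorm _ hy hypos (u ^ 2) hN
  obtain ⟨u', hu', hLU⟩ := logUnit_abs u hLN
  have hb : 0 < algebraMap K ℝ b := by
    have h1 : 0 < algebraMap K ℝ b * (x : ℝ) ^ 2 := hypos 1
    have h2 : 0 ≤ (x : ℝ) ^ 2 := sq_nonneg _
    by_contra h
    push Not at h
    nlinarith [mul_nonneg (neg_nonneg.2 h) h2]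
  have hupos : ∀ g : Gal H, 0 < ((g u : H) : ℝ) := by
    intro g
    obtain ⟨g', hg'⟩ := hRs g
    have h1 : ((g u : H) : ℝ) = algebraMap K ℝ b * ((g m : H) : ℝ) := by
      rw [hu, map_mul, AlgEquiv.commutes]
      rfl
    have h2 : ((g m : H) : ℝ) = ((g' (x * T x) : ext H a) : ℝ) := by
      rw [← hg']
      exact hR g' m (x * T x) rfl
    rw [h1, h2, map_mul]
    refine mul_pos hb ?_
    change 0 < ((g' x : ext H a) : ℝ) * ((g' (T x) : ext H a) : ℝ)
    have h3 := hx g'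
    have h4 : 0 < (((g' * T) x : ext H a) : ℝ) * (x : ℝ) := hx (g' * T)
    change 0 < ((g' (T x) : ext H a) : ℝ) * (x : ℝ) at h4
    have h5 : 0 < (((g' x : ext H a) : ℝ) * ((g' (T x) : ext H a) : ℝ)) * (x : ℝ) ^ 2 := by
      have := mul_pos h3 h4
      nlinarith [this]
    have h6 : 0 ≤ (x : ℝ) ^ 2 := sq_nonneg _
    by_contra h
    push Not at h
    nlinarith [mul_nonneg (neg_nonneg.2 h) h6]
  have huu : u' = u := by
    rcases hu' with h | h
    · exact h
    · exfalso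
      have h1 := hLU.1
      have h2 : 0 < (u : ℝ) := hupos 1
      rw [h] at h1
      change 0 < -(u : ℝ) at h1
      linarith
  exact ⟨D, u, hV, huu ▸ hLU, hupos⟩

theorem sub_ab {H L : IntermediateField K ℝ} (h : H ≤ L) (hL : IsAb L) :
    IsAbelianGalois K H := by
  haveI := hL.1
  haveI := hL.2
  exact IsAbelianGalois.of_algHom (inc h)

/-- The descent of the conjecture with the root condition. -/
theorem strong_step (i : Pieces2) {κ : ℝ} (hκ : κ ≠ 0) {w : K →+* ℝ} (hw : w ≠ algebraMap K ℝ)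
    {S B : Finset (HeightOneSpectrum (𝓞 K))} (hSne : S.Nonempty)
    (hW : ∀ q, q ∉ S → q ∉ B → ∀ H' : IntermediateField K ℝ, IsAb H' →
      (∀ p, p ∉ insert q S → Unram H' p) → StarkC w κ H' (insert q S))
    {H : IntermediateField K ℝ} (abH : IsAb H) (unH : ∀ p, p ∉ S → Unram H p)
    (hQ : HasQuad2 H S) : StarkC w κ H S := by
  obtain ⟨a, ha, ha2, abH', unH', hQ'⟩ := hQ
  obtain ⟨T, hT, hTa⟩ := exists_T i ha ha2 abH'
  obtain ⟨D, hV⟩ : ∃ D : LData H S, VanP w D := by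
    refine i.desc K w H S B abH hSne unH fun q hq hqB => ?_
    obtain ⟨D', _, hV', _⟩ := hW q hq hqB H abH (fun p hp => unH p fun h =>
      hp (Finset.mem_insert_of_mem h))
    exact ⟨D', hV'⟩
  obtain ⟨D', u, hV', hu, hupos⟩ := weak_step i hκ hw hSne (fun q hq hqB H'' abH'' unH'' =>
    weak_of_stark i abH'' (hW q hq hqB H'' abH'' unH'')) abH' unH' hQ'
  obtain ⟨hmem, hnorm⟩ := norm_desc i (κ := κ) abH unH abH' ha ha2 D D' T hT hTa
  obtain ⟨hLN, hNpos⟩ := hnorm u hu hupos ⟨_, hmem u⟩ rfl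
  refine ⟨D, ⟨_, hmem u⟩, hV, hLN, ?_⟩
  obtain ⟨q, hq, hqB, hF⟩ := i.cheb K (ext H a) S B D' T⁻¹ abH' unH'
  obtain ⟨D'', e, hV'', he, hroot⟩ := hW q hq hqB (ext H a) abH' (fun p hp => unH' p fun h =>
      hp (Finset.mem_insert_of_mem h))
  have h1 := quot_rel i abH' unH' hV' hq hu hupos he T hF
  have h2 : Real.log (e : ℝ) = Real.log (u : ℝ) - Real.log ((T u : ext H a) : ℝ) :=
    mul_left_cancel₀ hκ h1
  have hu1 : 0 < (u : ℝ) := hu.1
  have he1 : 0 < (e : ℝ) := he.1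
  have hTu : 0 < ((T u : ext H a) : ℝ) := hupos T
  have h3 : (e : ℝ) * ((T u : ext H a) : ℝ) = (u : ℝ) := by
    have h4 : Real.log ((e : ℝ) * ((T u : ext H a) : ℝ)) = Real.log (u : ℝ) := by
      rw [Real.log_mul he1.ne' hTu.ne']
      linarith
    exact Real.log_injOn_pos (Set.mem_Ioi.2 (by positivity)) (Set.mem_Ioi.2 hu1) h4
  have hsqe : Real.sqrt (e : ℝ) ^ 2 = (e : ℝ) := Real.sq_sqrt he.1.le
  have abL : IsAb (ext (ext H a) (Real.sqrt (e : ℝ))) :=
    isAb_of_root abH' (by rw [hsqe]; exact e.2) hroot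
  have hsqe0 : 0 < Real.sqrt (e : ℝ) := Real.sqrt_pos.2 he1
  have h5 : Real.sqrt ((u : ℝ) * ((T u : ext H a) : ℝ)) = (u : ℝ) / Real.sqrt (e : ℝ) := by
    rw [Real.sqrt_eq_iff_mul_self_eq (by positivity) (by positivity)]
    field_simp
    rw [hsqe]
    rw [← h3]
    ring
  have h6 : ext H (Real.sqrt (((⟨_, hmem u⟩ : H) : ℝ))) ≤ ext (ext H a) (Real.sqrt (e : ℝ)) := by
    refine ext_le ((le_ext H a).trans (le_ext _ _)) ?_
    have h7 : (((⟨_, hmem u⟩ : H) : ℝ)) = (u : ℝ) * ((T u : ext H a) : ℝ) := rfl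
    rw [h7, h5]
    exact IntermediateField.div_mem _ (le_ext _ _ u.2) (mem_ext _ _)
  exact sub_ab h6 abL

theorem exists_quad2 (i : Pieces2) {H : IntermediateField K ℝ} (abH : IsAb H)
    {S : Finset (HeightOneSpectrum (𝓞 K))}
    (hS2 : ∀ p : HeightOneSpectrum (𝓞 K), (2 : 𝓞 K) ∈ p.asIdeal → p ∈ S)
    (unH : ∀ p, p ∉ S → Unram H p) : HasQuad2 H S := by
  obtain ⟨a, ha, ha2, abH', unH'⟩ := exists_quad i abH hS2 unH
  exact ⟨a, ha, ha2, abH', unH', exists_quad i abH' hS2 unH'⟩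

end B

end Pool.Agent.Run7.h787.ST
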