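import Pool.Agent.Run7.h787.ST.Main3
import Pool.Agent.Run7.h227.ST.LZ

/-!
# Stark's conjecture: the formulation with partial zeta functions
-/

set_option autoImplicit false
set_option linter.unusedSectionVars false
set_option linter.style.haveILetI false

open NumberField IsDedekindDomain

open scoped Classical

noncomputable section

namespace Pool.Agent.Run7.h787.ST

/-- The classical facts on the partial zeta functions at `s = 0`: they vanish, the derivatives for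
`g c` and `g` are opposite when `c` is a complex conjugation over the real embedding `w`, and the
zeta function `∑ Z g` of `K` without the factors at `S` has a zero of order at least `#S + 1`. -/
def VanZ {K : Type} [Field K] [NumberField K] [Algebra K ℝ] (w : K →+* ℝ)
    {H : IntermediateField K ℝ} {S : Finset (HeightOneSpectrum (𝓞 K))} (D : ZData H S) : Prop :=
  (∀ g, D.Z g 0 = 0) ∧
  (∀ c g : Gal H, IsConjAt w H c → deriv (D.Z (g * c)) 0 = - deriv (D.Z g) 0) ∧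
  (S.card : ℕ∞) + 1 ≤ analyticOrderAt (fun s => ∑ᶠ g : Gal H, D.Z g s) 0

/-- Tate's form of Stark's conjecture for `H / K`, `S` and the real place `K ⊆ ℝ`. -/
def StarkZ {K : Type} [Field K] [NumberField K] [Algebra K ℝ] (w : K →+* ℝ)
    (H : IntermediateField K ℝ) (S : Finset (HeightOneSpectrum (𝓞 K))) : Prop :=
  ∃ (D : ZData H S) (ε : H), VanZ w D ∧ 0 < (ε : ℝ) ∧ IsU (ε : ℝ) ∧ ArchOne H ε ∧
    (∀ g : Gal H, ((Real.log |((g ε : H) : ℝ)| : ℝ) : ℂ) = -2 * deriv (D.Z g) 0) ∧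
    IsAbelianGalois K (ext H (Real.sqrt (ε : ℝ)))

/-- Stark's conjecture without the root condition: the numbers `exp (- 2 ζ_S'(g, 0))` are conjugate
units of `H`. -/
def WeakZ {K : Type} [Field K] [NumberField K] [Algebra K ℝ] (w : K →+* ℝ)
    (H : IntermediateField K ℝ) (S : Finset (HeightOneSpectrum (𝓞 K))) : Prop :=
  ∃ (D : ZData H S) (ε : Gal H → H), VanZ w D ∧
    (∀ g, (deriv (D.Z g) 0).im = 0 ∧ ((ε g : H) : ℝ) = Real.exp (-2 * (deriv (D.Z g) 0).re)) ∧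
    (∀ g h : Gal H, h (ε g) = ε (h * g)) ∧ (∀ g, IsU ((ε g : H) : ℝ)) ∧ (∀ g, ArchOne H (ε g))

namespace B

variable {K : Type} [Field K] [NumberField K] [Algebra K ℝ]

theorem finvc {H : IntermediateField K ℝ} (hH : IsAb H) (f : Gal H → ℂ)
    (hf : ∀ χ : Gal H →* ℂˣ, ∑ᶠ g : Gal H, (χ g : ℂ) * f g = 0) : ∀ g, f g = 0 := by
  haveI := hH.1
  haveI : Fintype (Gal H) := Fintype.ofFinite _
  haveI := hH.2
  obtain ⟨_, o1, o2, o3⟩ := Pool.Agent.Run7.h227.ST.orth (G := Gal H)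
    (fun a b => IsMulCommutative.is_comm.comm a b)
  intro h
  have h1 : ∑ χ : Gal H →* ℂˣ, (χ h⁻¹ : ℂ) * ∑ g : Gal H, (χ g : ℂ) * f g = 0 := by
    refine Finset.sum_eq_zero fun χ _ => ?_
    have := hf χ
    rw [finsum_eq_sum_of_fintype] at this
    rw [this, mul_zero]
  have h2 : ∑ χ : Gal H →* ℂˣ, (χ h⁻¹ : ℂ) * ∑ g : Gal H, (χ g : ℂ) * f g =
      ∑ g : Gal H, (∑ χ : Gal H →* ℂˣ, ((χ (h⁻¹ * g) : ℂˣ) : ℂ)) * f g := by
    simp only [Finset.mul_sum, Finset.sum_mul]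
    rw [Finset.sum_comm]
    refine Finset.sum_congr rfl fun g _ => Finset.sum_congr rfl fun χ _ => ?_
    rw [map_mul, Units.val_mul]
    ring
  rw [h2] at h1
  rw [Finset.sum_eq_single h] at h1
  · rw [inv_mul_cancel, o2] at h1
    have hn : (Fintype.card (Gal H) : ℂ) ≠ 0 := by
      exact_mod_cast Fintype.card_ne_zero
    exact (mul_eq_zero.1 h1).resolve_left hn
  · intro g _ hg
    rw [o1 (h⁻¹ * g) (fun h' => hg (inv_mul_eq_one.1 h').symm), zero_mul]
  · intro h'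
    exact absurd (Finset.mem_univ h) h'

theorem deriv_sum {H : IntermediateField K ℝ} (hH : IsAb H)
    {S : Finset (HeightOneSpectrum (𝓞 K))} (D : ZData H S) (χ : Gal H →* ℂˣ) :
    deriv (fun s => ∑ᶠ g : Gal H, (χ g : ℂ) * D.Z g s) 0 =
      ∑ᶠ g : Gal H, (χ g : ℂ) * deriv (D.Z g) 0 := by
  haveI := hH.1
  haveI : Fintype (Gal H) := Fintype.ofFinite _
  simp only [finsum_eq_sum_of_fintype]
  have hd : ∀ g : Gal H, DifferentiableAt ℂ (D.Z g) 0 := fun g =>
    (D.analytic g).differentiableAt (isOpen_compl_singleton.mem_nhds (by simp))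
  have h1 : HasDerivAt (fun s => ∑ g : Gal H, (χ g : ℂ) * D.Z g s)
      (∑ g : Gal H, (χ g : ℂ) * deriv (D.Z g) 0) 0 :=
    HasDerivAt.fun_sum fun g _ => (hd g).hasDerivAt.const_mul _
  exact h1.deriv

theorem conj_val {w : K →+* ℝ} {H : IntermediateField K ℝ} {c : Gal H} (hc : IsConjAt w H c)
    (χ : Gal H →* ℂˣ) : (χ c : ℂ) = 1 ∨ (χ c : ℂ) = -1 := by
  have hc2 : (χ c : ℂ) ^ 2 = 1 := by
    have h1 : (χ c) * (χ c) = 1 := by rw [← map_mul, conj_sq hc, map_one]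
    have h2 := congrArg (fun z : ℂˣ => (z : ℂ)) h1
    simp only [Units.val_mul, Units.val_one] at h2
    rw [pow_two]; exact h2
  have hc3 : ((χ c : ℂ) - 1) * ((χ c : ℂ) + 1) = 0 := by linear_combination hc2
  rcases mul_eq_zero.1 hc3 with h | h
  · left; linear_combination h
  · right; linear_combination h

theorem sum_mulRight {H : IntermediateField K ℝ} (hH : IsAb H) (χ : Gal H →* ℂˣ) (c : Gal H)
    (f : Gal H → ℂ) : ∑ᶠ g : Gal H, (χ g : ℂ) * f g =
      (χ c : ℂ) * ∑ᶠ g : Gal H, (χ g : ℂ) * f (g * c) := by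
  haveI := hH.1
  haveI : Fintype (Gal H) := Fintype.ofFinite _
  rw [finsum_eq_sum_of_fintype, finsum_eq_sum_of_fintype, Finset.mul_sum,
    ← Equiv.sum_comp (Equiv.mulRight c)]
  refine Finset.sum_congr rfl fun g _ => ?_
  change ((χ (g * c) : ℂˣ) : ℂ) * f (g * c) = _
  rw [map_mul, Units.val_mul]
  ring

/-- vanishing facts: from L-functions to partial zeta functions -/
theorem vanZ_of {w : K →+* ℝ} {H : IntermediateField K ℝ} (hH : IsAb H)
    {S : Finset (HeightOneSpectrum (𝓞 K))} {D : LData H S} {D' : ZData H S}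
    (h : ∀ (χ : Gal H →* ℂˣ) (s : ℂ), D.L χ s = ∑ᶠ g : Gal H, (χ g : ℂ) * D'.Z g s)
    (hV : VanP w D) : VanZ w D' := by
  haveI := hH.1
  haveI : Fintype (Gal H) := Fintype.ofFinite _
  have hL : ∀ χ : Gal H →* ℂˣ, D.L χ = fun s => ∑ᶠ g : Gal H, (χ g : ℂ) * D'.Z g s :=
    fun χ => funext (h χ)
  refine ⟨?_, ?_, ?_⟩
  · refine finvc hH (fun g => D'.Z g 0) fun χ => ?_
    rw [← h χ 0]
    exact hV.1 χ
  · intro c g hc
    have key : ∀ g, deriv (D'.Z (g * c)) 0 + deriv (D'.Z g) 0 = 0 := by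
      refine finvc hH (fun g => deriv (D'.Z (g * c)) 0 + deriv (D'.Z g) 0) fun χ => ?_
      have h1 := deriv_sum hH D' χ
      rw [← hL χ] at h1
      have h2 := sum_mulRight hH χ c (fun g => deriv (D'.Z g) 0)
      rw [← h1] at h2
      have h3 : ∑ᶠ g : Gal H, (χ g : ℂ) * (deriv (D'.Z (g * c)) 0 + deriv (D'.Z g) 0) =
          ∑ᶠ g : Gal H, (χ g : ℂ) * deriv (D'.Z (g * c)) 0 + deriv (D.L χ) 0 := by
        rw [h1]
        simp only [finsum_eq_sum_of_fintype, mul_add, Finset.sum_add_distrib]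
      rw [h3]
      rcases conj_val hc χ with h4 | h4
      · have h5 : χ c = 1 := Units.ext (by rw [h4]; rfl)
        have h6 := hV.2.1 χ c hc h5
        rw [h6, h4, one_mul] at h2
        rw [h6, ← h2, add_zero]
      · rw [h4] at h2
        rw [h2]; ring
    exact eq_neg_of_add_eq_zero_left (key g)
  · have h1 := hV.2.2
    rw [hL 1] at h1
    have h2 : (fun s => ∑ᶠ g : Gal H, (((1 : Gal H →* ℂˣ) g : ℂˣ) : ℂ) * D'.Z g s) =
        fun s => ∑ᶠ g : Gal H, D'.Z g s := by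
      funext s
      simp
    rw [h2] at h1
    exact h1

/-- vanishing facts: from partial zeta functions to L-functions -/
theorem vanP_of {w : K →+* ℝ} {H : IntermediateField K ℝ} (hH : IsAb H)
    {S : Finset (HeightOneSpectrum (𝓞 K))} {D : LData H S} {D' : ZData H S}
    (h : ∀ (χ : Gal H →* ℂˣ) (s : ℂ), D.L χ s = ∑ᶠ g : Gal H, (χ g : ℂ) * D'.Z g s)
    (hV : VanZ w D') : VanP w D := by
  haveI := hH.1
  haveI : Fintype (Gal H) := Fintype.ofFinite _
  have hL : ∀ χ : Gal H →* ℂˣ, D.L χ = fun s => ∑ᶠ g : Gal H, (χ g : ℂ) * D'.Z g s :=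
    fun χ => funext (h χ)
  refine ⟨?_, ?_, ?_⟩
  · intro χ
    rw [h χ 0]
    simp only [hV.1, mul_zero, finsum_zero]
  · intro χ c hc hχ
    have h1 := deriv_sum hH D' χ
    rw [← hL χ] at h1
    have h2 := sum_mulRight hH χ c (fun g => deriv (D'.Z g) 0)
    rw [← h1, hχ, Units.val_one, one_mul] at h2
    have h3 : ∑ᶠ g : Gal H, (χ g : ℂ) * deriv (D'.Z (g * c)) 0 = - deriv (D.L χ) 0 := by
      rw [h1, ← finsum_neg_distrib]
      refine finsum_congr fun g => ?_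
      rw [hV.2.1 c g hc]
      ring
    rw [h3] at h2
    linear_combination (1 / 2 : ℂ) * h2
  · have h1 := hV.2.2
    have h2 : (fun s => ∑ᶠ g : Gal H, (((1 : Gal H →* ℂˣ) g : ℂˣ) : ℂ) * D'.Z g s) =
        fun s => ∑ᶠ g : Gal H, D'.Z g s := by
      funext s
      simp
    rw [hL 1, h2]
    exact h1

theorem formula_iff {H : IntermediateField K ℝ} (hH : IsAb H)
    {S : Finset (HeightOneSpectrum (𝓞 K))} {D : LData H S} {D' : ZData H S}
    (h : ∀ (χ : Gal H →* ℂˣ) (s : ℂ), D.L χ s = ∑ᶠ g : Gal H, (χ g : ℂ) * D'.Z g s) (ε : H) :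
    (∀ χ : Gal H →* ℂˣ, deriv (D.L χ) 0 = -((1 / 2 : ℝ) : ℂ) *
      ∑ᶠ g : Gal H, (χ g : ℂ) * (Real.log |((g ε : H) : ℝ)| : ℝ)) ↔
    ∀ g : Gal H, ((Real.log |((g ε : H) : ℝ)| : ℝ) : ℂ) = -2 * deriv (D'.Z g) 0 := by
  haveI := hH.1
  haveI : Fintype (Gal H) := Fintype.ofFinite _
  have hL : ∀ χ : Gal H →* ℂˣ, D.L χ = fun s => ∑ᶠ g : Gal H, (χ g : ℂ) * D'.Z g s :=
    fun χ => funext (h χ)
  constructor
  · intro h1 g
    have key : ∀ g : Gal H, ((Real.log |((g ε : H) : ℝ)| : ℝ) : ℂ) + 2 * deriv (D'.Z g) 0 = 0 := by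
      refine finvc hH _ fun χ => ?_
      have h2 := h1 χ
      rw [hL χ, deriv_sum hH D' χ] at h2
      simp only [finsum_eq_sum_of_fintype] at h2 ⊢
      have h3 : ∀ g : Gal H, (χ g : ℂ) * (((Real.log |((g ε : H) : ℝ)| : ℝ) : ℂ) +
          2 * deriv (D'.Z g) 0) = (χ g : ℂ) * ((Real.log |((g ε : H) : ℝ)| : ℝ) : ℂ) +
          2 * ((χ g : ℂ) * deriv (D'.Z g) 0) := fun g => by ring
      simp only [h3]
      rw [Finset.sum_add_distrib, ← Finset.mul_sum, h2]
      push_cast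
      ring
    linear_combination key g
  · intro h1 χ
    rw [hL χ, deriv_sum hH D' χ]
    simp only [finsum_eq_sum_of_fintype, Finset.mul_sum]
    refine Finset.sum_congr rfl fun g _ => ?_
    rw [h1 g]
    push_cast
    ring

theorem stark_iff (iZL : S_ZL) (iLZ : S_LZ) {w : K →+* ℝ} {H : IntermediateField K ℝ}
    (hH : IsAb H) {S : Finset (HeightOneSpectrum (𝓞 K))} :
    StarkC w (1 / 2) H S ↔ StarkZ w H S := by
  constructor
  · rintro ⟨D, ε, hV, ⟨h0, hU, hA, hs⟩, hroot⟩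
    obtain ⟨D', h⟩ := iLZ K H S D hH
    exact ⟨D', ε, vanZ_of hH h hV, h0, hU, hA, (formula_iff hH h ε).1 hs, hroot⟩
  · rintro ⟨D', ε, hV, h0, hU, hA, hs, hroot⟩
    obtain ⟨D, -, h⟩ := iZL K H S D' hH
    exact ⟨D, ε, vanP_of hH h hV, ⟨h0, hU, hA, (formula_iff hH h ε).2 hs⟩, hroot⟩

theorem isU_gal' {H : IntermediateField K ℝ} (g : Gal H) (x : H) (h : IsU (x : ℝ)) :
    IsU ((g x : H) : ℝ) := isU_gal g x h

theorem archOne_gal {H : IntermediateField K ℝ} (g : Gal H) (x : H) (h : ArchOne H x) :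
    ArchOne H (g x) := by
  intro τ hτ
  have h1 := h (τ.comp (g : H →+* H)) (by
    obtain ⟨y, hy⟩ := hτ
    refine ⟨y, ?_⟩
    change τ (g (algebraMap K H y)) ≠ _
    rw [AlgEquiv.commutes]
    exact hy)
  exact h1

theorem weak_iff (iZL : S_ZL) (iLZ : S_LZ) {w : K →+* ℝ} {H : IntermediateField K ℝ}
    (hH : IsAb H) {S : Finset (HeightOneSpectrum (𝓞 K))} :
    WeakC w (1 / 2) H S ↔ WeakZ w H S := by
  constructor
  · rintro ⟨D, ε, hV, ⟨h0, hU, hA, hs⟩, hpos⟩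
    obtain ⟨D', h⟩ := iLZ K H S D hH
    have h1 := (formula_iff hH h ε).1 hs
    refine ⟨D', fun g => g ε, vanZ_of hH h hV, fun g => ?_, fun g g' => rfl,
      fun g => isU_gal g ε hU, fun g => archOne_gal g ε hA⟩
    have h2 : deriv (D'.Z g) 0 = ((-(1 / 2) * Real.log |((g ε : H) : ℝ)| : ℝ) : ℂ) := by
      push_cast
      rw [h1 g]
      ring
    rw [h2, Complex.ofReal_im, Complex.ofReal_re]
    refine ⟨rfl, ?_⟩
    have h3 : -2 * (-(1 / 2) * Real.log |((g ε : H) : ℝ)|) = Real.log |((g ε : H) : ℝ)| := by ring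
    rw [h3, abs_of_pos (hpos g), Real.exp_log (hpos g)]
  · rintro ⟨D', ε, hV, hexp, hgal, hU, hA⟩
    obtain ⟨D, -, h⟩ := iZL K H S D' hH
    have hpos : ∀ g : Gal H, ((g (ε 1) : H) : ℝ) = Real.exp (-2 * (deriv (D'.Z g) 0).re) := by
      intro g
      rw [hgal, mul_one]
      exact (hexp g).2
    refine ⟨D, ε 1, vanP_of hH h hV, ⟨?_, hU 1, hA 1, (formula_iff hH h (ε 1)).2 fun g => ?_⟩,
      fun g => ?_⟩
    · rw [(hexp 1).2]
      exact Real.exp_pos _
    · rw [hpos g, abs_of_pos (Real.exp_pos _), Real.log_exp]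
      apply Complex.ext
      · simp
      · simp [(hexp g).1]
    · rw [hpos g]
      exact Real.exp_pos _

end B

end Pool.Agent.Run7.h787.ST
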